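import Mathlib

set_option autoImplicit false

/-! Counting integer vectors `m` with `∑ (k+1) |m k| ≤ T` (signed partitions). -/

namespace Pool.Agent.Lib.MP_1e748d_nt

open Finset Real

lemma geom_int (q : ℝ) (h0 : 0 ≤ q) (h1 : q < 1) (J : Finset ℤ) :
    ∑ j ∈ J, q ^ j.natAbs ≤ 1 + 2 * q / (1 - q) := by
  have a := hasSum_geometric_of_lt_one h0 h1
  have b : HasSum (fun n : ℕ => q ^ (n + 1)) (q * (1 - q)⁻¹) := by
    simpa only [pow_succ'] using a.mul_left q
  have h : HasSum (fun j : ℤ => q ^ j.natAbs) ((1 - q)⁻¹ + q * (1 - q)⁻¹) := by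
    refine HasSum.of_nat_of_neg_add_one (by simpa using a) ?_
    convert b using 2 with n
    congr 1
  refine (sum_le_hasSum J (fun j _ => by positivity) h).trans (le_of_eq ?_)
  have : 1 - q ≠ 0 := by linarith
  field_simp
  ring

lemma one_add_le_exp_sqrt (X : ℝ) (hX : 0 ≤ X) : 1 + X ≤ Real.exp (2 * √X) := by
  have h := Real.add_one_le_exp (√X)
  have h2 : Real.exp (2 * √X) = Real.exp (√X) ^ 2 := by rw [← Real.exp_nat_mul]; norm_num
  have h3 := Real.sq_sqrt hX
  have h4 := Real.sqrt_nonneg X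
  rw [h2]
  nlinarith

lemma factor_le (a : ℝ) (ha : 0 < a) :
    1 + 2 * Real.exp (-a ^ 2) / (1 - Real.exp (-a ^ 2)) ≤ Real.exp (20 / (a * (1 + a) ^ 2)) := by
  have h1 : a ^ 2 + (a ^ 2) ^ 3 / 6 ≤ Real.exp (a ^ 2) - 1 := by
    have := Real.sum_le_exp_of_nonneg (x := a ^ 2) (by positivity) 4
    simp only [Finset.sum_range_succ, Finset.range_zero, Finset.sum_empty, Nat.factorial] at this
    norm_num at this
    nlinarith [sq_nonneg (a ^ 2)]
  have h2 : 0 < a ^ 2 + (a ^ 2) ^ 3 / 6 := by positivity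
  have e : 2 * Real.exp (-a ^ 2) / (1 - Real.exp (-a ^ 2)) = 2 / (Real.exp (a ^ 2) - 1) := by
    have h3 : Real.exp (a ^ 2) - 1 ≠ 0 := by linarith
    have h4 : Real.exp (a ^ 2) ≠ 0 := (Real.exp_pos _).ne'
    rw [Real.exp_neg]
    field_simp
  rw [e]
  have h5 : 2 / (Real.exp (a ^ 2) - 1) ≤ (10 / (a * (1 + a) ^ 2)) ^ 2 := by
    refine (div_le_div_of_nonneg_left (by norm_num) h2 h1).trans ?_
    rw [div_pow, div_le_div_iff₀ h2 (by positivity)]
    have h6 : (1 + a) ^ 4 ≤ 8 * (1 + a ^ 4) := by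
      nlinarith [sq_nonneg (a - 1), sq_nonneg (a ^ 2 - 1), sq_nonneg (a ^ 2 - a), sq_nonneg a]
    have h7 : 2 * (a * (1 + a) ^ 2) ^ 2 = 2 * a ^ 2 * (1 + a) ^ 4 := by ring
    rw [h7]
    have h8 : 0 < a ^ 2 := by positivity
    have h9 : 0 ≤ a ^ 2 * a ^ 4 := by positivity
    nlinarith
  have h6 : 0 ≤ 2 / (Real.exp (a ^ 2) - 1) := by
    apply div_nonneg <;> linarith
  refine (one_add_le_exp_sqrt _ h6).trans (Real.exp_le_exp.mpr ?_)
  have := Real.sqrt_le_sqrt h5
  rw [Real.sqrt_sq (by positivity)] at this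
  have e2 : 20 / (a * (1 + a) ^ 2) = 2 * (10 / (a * (1 + a) ^ 2)) := by ring
  rw [e2]
  linarith

lemma telescope (u : ℝ) (hu : 0 < u) (n : ℕ) :
    ∑ k ∈ range n, 20 / (√(u * (k + 1)) * (1 + √(u * (k + 1))) ^ 2) ≤
      40 / u * (√(u * n) / (1 + √(u * n))) := by
  induction n with
  | zero => simp
  | succ n ih =>
    rw [Finset.sum_range_succ]
    push_cast
    set a := √(u * (n + 1)) with ha
    set b := √(u * n) with hb
    have a0 : 0 < a := Real.sqrt_pos.mpr (by positivity)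
    have b0 : 0 ≤ b := Real.sqrt_nonneg _
    have a2 : a ^ 2 = u * (n + 1) := Real.sq_sqrt (by positivity)
    have b2 : b ^ 2 = u * n := Real.sq_sqrt (by positivity)
    have ba : b ≤ a := Real.sqrt_le_sqrt (by nlinarith)
    have hu' : u = (a - b) * (a + b) := by nlinarith
    have key : 20 / (a * (1 + a) ^ 2) ≤ 40 / u * (a / (1 + a) - b / (1 + b)) := by
      have e : 40 / u * (a / (1 + a) - b / (1 + b)) = 40 / ((a + b) * ((1 + a) * (1 + b))) := by
        have : a - b ≠ 0 := by intro h; rw [h] at hu'; linarith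
        rw [hu']
        field_simp
        ring
      rw [e, div_le_div_iff₀ (by positivity) (by positivity)]
      have h1 : (a + b) * ((1 + a) * (1 + b)) ≤ (2 * a) * ((1 + a) * (1 + a)) := by
        gcongr
        linarith
      nlinarith
    linarith

theorem count_le (n : ℕ) (T u : ℝ) (hu : 0 < u) (M : Finset (Fin n → ℤ))
    (hM : ∀ m ∈ M, ∑ k : Fin n, ((k : ℝ) + 1) * |(m k : ℝ)| ≤ T) :
    (M.card : ℝ) ≤ Real.exp (u * T + 40 / u) := by
  classical
  set q : Fin n → ℝ := fun k => Real.exp (-(u * ((k : ℝ) + 1))) with hq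
  set J : Finset ℤ := M.biUnion fun m => Finset.univ.image m with hJ
  have h1 : ∀ m ∈ M, Real.exp (-(u * T)) ≤ ∏ k, q k ^ (m k).natAbs := by
    intro m hm
    simp only [hq, ← Real.exp_nat_mul, ← Real.exp_sum]
    refine Real.exp_le_exp.mpr ?_
    have := mul_le_mul_of_nonneg_left (hM m hm) hu.le
    rw [Finset.mul_sum] at this
    refine le_trans (neg_le_neg this) (le_of_eq ?_)
    rw [← Finset.sum_neg_distrib]
    refine Finset.sum_congr rfl fun k _ => ?_
    rw [Nat.cast_natAbs, Int.cast_abs]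
    ring
  have h2 : ∑ m ∈ M, ∏ k, q k ^ (m k).natAbs ≤ ∏ k, ∑ j ∈ J, q k ^ j.natAbs := by
    rw [Finset.prod_univ_sum]
    refine Finset.sum_le_sum_of_subset_of_nonneg ?_ fun m _ _ => by positivity
    intro m hm
    rw [Fintype.mem_piFinset]
    intro k
    exact Finset.mem_biUnion.mpr ⟨m, hm, Finset.mem_image_of_mem _ (Finset.mem_univ k)⟩
  have h3 : ∏ k, ∑ j ∈ J, q k ^ j.natAbs ≤ Real.exp (40 / u) := by
    have h4 : ∀ k : Fin n, ∑ j ∈ J, q k ^ j.natAbs ≤
        Real.exp (20 / (√(u * (k + 1)) * (1 + √(u * (k + 1))) ^ 2)) := by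
      intro k
      have p : 0 < u * ((k : ℝ) + 1) := by positivity
      have e : q k = Real.exp (-√(u * (k + 1)) ^ 2) := by rw [Real.sq_sqrt p.le]
      refine (geom_int (q k) (Real.exp_pos _).le ?_ J).trans ?_
      · exact Real.exp_lt_one_iff.mpr (by linarith)
      · rw [e]; exact factor_le _ (Real.sqrt_pos.mpr p)
    refine (Finset.prod_le_prod (fun k _ => by positivity) fun k _ => h4 k).trans ?_
    rw [← Real.exp_sum]
    refine Real.exp_le_exp.mpr ?_
    rw [Fin.sum_univ_eq_sum_range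
      (fun k : ℕ => 20 / (√(u * (k + 1)) * (1 + √(u * (k + 1))) ^ 2)) n]
    refine (telescope u hu n).trans ?_
    have : √(u * n) / (1 + √(u * n)) ≤ 1 := by
      rw [div_le_one (by positivity)]; linarith
    have p : 0 < 40 / u := by positivity
    nlinarith
  have h5 := Finset.card_nsmul_le_sum M _ _ h1
  rw [nsmul_eq_mul] at h5
  have h6 := h5.trans (h2.trans h3)
  rw [Real.exp_neg, ← div_eq_mul_inv, div_le_iff₀ (Real.exp_pos _), ← Real.exp_add] at h6
  rwa [add_comm]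

end Pool.Agent.Lib.MP_1e748d_nt
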