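import Pool.Agent.Lib.MP_1e748d_nt.BPos

/-! Evaluation in the unit disc: zeros of odd order lie on the interval. -/

open Finset PowerSeries
open scoped Polynomial Topology

namespace Pool.Agent.Lib.MP_1e748d_nt.B

/-- sum of the series at `z`. -/
noncomputable def ev (g : ℝ⟦X⟧) (z : ℂ) : ℂ := ∑' k, (coeff k g : ℝ) * z ^ k

/-- the series converges absolutely at `z` with sum `v`. -/
def HasEv (z : ℂ) (g : ℝ⟦X⟧) (v : ℂ) : Prop :=
  (Summable fun k => ‖((coeff k g : ℝ) : ℂ) * z ^ k‖) ∧ ev g z = v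

variable {z v v' : ℂ} {g g' : ℝ⟦X⟧}

lemma HasEv.add (h : HasEv z g v) (h' : HasEv z g' v') : HasEv z (g + g') (v + v') := by
  refine ⟨(h.1.add h'.1).of_nonneg_of_le (fun _ => norm_nonneg _) fun k => ?_, ?_⟩
  · rw [map_add, Complex.ofReal_add, add_mul]
    exact norm_add_le _ _
  · rw [← h.2, ← h'.2, ev, ev, ev, ← h.1.of_norm.tsum_add h'.1.of_norm]
    simp [add_mul]

lemma HasEv.mul (h : HasEv z g v) (h' : HasEv z g' v') : HasEv z (g * g') (v * v') := by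
  have e : ∀ n, ((coeff n (g * g') : ℝ) : ℂ) * z ^ n = ∑ kl ∈ antidiagonal n,
      ((coeff kl.1 g : ℝ) * z ^ kl.1) * ((coeff kl.2 g' : ℝ) * z ^ kl.2) := fun n => by
    rw [coeff_mul, Complex.ofReal_sum, sum_mul]
    refine sum_congr rfl fun kl hkl => ?_
    rw [← mem_antidiagonal.1 hkl]
    push_cast
    ring
  have h1 := summable_norm_sum_mul_antidiagonal_of_summable_norm
    (f := fun k => ((coeff k g : ℝ) : ℂ) * z ^ k) (g := fun k => ((coeff k g' : ℝ) : ℂ) * z ^ k)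
    h.1 h'.1
  have h2 := tsum_mul_tsum_eq_tsum_sum_antidiagonal_of_summable_norm
    (f := fun k => ((coeff k g : ℝ) : ℂ) * z ^ k) (g := fun k => ((coeff k g' : ℝ) : ℂ) * z ^ k)
    h.1 h'.1
  refine ⟨h1.congr fun n => by rw [e], ?_⟩
  rw [← h.2, ← h'.2, ev, ev, ev, h2]
  exact tsum_congr e

lemma hasEv_mono (z : ℂ) (n : ℕ) (r : ℝ) : HasEv z (monomial n r) (r * z ^ n) := by
  refine ⟨summable_of_ne_finset_zero (s := {n}) fun k hk => ?_, ?_⟩
  · simp [coeff_monomial, notMem_singleton.1 hk]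
  · rw [ev, tsum_eq_single n fun k hk => by simp [coeff_monomial, hk]]
    simp

lemma hasEv_C (z : ℂ) (r : ℝ) : HasEv z (C r) r := by simpa using hasEv_mono z 0 r

lemma hasEv_X (z : ℂ) : HasEv z X z := by simpa [← X_eq] using hasEv_mono z 1 1

lemma hasEv_oms (z : ℂ) : HasEv z (1 - X ^ 2) (1 - z ^ 2) := by
  convert (hasEv_C z 1).add ((hasEv_C z (-1)).mul ((hasEv_X z).mul (hasEv_X z))) using 1 <;>
    simp [sq, sub_eq_add_neg]

lemma hasEv_qq (z : ℂ) (c : ℝ) : HasEv z (qq c 1) (1 + c * z + z ^ 2) := by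
  convert ((hasEv_C z 1).add ((hasEv_C z c).mul (hasEv_X z))).add
    ((hasEv_X z).mul (hasEv_X z)) using 1 <;> simp [sq, qq]

lemma HasEv.aeval (h : HasEv z g v) (p : ℤ[X]) :
    HasEv z (Polynomial.aeval g p) (Polynomial.aeval v p) := by
  induction p using Polynomial.induction_on with
  | C a => simpa using hasEv_C z a
  | add p q hp hq => simpa using hp.add hq
  | monomial n a ih => simpa [pow_succ, ← mul_assoc] using ih.mul h

lemma hasEv_bdd {K : ℝ} (h : ∀ k, |coeff k g| ≤ K) (hz : ‖z‖ < 1) : HasEv z g (ev g z) := by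
  refine ⟨((summable_geometric_of_lt_one (norm_nonneg z) hz).mul_left K).of_nonneg_of_le
    (fun _ => norm_nonneg _) fun k => ?_, rfl⟩
  rw [norm_mul, norm_pow, Complex.norm_real]
  exact mul_le_mul_of_nonneg_right (h k) (by positivity)

lemma analytic_ev {K : ℝ} (h : ∀ k, |coeff k g| ≤ K) (hz : ‖z‖ < 1) : AnalyticAt ℂ (ev g) z := by
  obtain ⟨r, h1, h2⟩ := exists_between hz
  have h0 : 0 ≤ r := (norm_nonneg z).trans h1.le
  refine (Complex.differentiableOn_tsum_of_summable_norm (U := Metric.ball 0 r)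
    ((summable_geometric_of_lt_one h0 h2).mul_left K) (fun i => by fun_prop) Metric.isOpen_ball
    fun k w hw => ?_).analyticAt (Metric.isOpen_ball.mem_nhds (by simpa using h1))
  rw [norm_mul, norm_pow, Complex.norm_real]
  exact mul_le_mul (h k) (pow_le_pow_left₀ (norm_nonneg _) (mem_ball_zero_iff.1 hw).le k)
    (by positivity) ((abs_nonneg _).trans (h 0))

lemma hasEv_ph {c : ℝ} (hc : |c| < 2) (hz : ‖z‖ < 1) :
    1 + c * z + z ^ 2 ≠ 0 ∧ HasEv z (ph c 1) (z / (1 + c * z + z ^ 2)) := by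
  obtain ⟨K, hK⟩ := qinv_le hc
  have h1 := hasEv_bdd hK hz
  have h2 := ((hasEv_qq z c).mul h1).2
  rw [PowerSeries.mul_inv_cancel _ (by simp [qq_zero]), ← map_one C, (hasEv_C z 1).2] at h2
  refine ⟨left_ne_zero_of_mul_eq_one h2.symm, ?_⟩
  rw [div_eq_mul_inv, ← eq_inv_of_mul_eq_one_right h2.symm]
  exact (hasEv_X z).mul h1

lemma exists_root {c : ℝ} {β : ℂ} (h : ∀ y : ℝ, |y - c| ≤ 2 → β ≠ y) :
    ∃ z : ℂ, z ≠ 0 ∧ ‖z‖ < 1 ∧ β = c + z + z⁻¹ := by
  obtain ⟨z, hz⟩ := exists_quadratic_eq_zero (a := (1 : ℂ)) (b := c - β) (c := 1) one_ne_zero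
    (IsAlgClosed.exists_eq_mul_self _)
  have h0 : z ≠ 0 := by
    rintro rfl
    simp at hz
  have e : β = c + z + z⁻¹ := by
    field_simp
    linear_combination -hz
  rcases lt_trichotomy ‖z‖ 1 with h1 | h1 | h1
  · exact ⟨z, h0, h1, e⟩
  · refine absurd ?_ (h (c + 2 * z.re) ?_)
    · rw [e, Complex.inv_eq_conj h1, add_assoc, Complex.add_conj]
      simp
    · have := Complex.abs_re_le_norm z
      rw [add_sub_cancel_left, abs_mul, abs_two]
      linarith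
  · exact ⟨z⁻¹, inv_ne_zero h0, by rw [norm_inv]; exact inv_lt_one_of_one_lt₀ h1, by
      rw [e, inv_inv]; ring⟩

variable {a : ℝ} {s : ℕ → ℤ} {L : ℝ[X] →ₗ[ℝ] ℝ}

theorem Fn.odd (F : Fn a s L) (ha : |a + 2| < 2) {B1 B0 Γ : ℤ[X]}
    (h : ((B1 : ℤ⟦X⟧) * PowerSeries.mk s + B0) ^ 2 = Γ) {τ : ℂ} (hτ : τ ≠ 0) {k : ℕ} {Γ1 : ℂ[X]}
    (e : ∀ t : ℂ, Polynomial.aeval t Γ = (t - τ) ^ (2 * k + 1) * Polynomial.aeval t Γ1)
    (h1 : Polynomial.aeval τ Γ1 ≠ 0) : ∃ y : ℝ, |y - (a + 2)| ≤ 2 ∧ τ⁻¹ = y := by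
  by_contra hn
  push Not at hn
  obtain ⟨z, hz0, hz, hβ⟩ := exists_root hn
  set c := a + 2
  have h2 := congrArg (fun w => (1 - X ^ 2) ^ 2 * Ps ℤ c 1 w) h
  simp only [map_pow, map_add, map_mul, Ps_coe] at h2
  rw [← mul_pow, mul_add, mul_left_comm, ← q_CC, sq] at h2
  let q : ℂ → ℂ := fun w => 1 + c * w + w ^ 2
  let M : ℂ → ℂ := fun w => Polynomial.aeval (w / q w) B1 * (q w * ev (CC c (PowerSeries.mk s)) w) +
    (1 - w ^ 2) * Polynomial.aeval (w / q w) B0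
  let G : ℂ → ℂ := fun w => (1 - w ^ 2) ^ 2 * (-τ * (w - z⁻¹) / q w) ^ (2 * k + 1) *
    Polynomial.aeval (w / q w) Γ1
  have hq := (hasEv_ph ha hz).1
  have aq : AnalyticAt ℂ q z := by fun_prop
  have at' : AnalyticAt ℂ (fun w => w / q w) z := analyticAt_id.div aq hq
  have aM : AnalyticAt ℂ M z :=
    ((at'.aeval_polynomial B1).mul (aq.mul (analytic_ev F.CC_le hz))).add
      (AnalyticAt.mul (by fun_prop) (at'.aeval_polynomial B0))
  have aG : AnalyticAt ℂ G z :=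
    (AnalyticAt.mul (by fun_prop) ((AnalyticAt.div (by fun_prop) aq hq).pow _)).mul
      (at'.aeval_polynomial Γ1)
  have key : ∀ w, q w ≠ 0 → w / q w - τ = (w - z) * (-τ * (w - z⁻¹) / q w) := fun w hw => by
    have b1 := mul_inv_cancel₀ hτ
    have b2 := mul_inv_cancel₀ hz0
    rw [← mul_div_assoc, div_sub' hw, div_left_inj' hw]
    simp only [q]
    linear_combination (-w) * b1 + τ * w * hβ + τ * b2
  have hz2 : 1 - z ^ 2 ≠ 0 := fun h0 => by
    have : ‖z‖ ^ 2 = 1 := by rw [← norm_pow, ← sub_eq_zero.1 h0, norm_one]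
    nlinarith [norm_nonneg z]
  have hG : G z ≠ 0 := by
    have b1 : z / q z = τ := by rw [← sub_eq_zero, key z hq, sub_self, zero_mul]
    refine mul_ne_zero (mul_ne_zero (pow_ne_zero _ hz2) (pow_ne_zero _ (div_ne_zero
      (mul_ne_zero (neg_ne_zero.2 hτ) fun h0 => hz2 ?_) hq))) (by rwa [b1])
    rw [sq]
    nth_rewrite 2 [sub_eq_zero.1 h0]
    rw [mul_inv_cancel₀ hz0, sub_self]
  have h3 : analyticOrderAt (M ^ 2) z = (2 * k + 1 : ℕ) := by
    refine (aM.pow 2).analyticOrderAt_eq_natCast.2 ⟨G, aG, hG, ?_⟩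
    filter_upwards [Metric.isOpen_ball.mem_nhds (mem_ball_zero_iff.2 hz)] with w hw
    have hw' := mem_ball_zero_iff.1 hw
    obtain ⟨b1, b2⟩ := hasEv_ph ha hw'
    have b3 := ((b2.aeval B1).mul ((hasEv_qq w c).mul (hasEv_bdd F.CC_le hw'))).add
      ((hasEv_oms w).mul (b2.aeval B0))
    have b4 := (b3.mul b3).2
    rw [h2, sq, (((hasEv_oms w).mul (hasEv_oms w)).mul (b2.aeval Γ)).2, e, key w b1] at b4
    rw [Pi.pow_apply, sq, smul_eq_mul]
    refine b4.symm.trans ?_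
    simp only [G, mul_pow]
    ring
  rw [analyticOrderAt_pow aM] at h3
  generalize analyticOrderAt M z = m at h3
  induction m using ENat.recTopCoe with
  | top =>
    rw [two_nsmul, top_add] at h3
    exact ENat.natCast_ne_top _ h3.symm
  | coe m =>
    rw [two_nsmul, ← Nat.cast_add, Nat.cast_inj] at h3
    omega

end Pool.Agent.Lib.MP_1e748d_nt.B
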