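import Pool.Agent.Lib.MP_1e748d_nt.BDep

/-! Square roots of integer polynomials: Polya's theorem on a short interval, integrality. -/

open Finset PowerSeries
open scoped Polynomial

namespace Pool.Agent.Lib.MP_1e748d_nt.B

/-- `w` has a square root with summable coefficients. -/
def Rt (w : ℂ⟦X⟧) : Prop := ∃ r : ℂ⟦X⟧, r * r = w ∧ Summable fun k => ‖coeff k r‖

lemma Rt.mul {w w' : ℂ⟦X⟧} (h : Rt w) (h' : Rt w') : Rt (w * w') := by
  obtain ⟨r, rfl, h1⟩ := h
  obtain ⟨r', rfl, h2⟩ := h'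
  have h3 := summable_norm_sum_mul_antidiagonal_of_summable_norm
    (f := fun k => coeff k r) (g := fun k => coeff k r') h1 h2
  exact ⟨r * r', by ring, h3.congr fun n => by rw [coeff_mul]⟩

lemma rt_C (b : ℂ) : Rt (C b) := by
  obtain ⟨r, rfl⟩ := IsAlgClosed.exists_eq_mul_self b
  exact ⟨C r, (map_mul _ _ _).symm, summable_of_ne_finset_zero (s := {0}) fun k hk => by
    simp [coeff_C, notMem_singleton.1 hk]⟩

lemma rt_lin {ω : ℂ} (hω : ‖ω‖ ≤ 1) : Rt (1 - C ω * X) := by
  obtain ⟨r, hr⟩ : ∃ r : ℂ⟦X⟧, r * r = 1 - C ω * X := by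
    refine ⟨rescale (-ω) (binomialSeries ℂ (1 / 2 : ℂ)), ?_⟩
    have := binomialSeries_nat (R := ℂ) (A := ℂ) 1
    rw [← map_mul, ← binomialSeries_add, add_halves, ← Nat.cast_one, this]
    simp [rescale_X, sub_eq_add_neg]
  refine ⟨r, hr, ?_⟩
  have h1 := congrArg (d⁄dX ℂ) hr
  simp only [Derivation.leibniz, map_sub, derivative_one, derivative_C, derivative_X, smul_eq_mul,
    mul_one, mul_zero, add_zero, zero_sub] at h1
  have h2 : 2 * d⁄dX ℂ r = C ω * (2 * (X * d⁄dX ℂ r) - r) := by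
    linear_combination r * h1 - 2 * d⁄dX ℂ r * hr
  have h3 : ∀ k : ℕ, 2 * (k + 2) * ‖coeff (k + 2) r‖ ≤ (2 * k + 1) * ‖coeff (k + 1) r‖ := by
    intro k
    have a1 := congrArg (coeff (k + 1)) h2
    rw [two_mul, two_mul, coeff_C_mul, map_add, map_sub, map_add, coeff_succ_X_mul,
      coeff_derivative, coeff_derivative] at a1
    have a2 : ((2 * (k + 2) : ℝ) : ℂ) * coeff (k + 2) r =
        ω * (((2 * k + 1 : ℝ) : ℂ) * coeff (k + 1) r) := by
      push_cast at a1 ⊢
      linear_combination a1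
    have a3 := congrArg norm a2
    rw [norm_mul, norm_mul, norm_mul, Complex.norm_of_nonneg (by positivity),
      Complex.norm_of_nonneg (by positivity)] at a3
    rw [a3]
    exact mul_le_of_le_one_left (by positivity) hω
  have h4 : ∀ n : ℕ, ∑ k ∈ range n, ‖coeff (k + 1) r‖ + 2 * (n + 1) * ‖coeff (n + 1) r‖ ≤
      2 * ‖coeff 1 r‖ := by
    intro n
    induction n with
    | zero => simp
    | succ n ih =>
      have := h3 n
      rw [sum_range_succ]
      push_cast
      linarith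
  refine (summable_nat_add_iff 1).1 (summable_of_sum_range_le (fun _ => norm_nonneg _)
    fun n => le_trans (le_add_of_nonneg_right (by positivity)) (h4 n))

/-- complexification. -/
noncomputable abbrev cx : ℝ⟦X⟧ →+* ℂ⟦X⟧ := PowerSeries.map (algebraMap ℝ ℂ)

lemma rt_quad {c ρ β : ℝ} (hρ : 0 < ρ) (h : |β - c| ≤ 2 * ρ) :
    Rt (cx (qq c ρ) - C (β : ℂ) * X) := by
  set u := (β - c) / (2 * ρ) with hu
  have h1 : u ^ 2 ≤ 1 := by
    rw [sq_le_one_iff_abs_le_one, hu, abs_div, abs_of_pos (by positivity : 0 < 2 * ρ)]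
    exact div_le_one_of_le₀ h (by positivity)
  have h2 := Real.sq_sqrt (sub_nonneg.2 h1)
  set t := √(1 - u ^ 2)
  have h3 : ∀ t : ℝ, t ^ 2 = 1 - u ^ 2 → ‖(u : ℂ) + t * Complex.I‖ ≤ 1 := fun t ht => by
    rw [Complex.norm_add_mul_I, ht]
    simp
  have h4 := (rt_C ρ).mul ((rt_lin (h3 t h2)).mul (rt_lin (h3 (-t) (by rw [neg_sq, h2]))))
  convert h4 using 1
  have e1 : (β : ℂ) = c + 2 * ρ * u := by
    have : β = c + 2 * ρ * u := by rw [hu]; field_simp; ring
    exact_mod_cast this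
  have e2 : ((u : ℂ) + t * Complex.I) * (u + (-t : ℝ) * Complex.I) = 1 := by
    have : (t : ℂ) ^ 2 = 1 - u ^ 2 := by exact_mod_cast h2
    push_cast
    linear_combination this - (t : ℂ) ^ 2 * Complex.I_mul_I
  have e3 := congrArg (C (R := ℂ)) e2
  rw [e1]
  simp only [qq, map_add, map_mul, map_pow, map_C, map_X, map_one, Complex.coe_algebraMap,
    Complex.ofReal_neg, map_neg, map_ofNat] at e3 ⊢
  linear_combination (-C (ρ : ℂ) * X ^ 2) * e3

theorem short {y : ℤ⟦X⟧} {D : ℤ[X]} (hy : y * y = D) {c ρ : ℝ} (hρ : 0 < ρ) (hρ1 : ρ < 1)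
    (hc : |c| ≤ 2 * ρ)
    (hD : ∀ τ ∈ (D.map (algebraMap ℤ ℂ)).roots, ∃ β : ℝ, |β - c| ≤ 2 * ρ ∧ β * τ = 1)
    (hi : ∀ B P : ℤ[X], (B : ℤ⟦X⟧) * y = P → B = 0) : False := by
  set m := (D.map (algebraMap ℤ ℂ)).roots
  have hq : cx (qq c ρ) * cx (ph c ρ) = X := by rw [← map_mul, q_ph c hρ.ne', map_X]
  have h0 : Rt (cx (qq c ρ)) := by simpa using rt_quad (β := 0) hρ (by simpa using hc)
  have h1 : ∀ m : Multiset ℂ, (∀ τ ∈ m, ∃ β : ℝ, |β - c| ≤ 2 * ρ ∧ β * τ = 1) →
      Rt ((cx (qq c ρ) * cx (qq c ρ)) ^ m.card * (m.map fun τ => cx (ph c ρ) - C τ).prod) := by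
    intro m
    induction m using Multiset.induction_on with
    | empty => simpa using rt_C 1
    | cons τ m ih =>
      intro hm
      obtain ⟨β, b1, b2⟩ := hm τ (Multiset.mem_cons_self _ _)
      have b3 := congrArg (C (R := ℂ)) b2
      convert (((rt_C (-τ)).mul h0).mul (rt_quad hρ b1)).mul
        (ih fun τ h => hm τ (Multiset.mem_cons_of_mem h)) using 1
      rw [Multiset.map_cons, Multiset.prod_cons, Multiset.card_cons, pow_succ, map_neg]
      rw [map_mul, map_one] at b3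
      linear_combination ((cx (qq c ρ) * cx (qq c ρ)) ^ m.card *
        (m.map fun τ => cx (ph c ρ) - C τ).prod * cx (qq c ρ)) * (hq - X * b3)
  obtain ⟨r, hr, hs⟩ := (rt_C (D.map (algebraMap ℤ ℂ)).leadingCoeff).mul (h1 m hD)
  have h2 : cx (Ps ℤ c ρ y) * cx (Ps ℤ c ρ y) = C (D.map (algebraMap ℤ ℂ)).leadingCoeff *
      (m.map fun τ => cx (ph c ρ) - C τ).prod := by
    rw [← map_mul, ← map_mul, hy, Ps_coe]
    rw [Polynomial.map_aeval_eq_aeval_map (φ := algebraMap ℤ ℂ) (RingHom.ext_int _ _)]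
    conv_lhs => rw [(IsAlgClosed.splits (D.map (algebraMap ℤ ℂ))).eq_prod_roots]
    simp [map_multiset_prod, C_eq_algebraMap, m]
  have h3 : cx (qq c ρ ^ m.card * Ps ℤ c ρ y) * cx (qq c ρ ^ m.card * Ps ℤ c ρ y) = r * r := by
    rw [hr, map_mul, map_pow, mul_pow]
    linear_combination cx (qq c ρ) ^ m.card * cx (qq c ρ) ^ m.card * h2
  have h4 : Summable fun k => |coeff k (qq c ρ ^ m.card * Ps ℤ c ρ y)| := by
    rcases mul_self_eq_mul_self_iff.1 h3 with h | h
    · simpa [← h, -map_mul, -map_pow] using hs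
    · rw [← neg_eq_iff_eq_neg] at h
      simpa [← h, -map_mul, -map_pow] using hs
  refine dep2 ![1, y] c hρ hρ1 (qq c ρ ^ m.card) (by simp [qq_zero, hρ.ne']) (fun i => ?_)
    fun A hA => ?_
  · fin_cases i
    · refine summable_of_ne_finset_zero (s := ((Polynomial.C ρ + Polynomial.C c * Polynomial.X +
        Polynomial.C ρ * Polynomial.X ^ 2) ^ m.card).support) fun k hk => ?_
      have := Polynomial.notMem_support_iff.1 hk
      rw [← Polynomial.coeff_coe] at this
      simpa [qq] using this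
    · refine (h4.mul_left (∑' k, |coeff k (qq c ρ ^ m.card * Ps ℤ c ρ y)|)).of_nonneg_of_le
        (fun _ => sq_nonneg _) fun k => ?_
      rw [← sq_abs, sq]
      exact mul_le_mul_of_nonneg_right (h4.le_tsum k fun _ _ => abs_nonneg _) (abs_nonneg _)
  · simp only [Fin.sum_univ_two, Matrix.cons_val_zero, Matrix.cons_val_one, mul_one] at hA
    have a1 := hi (A 1) (-A 0) (by rw [Polynomial.coe_neg]; linear_combination hA)
    funext i
    fin_cases i
    · simpa [a1] using hA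
    · exact a1

theorem den_one {y : ℤ⟦X⟧} {D : ℤ[X]} (hy : y * y = D) (hD : (D.map (algebraMap ℤ ℚ)).Separable)
    {a : ℚ} (h0 : a ≠ 0) (ha : Polynomial.aeval a⁻¹ D = 0) : a.den = 1 := by
  obtain ⟨U, V, hUV⟩ := hD
  obtain ⟨u, hu, hU⟩ := IsLocalization.integerNormalization_spec (nonZeroDivisors ℤ) U
  obtain ⟨v, hv, hV⟩ := IsLocalization.integerNormalization_spec (nonZeroDivisors ℤ) V
  generalize IsLocalization.integerNormalization (nonZeroDivisors ℤ) U = U' at hU
  generalize IsLocalization.integerNormalization (nonZeroDivisors ℤ) V = V' at hV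
  have h1 : Polynomial.C v * U' * D + Polynomial.C u * V' * Polynomial.derivative D =
      Polynomial.C (u * v) := by
    apply Polynomial.map_injective (algebraMap ℤ ℚ) (RingHom.injective_int _)
    simp only [Polynomial.map_add, Polynomial.map_mul, hU, hV, ← Polynomial.derivative_map,
      zsmul_eq_mul, eq_intCast, Polynomial.map_intCast, Int.cast_mul]
    linear_combination (u * v : ℚ[X]) * hUV
  have h2 := congrArg (d⁄dX ℤ) hy
  rw [Derivation.leibniz, derivative_coe, smul_eq_mul] at h2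
  have h3 := congrArg (fun p : ℤ[X] => (p : ℤ⟦X⟧)) h1
  simp only [Polynomial.coe_add, Polynomial.coe_mul, Polynomial.coe_C] at h3
  have h4 : (C ((u * v) ^ 2) : ℤ⟦X⟧) =
      D * (C v * U' * y + C u * V' * (2 * d⁄dX ℤ y)) ^ 2 := by
    rw [map_pow, ← h3, ← h2, ← hy]
    ring
  have hn : a.num ≠ 0 := Rat.num_ne_zero.2 h0
  have h5 : Polynomial.aeval (a.den : ℤ) (D.scaleRoots a.num) = 0 := by
    have := Polynomial.scaleRoots_aeval_eq_zero_of_aeval_div_eq_zero (K := ℚ)
      (RingHom.injective_int _) (p := D) (r := a.den) (s := a.num)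
      (by rwa [eq_intCast, eq_intCast, ← inv_div, Int.cast_natCast, Rat.num_div_den]) (mem_nonZeroDivisors_of_ne_zero hn)
    rwa [Polynomial.aeval_algebraMap_apply, map_eq_zero_iff _ (RingHom.injective_int _)] at this
  have h6 : ∀ M : ℕ, ((a.den ^ M : ℕ) : ℤ) ∣ (u * v) ^ 2 := fun M => by
    obtain ⟨w, hw⟩ : IsUnit ((a.num : ℤ) : ZMod (a.den ^ M)) := by
      rw [ZMod.coe_int_isUnit_iff_isCoprime]
      push_cast
      exact a.isCoprime_num_den.symm.pow_left
    let τ : ZMod (a.den ^ M) := w⁻¹.val * a.den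
    have b1 : HasSubst (C τ : (ZMod (a.den ^ M))⟦X⟧) := by
      refine ⟨M, ?_⟩
      have : ((a.den : ZMod (a.den ^ M))) ^ M = 0 := by
        rw [← Nat.cast_pow, ZMod.natCast_self]
      show (constantCoeff (C τ)) ^ M = 0
      rw [constantCoeff_C, mul_pow, this, mul_zero]
    have b2 : Polynomial.aeval τ D = 0 := by
      have c1 := Polynomial.scaleRoots_eval₂_mul (p := D) (algebraMap ℤ (ZMod (a.den ^ M))) τ a.num
      have c2 : algebraMap ℤ (ZMod (a.den ^ M)) a.num * τ =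
          algebraMap ℤ (ZMod (a.den ^ M)) a.den := by
        simp [τ, ← hw]
      rw [c2, ← Polynomial.aeval_def, Polynomial.aeval_algebraMap_apply, h5, map_zero, eq_intCast,
        ← hw, ← Units.val_pow_eq_pow_val, eq_comm, Units.mul_right_eq_zero] at c1
      exact c1
    let Θ : ℤ⟦X⟧ →ₐ[ℤ] (ZMod (a.den ^ M))⟦X⟧ := substAlgHom b1
    have b4 : Θ D = 0 := by
      refine (substAlgHom_coe b1 D).trans ?_
      show Polynomial.aeval (algebraMap _ (ZMod (a.den ^ M))⟦X⟧ τ) D = 0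
      rw [Polynomial.aeval_algebraMap_apply, b2, map_zero]
    have b3 := congrArg Θ h4
    rw [map_mul Θ, b4, zero_mul, eq_intCast, map_intCast] at b3
    rw [← ZMod.intCast_zmod_eq_zero_iff_dvd]
    simpa using congrArg constantCoeff b3
  by_contra hne
  have h7 : 1 < a.den := lt_of_le_of_ne a.pos (Ne.symm hne)
  have h8 : (u * v) ^ 2 ≠ 0 :=
    pow_ne_zero _ (mul_ne_zero (nonZeroDivisors.ne_zero hu) (nonZeroDivisors.ne_zero hv))
  have h9 := Nat.le_of_dvd (Int.natAbs_pos.2 h8) (Int.natCast_dvd.1 (h6 ((u * v) ^ 2).natAbs))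
  exact absurd (Nat.lt_pow_self h7) h9.not_gt

end Pool.Agent.Lib.MP_1e748d_nt.B
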