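import Pool.Agent.Lib.MP_1e748d_nt.BAna
import Pool.Agent.Lib.MP_1e748d_nt.BSq

/-! No positive definite functional with integer moments lives on `[a, a+4]`, `a ∉ ℤ`. -/

open Polynomial
open scoped PowerSeries

namespace Pool.Agent.Lib.MP_1e748d_nt.B

lemma sqf (p : ℚ[X]) (hp : p ≠ 0) : ∃ e d : ℚ[X], p = e ^ 2 * d ∧ Squarefree d := by
  induction h : p.natDegree using Nat.strong_induction_on generalizing p with
  | _ n ih =>
    by_cases hs : Squarefree p
    · exact ⟨1, p, by ring, hs⟩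
    · obtain ⟨x, hx⟩ := not_forall.1 hs
      obtain ⟨⟨q, rfl⟩, hu⟩ := Classical.not_imp.1 hx
      have hx0 : x ≠ 0 := fun h => hp (by simp [h])
      have hq0 : q ≠ 0 := right_ne_zero_of_mul hp
      have h2 : 0 < x.natDegree :=
        natDegree_pos_iff_degree_pos.2 (degree_pos_of_ne_zero_of_nonunit hx0 hu)
      obtain ⟨e, d, rfl, hd⟩ := ih q.natDegree (by
        rw [← h, natDegree_mul (mul_ne_zero hx0 hx0) hq0, natDegree_mul hx0 hx0]; omega) q hq0 rfl
      exact ⟨x * e, d, by ring, hd⟩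

lemma sqf_int (p : ℤ[X]) (hp : p ≠ 0) : ∃ (b : ℤ) (E D : ℤ[X]), b ≠ 0 ∧
    C b ^ 2 * p = E ^ 2 * D ∧ (D.map (algebraMap ℤ ℚ)).Separable := by
  obtain ⟨e, d, h, hd⟩ := sqf (p.map (algebraMap ℤ ℚ))
    ((Polynomial.map_ne_zero_iff (RingHom.injective_int _)).2 hp)
  obtain ⟨u, hu, hU⟩ := IsLocalization.integerNormalization_spec (nonZeroDivisors ℤ) e
  obtain ⟨v, hv, hV⟩ := IsLocalization.integerNormalization_spec (nonZeroDivisors ℤ) d
  generalize IsLocalization.integerNormalization (nonZeroDivisors ℤ) e = E at hU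
  generalize IsLocalization.integerNormalization (nonZeroDivisors ℤ) d = D at hV
  have hu := nonZeroDivisors.ne_zero hu
  have hv := nonZeroDivisors.ne_zero hv
  refine ⟨u * v, E, C v * D, mul_ne_zero hu hv, ?_, ?_⟩
  · apply Polynomial.map_injective (algebraMap ℤ ℚ) (RingHom.injective_int _)
    simp only [Polynomial.map_pow, Polynomial.map_mul, hU, hV, h,
      zsmul_eq_mul, eq_intCast, Polynomial.map_intCast, Int.cast_mul]
    ring
  · rw [Polynomial.map_mul, hV, map_C, zsmul_eq_mul, ← C_eq_intCast, ← mul_assoc, ← C_mul]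
    exact (PerfectField.separable_iff_squarefree.2 hd).unit_mul
      (isUnit_C.2 (Ne.isUnit (by simp [hv])))

variable {a : ℝ} {s : ℕ → ℤ} {L : ℝ[X] →ₗ[ℝ] ℝ}

theorem Fn.root (F : Fn a s L) (ha : |a + 2| < 2) : ∃ (y : ℤ⟦X⟧) (D : ℤ[X]), y * y = D ∧
    (D.map (algebraMap ℤ ℚ)).Separable ∧ (∀ B P : ℤ[X], (B : ℤ⟦X⟧) * y = P → B = 0) ∧
    ∀ τ : ℂ, aeval τ D = 0 → τ ≠ 0 ∧ ∃ x ∈ Set.Icc a (a + 4), τ⁻¹ = x := by
  obtain ⟨A, hA, hA0⟩ := F.quad
  simp only [Fin.sum_univ_three, Fin.val_zero, Fin.val_one, Fin.val_two, pow_zero, pow_one,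
    mul_one] at hA
  have h2 : A 2 ≠ 0 := fun h => hA0 (by
    have h1 : A 1 = 0 := F.irr (P := -A 0) (by
      rw [h, Polynomial.coe_zero] at hA
      rw [Polynomial.coe_neg]
      linear_combination hA)
    funext i
    fin_cases i
    · simpa [h, h1] using hA
    · exact h1
    · exact h)
  have hΔ : A 1 ^ 2 - 4 * A 0 * A 2 ≠ 0 := fun h => h2 (by
    have h3 := congrArg (fun p : ℤ[X] => (p : ℤ⟦X⟧)) h
    have h4 : (((2 * A 2 : ℤ[X]) : ℤ⟦X⟧) * PowerSeries.mk s + A 1) ^ 2 = 0 := by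
      simp only [← coeToPowerSeries.ringHom_apply, map_sub, map_mul, map_pow, map_ofNat,
        map_zero] at h3 hA ⊢
      linear_combination h3 + 4 * coeToPowerSeries.ringHom (A 2) * hA
    have h5 := F.irr (B := 2 * A 2) (P := -A 1) (by
      rw [Polynomial.coe_neg]
      linear_combination pow_eq_zero_iff (two_ne_zero) |>.1 h4)
    simpa using h5)
  obtain ⟨b, E, D, hb, hE, hD⟩ := sqf_int _ hΔ
  have hE0 : E ^ 2 * D ≠ 0 := hE ▸ mul_ne_zero (pow_ne_zero _ (C_ne_zero.2 hb)) hΔ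
  have hE1 : E ≠ 0 := fun h => hE0 (by simp [h])
  have hG : (((C b * 2 * A 2 : ℤ[X]) : ℤ⟦X⟧) * PowerSeries.mk s + (C b * A 1 : ℤ[X])) ^ 2 =
      (E ^ 2 * D : ℤ[X]) := by
    rw [← hE]
    simp only [← coeToPowerSeries.ringHom_apply, map_sub, map_mul, map_pow, map_ofNat] at hA ⊢
    linear_combination 4 * coeToPowerSeries.ringHom (A 2) *
      coeToPowerSeries.ringHom (C b) ^ 2 * hA
  obtain ⟨y, hy⟩ : (E : ℤ⟦X⟧) ∣
      ((C b * 2 * A 2 : ℤ[X]) : ℤ⟦X⟧) * PowerSeries.mk s + (C b * A 1 : ℤ[X]) :=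
    (UniqueFactorizationMonoid.pow_dvd_pow_iff_dvd two_ne_zero).1
      ⟨D, by rw [hG, Polynomial.coe_mul, Polynomial.coe_pow]⟩
  have hE2 : (E : ℤ⟦X⟧) ≠ 0 := by simpa using hE1
  have hyy : y * y = D := by
    apply mul_left_cancel₀ (pow_ne_zero 2 hE2)
    rw [hy, Polynomial.coe_mul, Polynomial.coe_pow] at hG
    linear_combination hG
  have hDc : (D.map (algebraMap ℤ ℂ)).Separable := by
    simpa [Polynomial.map_map, RingHom.ext_int ((algebraMap ℚ ℂ).comp _) (algebraMap ℤ ℂ)] using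
      hD.map (f := algebraMap ℚ ℂ)
  refine ⟨y, D, hyy, hD, fun B P h => ?_, fun τ hτ => ?_⟩
  · have := F.irr (B := B * (C b * 2 * A 2)) (P := E * P - B * (C b * A 1)) (by
      simp only [← coeToPowerSeries.ringHom_apply, map_sub, map_mul] at hy h ⊢
      linear_combination coeToPowerSeries.ringHom B * hy + coeToPowerSeries.ringHom E * h)
    simpa [hb, h2] using this
  have h0 : τ ≠ 0 := by
    rintro rfl
    have a1 : D.coeff 0 = 0 := by simpa [coeff_zero_eq_eval_zero, aeval_def, eval₂_at_zero] using hτ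
    have a2 : PowerSeries.constantCoeff y = 0 := by
      simpa [a1] using congrArg PowerSeries.constantCoeff hyy
    obtain ⟨w, rfl⟩ := PowerSeries.X_dvd_iff.2 a2
    have a3 : D.coeff 1 = 0 := by
      rw [← Polynomial.coeff_coe, ← hyy, mul_assoc, PowerSeries.coeff_succ_X_mul]
      simp
    exact hD.eval₂_derivative_ne_zero (RingHom.id ℚ) (x := 0)
      (by simp [eval₂_at_zero, a1]) (by simp [eval₂_at_zero, coeff_derivative, a3])
  have b0 : E.map (algebraMap ℤ ℂ) ≠ 0 :=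
    (Polynomial.map_ne_zero_iff (RingHom.injective_int _)).2 hE1
  obtain ⟨E1, e1, e2⟩ := exists_eq_pow_rootMultiplicity_mul_and_not_dvd _ b0 τ
  obtain ⟨D1, d1⟩ := dvd_iff_isRoot.2 (show (D.map (algebraMap ℤ ℂ)).IsRoot τ by
    rwa [IsRoot, eval_map_algebraMap])
  have d2 : D1.eval τ ≠ 0 := fun h => hDc.eval₂_derivative_ne_zero (RingHom.id ℂ) (x := τ)
    (by rw [d1]; simp) (by rw [d1]; simp [h])
  obtain ⟨x, x1, x2⟩ := F.odd ha hG h0 (k := (E.map (algebraMap ℤ ℂ)).rootMultiplicity τ)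
    (Γ1 := E1 ^ 2 * D1) (fun t => by
      have c1 := congrArg (eval t) e1
      have c2 := congrArg (eval t) d1
      rw [eval_map_algebraMap] at c1 c2
      rw [map_mul, map_pow, c1, c2]
      simp
      ring) (by simpa [d2, dvd_iff_isRoot] using e2)
  exact ⟨h0, x, ⟨by linarith [(abs_le.1 x1).1], by linarith [(abs_le.1 x1).2]⟩, x2⟩

lemma rev (D : ℤ[X]) {z : ℂ} (hz : z ≠ 0) : aeval z D.reverse = 0 ↔ aeval z⁻¹ D = 0 := by
  let _ := invertibleOfNonzero (inv_ne_zero hz)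
  have := eval₂_reverse_eq_zero_iff (algebraMap ℤ ℂ) z⁻¹ D
  rwa [invOf_eq_inv, inv_inv] at this

theorem Fn.core0 (F : Fn a s L) (h1 : -4 < a) (h2 : a < 0) : ∃ n : ℤ, a = n := by
  classical
  obtain ⟨y, D, hy, hD, hi, hr⟩ := F.root (abs_lt.2 ⟨by linarith, by linarith⟩)
  have hD0 : D ≠ 0 := fun h => hD.ne_zero (by simp [h])
  let T : Finset ℝ := insert 0 ((D.map (algebraMap ℤ ℂ)).roots.toFinset.image fun τ => τ⁻¹.re)
  have hT : ∀ t ∈ T, t = 0 ∨ aeval (t : ℂ)⁻¹ D = 0 ∧ t ∈ Set.Icc a (a + 4) := fun t ht => by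
    rcases Finset.mem_insert.1 ht with h | h
    · exact Or.inl h
    obtain ⟨τ, t1, rfl⟩ := Finset.mem_image.1 h
    have t2 : aeval τ D = 0 := by
      rw [← eval_map_algebraMap]
      exact (mem_roots'.1 (Multiset.mem_toFinset.1 t1)).2
    obtain ⟨-, x, x1, x2⟩ := hr τ t2
    rw [x2, Complex.ofReal_re, ← x2, inv_inv]
    exact Or.inr ⟨t2, x1⟩
  obtain ⟨lo, l1, l2⟩ := T.exists_min_image id ⟨0, Finset.mem_insert_self _ _⟩
  obtain ⟨up, u1, u2⟩ := T.exists_max_image id ⟨0, Finset.mem_insert_self _ _⟩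
  have l3 : a ≤ lo := (hT lo l1).elim (fun h => by linarith) fun h => h.2.1
  have u3 : up ≤ a + 4 := (hT up u1).elim (fun h => by linarith) fun h => h.2.2
  have l0 : lo ≤ 0 := l2 0 (Finset.mem_insert_self _ _)
  have u0 : 0 ≤ up := u2 0 (Finset.mem_insert_self _ _)
  by_cases hs : up - lo < 4
  · refine (short hy (c := (lo + up) / 2) (ρ := (up - lo + 4) / 8) (by linarith) (by linarith)
      (abs_le.2 ⟨by linarith, by linarith⟩) (fun τ hτ => ?_) hi).elim
    have t2 : aeval τ D = 0 := by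
      rw [← eval_map_algebraMap]
      exact (mem_roots'.1 hτ).2
    obtain ⟨t3, x, x1, x2⟩ := hr τ t2
    have t4 : x ∈ T := Finset.mem_insert_of_mem (Finset.mem_image.2
      ⟨τ, Multiset.mem_toFinset.2 hτ, by rw [x2, Complex.ofReal_re]⟩)
    have t5 : lo ≤ x := l2 x t4
    have t6 : x ≤ up := u2 x t4
    exact ⟨x, abs_le.2 ⟨by linarith, by linarith⟩, by rw [← x2, inv_mul_cancel₀ t3]⟩
  have e1 : lo = a := by linarith
  have e2 : up = a + 4 := by linarith
  have a1 := ((hT lo l1).resolve_left (by linarith)).1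
  have a2 := ((hT up u1).resolve_left (by linarith)).1
  rw [← rev D (by exact_mod_cast (by linarith : lo ≠ 0)), e1] at a1
  rw [← rev D (by exact_mod_cast (by linarith : up ≠ 0)), e2] at a2
  have key : ∀ z : ℂ, aeval z D.reverse = 0 → ∃ x ∈ Set.Icc a (a + 4), z = x := fun z hz => by
    have z0 : z ≠ 0 := by
      rintro rfl
      exact hD0 (by simpa [aeval_def, eval₂_at_zero] using hz)
    simpa using (hr _ ((rev D z0).1 hz)).2
  have m1 : aeval (a : ℂ) (D.reverse.map (algebraMap ℤ ℚ)) = 0 := by rwa [aeval_map_algebraMap]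
  have m2 : aeval (a : ℂ) ((D.reverse.comp (X + 4)).map (algebraMap ℤ ℚ)) = 0 := by
    rw [aeval_map_algebraMap, aeval_comp]
    simpa [map_ofNat] using a2
  have hint : IsIntegral ℚ (a : ℂ) := IsAlgebraic.isIntegral ⟨_,
    (Polynomial.map_ne_zero_iff (RingHom.injective_int _)).2 (reverse_eq_zero.not.2 hD0), m1⟩
  have m3 : ∀ z ∈ (minpoly ℚ (a : ℂ)).aroots ℂ, z = a := fun z hz => by
    have z1 := (mem_aroots.1 hz).2
    have z2 := aeval_eq_zero_of_dvd_aeval_eq_zero (minpoly.dvd ℚ _ m1) z1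
    have z3 := aeval_eq_zero_of_dvd_aeval_eq_zero (minpoly.dvd ℚ _ m2) z1
    rw [aeval_map_algebraMap] at z2 z3
    rw [aeval_comp] at z3
    obtain ⟨x, x1, rfl⟩ := key z z2
    obtain ⟨x', x2, x3⟩ := key _ z3
    have : x + 4 = x' := by
      simp only [map_add, aeval_X, map_ofNat] at x3
      exact_mod_cast x3
    exact_mod_cast (by linarith [x1.1, x2.2] : x = a)
  have m4 : (minpoly ℚ (a : ℂ)).natDegree = 1 := by
    have n1 : ((minpoly ℚ (a : ℂ)).aroots ℂ).Nodup :=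
      nodup_roots (minpoly.irreducible hint).separable.map
    have n2 := Multiset.card_le_card (Multiset.le_iff_subset n1 |>.2
      (show (_ : Multiset ℂ) ⊆ {(a : ℂ)} from fun z hz => Multiset.mem_singleton.2 (m3 z hz)))
    rw [IsAlgClosed.card_aroots_eq_natDegree, Multiset.card_singleton] at n2
    exact le_antisymm n2 (minpoly.natDegree_pos hint)
  obtain ⟨q, hq⟩ := minpoly.natDegree_eq_one_iff.1 m4
  have hq' : (q : ℝ) = a := by exact_mod_cast (show ((q : ℝ) : ℂ) = a by simpa using hq)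
  have q0 : q ≠ 0 := by
    rintro rfl
    simp at hq'
    linarith
  have q1 := den_one hy hD q0 (by
    rw [rev D (by exact_mod_cast h2.ne), ← hq, ← map_inv₀, aeval_algebraMap_apply] at a1
    exact (map_eq_zero _).1 a1)
  exact ⟨q.num, by rw [← hq', ← Rat.coe_int_num_of_den_eq_one q1]; simp⟩

lemma int_val (h : ∀ k, L (X ^ k) = s k) (p : ℤ[X]) :
    ∃ n : ℤ, L (p.map (algebraMap ℤ ℝ)) = n := by
  induction p using Polynomial.induction_on' with
  | add p q hp hq =>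
    obtain ⟨n, hn⟩ := hp
    obtain ⟨m, hm⟩ := hq
    exact ⟨n + m, by rw [Polynomial.map_add, map_add, hn, hm, Int.cast_add]⟩
  | monomial k c =>
    exact ⟨c * s k, by rw [map_monomial, ← smul_X_eq_monomial, map_smul, h]; simp⟩

theorem Fn.core (F : Fn a s L) : ∃ n : ℤ, a = n := by
  set N : ℤ := ⌊a⌋ + 1
  choose s' hs using fun k : ℕ => int_val F.mom ((X - C N) ^ k)
  obtain ⟨n, hn⟩ := Fn.core0 (a := a - N) (s := s') (L := L ∘ₗ taylor (-N : ℝ))
    ⟨fun k => by simpa [taylor_X_pow, sub_eq_add_neg] using hs k,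
      fun p hp => F.pos _ fun y hy => by
        rw [taylor_eval]
        exact hp _ ⟨by linarith [hy.1], by linarith [hy.2]⟩,
      fun p hp => (taylor_eq_zero _ _).1 (F.dfn _ (by simpa [taylor_mul] using hp))⟩
    (by simp only [N]; push_cast; linarith [Int.floor_le a])
    (by simp only [N]; push_cast; linarith [Int.lt_floor_add_one a])
  exact ⟨n + N, by push_cast; linarith⟩

end Pool.Agent.Lib.MP_1e748d_nt.B
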