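import Pool.Agent.Lib.MP_1e748d_nt.BWin

/-! Linear dependence of integer series that are square summable after the change of variable. -/

open Finset PowerSeries
open scoped Polynomial

namespace Pool.Agent.Lib.MP_1e748d_nt.B

/-- square summable coefficients. -/
def Sq (v : ℝ⟦X⟧) : Prop := Summable fun k => coeff k v ^ 2

lemma Sq.bound {n : ℕ} {v : Fin n → ℝ⟦X⟧} (hv : ∀ i, Sq (v i)) :
    ∃ K : ℝ, 0 < K ∧ ∀ i (t : Finset ℕ), ∑ l ∈ t, coeff l (v i) ^ 2 ≤ K := by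
  have h0 : ∀ i, 0 ≤ ∑' l, coeff l (v i) ^ 2 := fun i => tsum_nonneg fun _ => sq_nonneg _
  refine ⟨∑ i, ∑' l, coeff l (v i) ^ 2 + 1, add_pos_of_nonneg_of_pos
    (sum_nonneg fun i _ => h0 i) one_pos, fun i t => ?_⟩
  have h1 := Summable.sum_le_tsum t (fun _ _ => sq_nonneg _) (hv i)
  have h2 := single_le_sum (fun i _ => h0 i) (mem_univ i)
  linarith

lemma Sq.tail {n : ℕ} {v : Fin n → ℝ⟦X⟧} (hv : ∀ i, Sq (v i)) {ε : ℝ} (hε : 0 < ε) :
    ∃ M : ℕ, ∀ i (t : Finset ℕ), (∀ l ∈ t, M ≤ l) → ∑ l ∈ t, coeff l (v i) ^ 2 ≤ ε := by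
  choose s hs using fun i => summable_iff_vanishing_norm.1 (hv i) ε hε
  refine ⟨(univ.biUnion s).sup id + 1, fun i t ht => ?_⟩
  refine (le_abs_self _).trans (hs i t (disjoint_left.2 fun l hl hl' => ?_)).le
  have h1 : l ≤ (univ.biUnion s).sup id :=
    le_sup (f := id) (mem_biUnion.2 ⟨i, mem_univ _, hl'⟩)
  have := ht l hl
  omega

theorem dep3 (g : Fin 3 → ℤ⟦X⟧) (c : ℝ) (h : ℝ⟦X⟧) (h0 : constantCoeff h ≠ 0)
    (hv : ∀ i, Sq (h * Ps ℤ c 1 (g i)))
    (hg : ∀ A : Fin 3 → ℤ[X], ∑ i, (A i : ℤ⟦X⟧) * g i = 0 → A = 0) : False := by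
  obtain ⟨K, hK, hb⟩ := Sq.bound hv
  set η := constantCoeff h
  have hη : 0 < η ^ 2 := by positivity
  set δ := min 1 ((η ^ 2) ^ 6 / (2 * (6 * K) ^ 6)) with hδ
  have hδ0 : 0 < δ := by positivity
  obtain ⟨M, hM⟩ := Sq.tail hv (mul_pos hK hδ0)
  obtain ⟨k, hk, hle⟩ := minor_win c g hg one_ne_zero h (2 * M + 1)
  simp only [one_pow, mul_one, div_one, prod_const, one_mul, card_univ, Fintype.card_prod,
    Fintype.card_fin] at hle
  have h1 : ∀ s, 2 * ∑ i, ∑ e ∈ range (2 * (2 * M + 1) + 2),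
      coeff (k s) (X ^ e * (h * Ps ℤ c 1 (g i))) ^ 2 ≤
        6 * K * if 5 * (M + 1) ≤ k s then δ else 1 := fun s => by
    have : ∀ i, ∑ e ∈ range (2 * (2 * M + 1) + 2),
        coeff (k s) (X ^ e * (h * Ps ℤ c 1 (g i))) ^ 2 ≤
          K * if 5 * (M + 1) ≤ k s then δ else 1 := fun i => by
      obtain ⟨t, ht, e⟩ := win_eq (h * Ps ℤ c 1 (g i)) (k s) (2 * (2 * M + 1) + 2)
      rw [e]
      split_ifs with hs
      · exact hM i t fun l hl => by have := ht l hl; omega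
      · rw [mul_one]
        exact hb i t
    rw [Fin.sum_univ_three]
    linarith [this 0, this 1, this 2]
  have h2 := hle.trans (prod_le_prod (fun s _ => by positivity) fun s _ => h1 s)
  rw [prod_mul_distrib, prod_ite, prod_const, prod_const, prod_const_one, mul_one] at h2
  have h3 : M + 1 ≤ #{s | 5 * (M + 1) ≤ k s} := by
    have a1 := card_filter_add_card_filter_not (s := univ) fun s => 5 * (M + 1) ≤ k s
    have a2 : #{s | ¬ 5 * (M + 1) ≤ k s} ≤ #(range (5 * (M + 1))) :=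
      card_le_card_of_injOn k (fun s hs => by simpa using hs) hk.injOn
    simp only [card_univ, Fintype.card_prod, Fintype.card_fin, card_range] at a1 a2
    omega
  have h4 := h2.trans (mul_le_mul_of_nonneg_left
    (pow_le_pow_of_le_one hδ0.le (min_le_left _ _) h3) (by positivity))
  simp only [card_univ, Fintype.card_prod, Fintype.card_fin] at h4
  rw [show 3 * (2 * M + 1 + 1) = 6 * (M + 1) by ring, pow_mul _ 6, pow_mul _ 6, ← mul_pow,
    pow_le_pow_iff_left₀ (by positivity) (by positivity) (Nat.succ_ne_zero M)] at h4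
  have h5 : δ ≤ (η ^ 2) ^ 6 / (2 * (6 * K) ^ 6) := min_le_right _ _
  rw [le_div_iff₀ (by positivity)] at h5
  have : 0 < (η ^ 2) ^ 6 := by positivity
  nlinarith

theorem dep2 (g : Fin 2 → ℤ⟦X⟧) (c : ℝ) {ρ : ℝ} (hρ : 0 < ρ) (hρ1 : ρ < 1) (h : ℝ⟦X⟧)
    (h0 : constantCoeff h ≠ 0) (hv : ∀ i, Sq (h * Ps ℤ c ρ (g i)))
    (hg : ∀ A : Fin 2 → ℤ[X], ∑ i, (A i : ℤ⟦X⟧) * g i = 0 → A = 0) : False := by
  obtain ⟨K, hK, hb⟩ := Sq.bound hv
  have hw := minor_win c g hg hρ.ne' h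
  set η := constantCoeff h
  have hη : 0 < η ^ 2 := by positivity
  obtain ⟨J, hJ⟩ := exists_pow_lt_of_lt_one (show 0 < η ^ 2 / (4 * K) by positivity) hρ1
  obtain ⟨k, hk, hle⟩ := hw J
  have h1 : ∀ s, 2 * ∑ i, ∑ e ∈ range (2 * J + 2),
      coeff (k s) (X ^ e * (h * Ps ℤ c ρ (g i))) ^ 2 ≤ 4 * K := fun s => by
    have : ∀ i, ∑ e ∈ range (2 * J + 2),
        coeff (k s) (X ^ e * (h * Ps ℤ c ρ (g i))) ^ 2 ≤ K := fun i => by
      obtain ⟨t, -, e⟩ := win_eq (h * Ps ℤ c ρ (g i)) (k s) (2 * J + 2)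
      exact e ▸ hb i t
    rw [Fin.sum_univ_two]
    linarith [this 0, this 1]
  have h2 := hle.trans (mul_le_mul_of_nonneg_left
    (prod_le_prod (fun s _ => by positivity) fun s _ => h1 s) (sq_nonneg _))
  have h3 : ∑ r : Fin 2 × Fin (J + 1), (J - r.2) = J * (J + 1) := by
    have := sum_range_id_mul_two (J + 1)
    rw [← sum_range_reflect, sum_range] at this
    simp only [Nat.add_sub_cancel] at this
    rw [Fintype.sum_prod_type, Fin.sum_univ_two]
    simp only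
    linarith
  have h4 : J * (2 * (J + 1)) ≤ ∑ s, k s := by
    have a1 := sum_range_le_sum (s := univ.image fun s => (k s : ℤ)) (c := 0) fun x hx => by
      obtain ⟨s, -, rfl⟩ := mem_image.1 hx
      positivity
    have a2 : Function.Injective fun s => (k s : ℤ) := fun s t hst => hk (by simpa using hst)
    rw [card_image_of_injective _ a2, sum_image a2.injOn] at a1
    simp only [card_univ, Fintype.card_prod, Fintype.card_fin, zero_add] at a1
    have a3 := sum_range_id_mul_two (2 * (J + 1))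
    have a4 : ∑ i ∈ range (2 * (J + 1)), i ≤ ∑ s, k s := by
      zify
      exact a1
    rw [show 2 * (J + 1) - 1 = 2 * J + 1 by omega] at a3
    nlinarith
  rw [prod_pow, prod_div_distrib, prod_const, prod_const, prod_pow_eq_pow_sum, prod_pow_eq_pow_sum,
    h3, card_univ, Fintype.card_prod, Fintype.card_fin, Fintype.card_fin, mul_pow, ← pow_mul ρ,
    mul_div_assoc, mul_pow] at h2
  have h5 : 1 ≤ ρ ^ (J * (2 * (J + 1))) / ρ ^ ∑ s, k s :=
    (one_le_div (by positivity)).2 (pow_le_pow_of_le_one hρ.le hρ1.le h4)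
  have h6 := (le_mul_of_one_le_right (sq_nonneg _) (one_le_pow₀ h5)).trans h2
  rw [← pow_mul η, mul_comm _ 2, pow_mul η, ← pow_mul ρ,
    show J * (J + 1) * 2 = J * (2 * (J + 1)) by ring, pow_mul ρ, ← mul_pow,
    pow_le_pow_iff_left₀ (by positivity) (by positivity) (by omega)] at h6
  rw [lt_div_iff₀ (by positivity)] at hJ
  linarith

end Pool.Agent.Lib.MP_1e748d_nt.B
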