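import Mathlib

/-! Determinant lemmas: Hadamard, a minimal non-vanishing minor of integer rows. -/

open Finset

namespace Pool.Agent.Lib.MP_1e748d_nt.B

theorem hadamard_fin {n : ℕ} (M : Matrix (Fin n) (Fin n) ℝ) :
    M.det ^ 2 ≤ ∏ s, ∑ r, M s r ^ 2 := by
  have : Fact (Module.finrank ℝ (EuclideanSpace ℝ (Fin n)) = n) := ⟨by simp⟩
  let b := EuclideanSpace.basisFun (Fin n) ℝ
  let v : Fin n → EuclideanSpace ℝ (Fin n) := fun s => WithLp.toLp 2 (M s)
  have h1 := b.toBasis.orientation.abs_volumeForm_apply_le v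
  rw [Orientation.volumeForm_robust' _ b, Module.Basis.det_apply] at h1
  have h2 : b.toBasis.toMatrix v = M.transpose := by
    ext i j
    simp [Module.Basis.toMatrix_apply, b, v]
  rw [h2, Matrix.det_transpose] at h1
  calc M.det ^ 2 = |M.det| ^ 2 := (sq_abs _).symm
    _ ≤ (∏ i, ‖v i‖) ^ 2 := pow_le_pow_left₀ (abs_nonneg _) h1 2
    _ = _ := by
      rw [← prod_pow]
      refine prod_congr rfl fun s _ => ?_
      rw [EuclideanSpace.real_norm_sq_eq]

theorem hadamard {ι : Type*} [Fintype ι] [DecidableEq ι] (M : Matrix ι ι ℝ) :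
    M.det ^ 2 ≤ ∏ s, ∑ r, M s r ^ 2 := by
  let e := (Fintype.equivFin ι).symm
  have h := hadamard_fin (M.submatrix e e)
  rw [Matrix.det_submatrix_equiv_self] at h
  refine h.trans (le_of_eq ?_)
  rw [← e.prod_comp]
  refine prod_congr rfl fun s _ => ?_
  rw [← e.sum_comp]
  rfl

theorem exists_minor {ι : Type*} [Fintype ι] [DecidableEq ι] (a : ι → ℕ → ℤ)
    (h : ∀ α : ι → ℤ, (∀ l, ∑ r, α r * a r l = 0) → α = 0) :
    ∃ k : ι → ℕ, (Matrix.of fun s r => a r (k s)).det ≠ 0 := by
  classical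
  let col : ℕ → ι → ℚ := fun l r => a r l
  have hs : Submodule.span ℚ (Set.range col) = ⊤ := by
    by_contra hne
    obtain ⟨f, hf, hle⟩ := Submodule.exists_le_ker_of_lt_top _ (lt_top_iff_ne_top.2 hne)
    obtain ⟨b, hb⟩ := IsLocalization.exist_integer_multiples_of_finite (nonZeroDivisors ℤ)
      (fun r : ι => f (Pi.single r 1))
    choose α hα using hb
    have h0 := h α fun l => by
      have h1 : f (col l) = 0 := hle (Submodule.subset_span ⟨l, rfl⟩)
      rw [LinearMap.pi_apply_eq_sum_univ] at h1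
      have h2 : ((∑ r, α r * a r l : ℤ) : ℚ) = (b : ℤ) * 0 := by
        rw [← h1, mul_sum]
        push_cast
        refine sum_congr rfl fun r _ => ?_
        have h3 := hα r
        simp only [eq_intCast, zsmul_eq_mul] at h3
        rw [h3]
        have : (fun j => if r = j then (1 : ℚ) else 0) = Pi.single r 1 := by
          funext j
          simp [Pi.single_apply, eq_comm]
        simp only [col, smul_eq_mul, this]
        ring
      exact_mod_cast h2.trans (mul_zero _)
    refine hf (LinearMap.pi_ext' fun r => LinearMap.ext_ring ?_)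
    have h3 := hα r
    rw [h0] at h3
    simpa using h3
  obtain ⟨b, hb, hsp, hli⟩ := exists_linearIndependent ℚ (Set.range col)
  have : Finite b := hli.finite
  have := Fintype.ofFinite b
  have hc : Fintype.card ι = Fintype.card b := by
    have := Module.finrank_eq_card_basis
      (Module.Basis.mk hli (by rw [Subtype.range_coe, hsp, hs]))
    simpa using this
  let e := Fintype.equivOfCardEq hc
  choose k hk using fun s => hb (e s).2
  refine ⟨k, fun h0 => ?_⟩
  have h1 : LinearIndependent ℚ (Matrix.of fun s r => col (k s) r).row := by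
    have e1 : (Matrix.of fun s r => col (k s) r).row = Subtype.val ∘ e := funext hk
    rw [e1]
    exact hli.comp e e.injective
  have h2 := (Matrix.isUnit_iff_isUnit_det _).1 (Matrix.linearIndependent_rows_iff_isUnit.1 h1)
  have h3 := (Int.castRingHom ℚ).map_det (Matrix.of fun s r => a r (k s))
  rw [h0, map_zero] at h3
  exact h2.ne_zero h3.symm

theorem minor_lower {ι : Type*} [Fintype ι] [DecidableEq ι] (a : ι → ℕ → ℤ)
    (h : ∀ α : ι → ℤ, (∀ l, ∑ r, α r * a r l = 0) → α = 0) (Φ : ℕ → ℕ → ℝ) :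
    ∃ k : ι → ℕ, Function.Injective k ∧ ∏ s, Φ (k s) (k s) ^ 2 ≤
      (Matrix.of fun s r => ∑ l ∈ range (k s + 1), (a r l : ℝ) * Φ l (k s)).det ^ 2 := by
  classical
  obtain ⟨k, hk, hmin⟩ : ∃ k : ι → ℕ, (Matrix.of fun s r => a r (k s)).det ≠ 0 ∧
      ∀ l : ι → ℕ, (Matrix.of fun s r => a r (l s)).det ≠ 0 → ∑ s, k s ≤ ∑ s, l s := by
    have hex : ∃ n, ∃ k : ι → ℕ, (Matrix.of fun s r => a r (k s)).det ≠ 0 ∧ ∑ s, k s = n := by
      obtain ⟨k, hk⟩ := exists_minor a h
      exact ⟨_, k, hk, rfl⟩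
    obtain ⟨k, hk, hn⟩ := Nat.find_spec hex
    exact ⟨k, hk, fun l hl => hn ▸ Nat.find_min' hex ⟨l, hl, rfl⟩⟩
  refine ⟨k, fun s t hst => ?_, ?_⟩
  · by_contra hne
    exact hk (Matrix.det_zero_of_row_eq hne (by funext r; simp [hst]))
  have hc : ∀ l : ι → ℕ, (Matrix.of fun s r => (a r (l s) : ℝ)).det =
      ((Matrix.of fun s r => a r (l s)).det : ℤ) := fun l =>
    ((Int.castRingHom ℝ).map_det (Matrix.of fun s r => a r (l s))).symm
  have e1 : (Matrix.of fun s r => ∑ l ∈ range (k s + 1), (a r l : ℝ) * Φ l (k s)).det =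
      (∏ s, Φ (k s) (k s)) * ((Matrix.of fun s r => a r (k s)).det : ℤ) := by
    have e2 : (Matrix.of fun s r => ∑ l ∈ range (k s + 1), (a r l : ℝ) * Φ l (k s)) =
        fun s => ∑ l ∈ range (k s + 1), Φ l (k s) • fun r => (a r l : ℝ) := by
      ext s r
      simp [mul_comm]
    have e3 : ∀ l : ι → ℕ, (Matrix.detRowAlternating (R := ℝ) (n := ι)).toMultilinearMap
        (fun s => Φ (l s) (k s) • fun r => (a r (l s) : ℝ)) =
        (∏ s, Φ (l s) (k s)) * ((Matrix.of fun s r => a r (l s)).det : ℤ) := fun l => by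
      rw [MultilinearMap.map_smul_univ, ← hc]
      rfl
    rw [e2]
    refine ((Matrix.detRowAlternating (R := ℝ) (n := ι)).toMultilinearMap.map_sum_finset
      (fun s l => Φ l (k s) • fun r => (a r l : ℝ)) fun s => range (k s + 1)).trans ?_
    rw [sum_eq_single k, e3]
    · intro l hl hne
      rw [e3]
      by_contra h0
      have h1 := hmin l fun h2 => h0 (by simp [h2])
      have h2 : ∀ s, l s ≤ k s := fun s => by
        have := Fintype.mem_piFinset.1 hl s
        rwa [mem_range, Nat.lt_succ_iff] at this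
      refine hne (funext fun s => ?_)
      exact (sum_eq_sum_iff_of_le fun s _ => h2 s).1
        (le_antisymm (sum_le_sum fun s _ => h2 s) h1) s (mem_univ s)
    · intro hn
      exact absurd (Fintype.mem_piFinset.2 fun s => self_mem_range_succ _) hn
  rw [e1, mul_pow, prod_pow]
  refine le_mul_of_one_le_right (sq_nonneg _) ?_
  have := Int.one_le_abs hk
  rw [← sq_abs]
  exact one_le_pow₀ (by exact_mod_cast this)

end Pool.Agent.Lib.MP_1e748d_nt.B
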