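import Pool.Agent.Lib.MP_1e748d_nt.BCore

/-! Measures of bounded mass with integer moments on `[a, a+4]`. -/

open Polynomial MeasureTheory Filter

namespace Pool.Agent.Lib.MP_1e748d_nt.B

theorem fin_supp {a : ℝ} (ha : ∀ n : ℤ, a ≠ n) (m : ℕ) : ∃ S : Finset ℝ, ∀ μ : Measure ℝ,
    μ Set.univ ≤ m → μ (Set.Icc a (a + 4))ᶜ = 0 → (∀ k : ℕ, ∃ n : ℤ, ∫ x, x ^ k ∂μ = n) →
      μ (↑S)ᶜ = 0 := by
  classical
  by_contra hn
  push Not at hn
  choose μ h1 h2 h3 h4 using hn
  have hf : ∀ S, IsFiniteMeasure (μ S) := fun S => ⟨(h1 S).trans_lt (ENNReal.natCast_lt_top m)⟩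
  have hae : ∀ S, ∀ᵐ x ∂μ S, x ∈ Set.Icc a (a + 4) := h2
  have hi : ∀ S (p : ℝ[X]), Integrable (fun x => p.eval x) (μ S) := fun S p => by
    rw [← Measure.restrict_eq_self_of_ae_mem (hae S)]
    exact p.continuous.continuousOn.integrableOn_Icc
  let U := Ultrafilter.of (atTop : Filter (Finset ℝ))
  have h5 : ∀ k : ℕ, ∃ n : ℤ, ∀ᶠ S in U, ∫ x, x ^ k ∂μ S = n := fun k => by
    obtain ⟨K, hK⟩ := exists_nat_ge ((|a| + 4) ^ k * m)
    obtain ⟨n, -, h⟩ := (Ultrafilter.eventually_exists_mem_iff (f := U)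
      (P := fun (n : ℤ) S => ∫ x, x ^ k ∂μ S = n)
      (Set.finite_Icc (-K : ℤ) K)).1 (Eventually.of_forall fun S => by
        obtain ⟨n, hn⟩ := h3 S k
        refine ⟨n, abs_le.1 ?_, hn⟩
        have b1 := norm_integral_le_of_norm_le_const (μ := μ S) (f := fun x : ℝ => x ^ k)
          (C := (|a| + 4) ^ k) ((hae S).mono fun x hx => by
            have b3 : |x| ≤ |a| + 4 :=
              abs_le.2 ⟨by linarith [hx.1, neg_abs_le a], by linarith [hx.2, le_abs_self a]⟩
            rw [Real.norm_eq_abs, abs_pow]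
            gcongr)
        have b2 : (μ S).real Set.univ ≤ m := ENNReal.toReal_le_of_le_ofReal m.cast_nonneg
          (by simpa using h1 S)
        rw [hn, Real.norm_eq_abs] at b1
        have b4 := (b1.trans (mul_le_mul_of_nonneg_left b2 (by positivity))).trans hK
        exact_mod_cast b4)
    exact ⟨n, h⟩
  choose s hs using h5
  let L : ℝ[X] →ₗ[ℝ] ℝ := (basisMonomials ℝ).constr ℝ fun k => (s k : ℝ)
  have hL : ∀ k, L (X ^ k) = s k := fun k => by
    rw [← monomial_one_right_eq_X_pow, ← congrFun (coe_basisMonomials ℝ) k]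
    exact Module.Basis.constr_basis _ _ _ _
  have h6 : ∀ q : ℝ[X], ∀ᶠ S in U, L q = ∫ x, q.eval x ∂μ S := fun q => by
    induction q using Polynomial.induction_on' with
    | add p q hp hq =>
      filter_upwards [hp, hq] with S t1 t2
      simp only [map_add, t1, t2, eval_add, integral_add (hi S p) (hi S q)]
    | monomial k c =>
      filter_upwards [hs k] with S t1
      rw [← smul_X_eq_monomial, map_smul, hL, ← t1]
      simp [integral_const_mul]
  obtain ⟨n, h⟩ := Fn.core (a := a) (s := s) (L := L) ⟨hL, fun q hq => by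
    obtain ⟨S, hS⟩ := (h6 q).exists
    exact hS ▸ integral_nonneg_of_ae ((hae S).mono hq), fun q hq => by
      by_contra h
      obtain ⟨S, p1, p2⟩ := ((h6 (q * q)).and
        (Ultrafilter.of_le _ (eventually_ge_atTop q.roots.toFinset))).exists
      have p3 := (integral_eq_zero_iff_of_nonneg (fun x => by
        simpa using mul_self_nonneg (q.eval x)) (hi S (q * q))).1 (p1.symm.trans hq)
      exact h4 S (show ∀ᵐ x ∂μ S, x ∈ (S : Set ℝ) from
        p3.mono fun x hx => p2 (by simpa [h] using hx))⟩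
  exact ha n h

end Pool.Agent.Lib.MP_1e748d_nt.B
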