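import Pool.Agent.Lib.MP_1e748d_nt.BDep

/-! A positive functional with integer moments has a quadratic generating series. -/

open Finset PowerSeries
open scoped Polynomial

namespace Pool.Agent.Lib.MP_1e748d_nt.B

/-- a positive definite functional on polynomials, carried by `[a, a+4]`, with moments `s`. -/
structure Fn (a : ℝ) (s : ℕ → ℤ) (L : ℝ[X] →ₗ[ℝ] ℝ) : Prop where
  mom : ∀ k, L (Polynomial.X ^ k) = s k
  pos : ∀ p : ℝ[X], (∀ y ∈ Set.Icc a (a + 4), 0 ≤ p.eval y) → 0 ≤ L p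
  dfn : ∀ p : ℝ[X], L (p * p) = 0 → p = 0

/-- truncated inner product. -/
noncomputable def ip (n : ℕ) (g h : ℝ⟦X⟧) : ℝ := ∑ k ∈ range n, coeff k g * coeff k h

lemma ip_key (d : ℝ) (w : ℝ⟦X⟧) (n : ℕ) :
    ip (n + 1) ((1 - C d * X + X ^ 2) * w) ((1 - X ^ 2) * w) =
      coeff n w ^ 2 + coeff n (X * w) ^ 2 - d * coeff n w * coeff n (X * w) := by
  have e1 : (1 - C d * X + X ^ 2) * w = w - C d * (X * w) + X * (X * w) := by ring
  have e2 : (1 - X ^ 2) * w = w - X * (X * w) := by ring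
  rw [e1, e2]
  induction n with
  | zero => simp [ip, sq]
  | succ n ih =>
    rw [ip, sum_range_succ, ← ip, ih]
    simp only [map_add, map_sub, coeff_C_mul, coeff_succ_X_mul]
    ring

lemma ip_quad {d : ℝ} (hd : |d| ≤ 2) (w : ℝ⟦X⟧) (n : ℕ) :
    0 ≤ ip n ((1 - C d * X + X ^ 2) * w) ((1 - X ^ 2) * w) := by
  cases n with
  | zero => simp [ip]
  | succ n =>
    rw [ip_key]
    obtain ⟨h1, h2⟩ := abs_le.1 hd
    nlinarith [mul_nonneg (sub_nonneg.2 h2) (sq_nonneg (coeff n w + coeff n (X * w))),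
      mul_nonneg (sub_nonneg.2 h1) (sq_nonneg (coeff n w - coeff n (X * w)))]

lemma qinv_le {c : ℝ} (hc : |c| < 2) : ∃ K : ℝ, ∀ k, |coeff k (qq c 1)⁻¹| ≤ K := by
  have h0 : 0 < 4 - c ^ 2 := by
    obtain ⟨h1, h2⟩ := abs_lt.1 hc
    nlinarith
  refine ⟨√(4 / (4 - c ^ 2)), fun k => Real.abs_le_sqrt ?_⟩
  have h1 := ip_key (-c) (qq c 1)⁻¹ k
  have e : (1 - C (-c) * X + X ^ 2 : ℝ⟦X⟧) = qq c 1 := by simp [qq]
  rw [e, PowerSeries.mul_inv_cancel _ (by simp [qq_zero])] at h1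
  have h2 : ip (k + 1) 1 ((1 - X ^ 2) * (qq c 1)⁻¹) = 1 := by simp [ip, coeff_one, qq_zero]
  rw [le_div_iff₀ h0]
  nlinarith [sq_nonneg (2 * coeff k (X * (qq c 1)⁻¹) + c * coeff k (qq c 1)⁻¹)]

/-- the Caratheodory series attached to a moment series. -/
noncomputable def CC {R : Type} [CommRing R] [Algebra R ℝ] (c : ℝ) (S : R⟦X⟧) : ℝ⟦X⟧ :=
  (1 - X ^ 2) * (qq c 1)⁻¹ * Ps R c 1 S

lemma q_CC {R : Type} [CommRing R] [Algebra R ℝ] (c : ℝ) (S : R⟦X⟧) :
    qq c 1 * CC c S = (1 - X ^ 2) * Ps R c 1 S := by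
  have := PowerSeries.mul_inv_cancel (qq c 1) (by simp [qq_zero])
  rw [CC]
  linear_combination (1 - X ^ 2) * Ps R c 1 S * this

lemma ip_CC {R : Type} [CommRing R] [Algebra R ℝ] (c : ℝ) (S : R⟦X⟧) (n : ℕ) (g : ℝ⟦X⟧) :
    ip n g (g * CC c S) = ∑ l ∈ range n, algebraMap R ℝ (coeff l S) *
      ip n g (g * ((1 - X ^ 2) * (qq c 1)⁻¹) * ph c 1 ^ l) := by
  simp only [ip, mul_sum]
  rw [sum_comm]
  refine sum_congr rfl fun k hk => ?_
  rw [CC, ← mul_assoc, coef c 1 _ S (mem_range.1 hk), mul_sum]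
  exact sum_congr rfl fun l _ => by ring

lemma ip_point {c y : ℝ} (hy : |y - c| ≤ 2) (n : ℕ) (g : ℝ⟦X⟧) :
    0 ≤ ip n g (g * CC c (mk fun k => y ^ k)) := by
  have h1 : (mk fun k => y ^ k) * (1 - y • X) = 1 := by
    ext k
    cases k with
    | zero => simp
    | succ k => simp [mul_sub, coeff_succ_mul_X, coeff_one, pow_succ, mul_comm y]
  have h2 := congrArg (Ps ℝ c 1) h1
  rw [map_mul, map_sub, map_one, map_smul, Ps_X, smul_eq_C_mul] at h2
  have h3 := PowerSeries.mul_inv_cancel (1 - C (y - c) * X + X ^ 2 : ℝ⟦X⟧) (by simp)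
  have h4 := PowerSeries.mul_inv_cancel (qq c 1) (by simp [qq_zero])
  have h5 := ip_quad hy (g * (1 - C (y - c) * X + X ^ 2)⁻¹) n
  have e : qq c 1 = 1 + C c * X + X ^ 2 := by simp [qq]
  have e' : ph c 1 = X * (qq c 1)⁻¹ := rfl
  convert h5 using 2
  · linear_combination (-g) * h3
  · rw [CC]
    generalize (1 - C (y - c) * X + X ^ 2 : ℝ⟦X⟧)⁻¹ = Q at *
    generalize (qq c 1)⁻¹ = q' at *
    generalize Ps ℝ c 1 (mk fun k => y ^ k) = P at *
    rw [map_sub] at h3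
    linear_combination (1 - X ^ 2) * g * Q * h2 - (1 - X ^ 2) * g * q' * P * h3 +
      (1 - X ^ 2) * g * Q * P * h4 - (1 - X ^ 2) * g * Q * P * q' * e +
      (1 - X ^ 2) * g * Q * P * C y * e'

lemma Sq_poly (p : ℝ[X]) : Sq p :=
  summable_of_ne_finset_zero (s := p.support) fun k hk => by
    simp [Polynomial.notMem_support_iff.1 hk]

variable {a : ℝ} {s : ℕ → ℤ} {L : ℝ[X] →ₗ[ℝ] ℝ}

lemma Fn.ip_pos (F : Fn a s L) (n : ℕ) (g : ℝ⟦X⟧) : 0 ≤ ip n g (g * CC (a + 2) (PowerSeries.mk s)) := by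
  have := F.pos (∑ l ∈ range n,
    ip n g (g * ((1 - X ^ 2) * (qq (a + 2) 1)⁻¹) * ph (a + 2) 1 ^ l) • Polynomial.X ^ l)
    fun y hy => by
      have h := ip_point (c := a + 2) (y := y) (abs_le.2 ⟨by linarith [hy.1], by linarith [hy.2]⟩)
        n g
      rw [ip_CC] at h
      simpa [Polynomial.eval_finsetSum, mul_comm] using h
  rw [ip_CC]
  simpa [F.mom, mul_comm] using this

lemma Fn.CC_zero (F : Fn a s L) : 0 ≤ constantCoeff (CC (a + 2) (PowerSeries.mk s)) := by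
  simpa [ip] using F.ip_pos 1 1

lemma Fn.CC_le (F : Fn a s L) (k : ℕ) :
    |coeff k (CC (a + 2) (PowerSeries.mk s))| ≤ 2 * constantCoeff (CC (a + 2) (PowerSeries.mk s)) := by
  have h0 := F.CC_zero
  cases k with
  | zero => rw [coeff_zero_eq_constantCoeff, abs_of_nonneg h0]; linarith
  | succ k =>
    have h1 := F.ip_pos (k + 2) (1 + X ^ (k + 1))
    have h2 := F.ip_pos (k + 2) (1 - X ^ (k + 1))
    generalize CC (a + 2) (PowerSeries.mk s) = w at *
    simp [ip, coeff_one, coeff_X_pow, add_mul, sub_mul, sum_add_distrib, coeff_X_pow_mul'] at h1 h2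
    exact abs_le.2 ⟨by linarith, by linarith⟩

lemma Fn.contr (F : Fn a s L) {w : ℝ⟦X⟧} (hw : Sq w) :
    Sq ((1 + CC (a + 2) (PowerSeries.mk s))⁻¹ * w) ∧
      Sq ((1 + CC (a + 2) (PowerSeries.mk s))⁻¹ * w * CC (a + 2) (PowerSeries.mk s)) := by
  have h0 := F.CC_zero
  have h1 := PowerSeries.mul_inv_cancel (1 + CC (a + 2) (PowerSeries.mk s)) (by simp; linarith)
  have h2 := fun n => F.ip_pos n ((1 + CC (a + 2) (PowerSeries.mk s))⁻¹ * w)
  set g := (1 + CC (a + 2) (PowerSeries.mk s))⁻¹ * w with hg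
  have h3 : w = g + g * CC (a + 2) (PowerSeries.mk s) := by
    rw [hg]
    linear_combination (-w) * h1
  have h4 : ∀ n, ∑ k ∈ range n, coeff k g ^ 2 +
      ∑ k ∈ range n, coeff k (g * CC (a + 2) (PowerSeries.mk s)) ^ 2 ≤ ∑' k, coeff k w ^ 2 := fun n => by
    refine le_trans ?_ (Summable.sum_le_tsum (range n) (fun _ _ => sq_nonneg _) hw)
    refine (le_add_of_nonneg_right (mul_nonneg zero_le_two (h2 n))).trans (le_of_eq ?_)
    rw [ip, mul_sum, ← sum_add_distrib, ← sum_add_distrib]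
    refine sum_congr rfl fun k _ => ?_
    rw [congrArg (coeff k) h3, map_add]
    ring
  exact ⟨summable_of_sum_range_le (fun _ => sq_nonneg _) fun n =>
      (le_add_of_nonneg_right (sum_nonneg fun _ _ => sq_nonneg _)).trans (h4 n),
    summable_of_sum_range_le (fun _ => sq_nonneg _) fun n =>
      (le_add_of_nonneg_left (sum_nonneg fun _ _ => sq_nonneg _)).trans (h4 n)⟩

/-- `qq` as a polynomial. -/
noncomputable def qp (c ρ : ℝ) : ℝ[X] :=
  Polynomial.C ρ + Polynomial.C c * Polynomial.X + Polynomial.C ρ * Polynomial.X ^ 2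

lemma qp_coe (c ρ : ℝ) : (qp c ρ : ℝ⟦X⟧) = qq c ρ := by simp [qp, qq]

theorem Fn.quad (F : Fn a s L) :
    ∃ A : Fin 3 → ℤ[X], ∑ i, (A i : ℤ⟦X⟧) * PowerSeries.mk s ^ (i : ℕ) = 0 ∧ A ≠ 0 := by
  by_contra hn
  push Not at hn
  have h0 := F.CC_zero
  have e := q_CC (a + 2) (PowerSeries.mk s)
  refine dep3 _ (a + 2) ((1 + CC (a + 2) (PowerSeries.mk s))⁻¹ ^ 2 * (1 - X ^ 2) ^ 2) (by simp; linarith)
    (fun i => ?_) hn
  fin_cases i
  · have := (F.contr (F.contr (Sq_poly ((1 - Polynomial.X ^ 2) ^ 2))).1).1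
    convert this using 1
    simp
    ring
  · have := (F.contr (F.contr (Sq_poly ((1 - Polynomial.X ^ 2) * qp (a + 2) 1))).2).1
    convert this using 1
    simp [qp_coe]
    linear_combination (-(1 + CC (a + 2) (PowerSeries.mk s))⁻¹ ^ 2 * (1 - X ^ 2)) * e
  · have := (F.contr (F.contr (Sq_poly (qp (a + 2) 1 ^ 2))).2).2
    convert this using 1
    simp [qp_coe]
    linear_combination (-(1 + CC (a + 2) (PowerSeries.mk s))⁻¹ ^ 2 *
      (qq (a + 2) 1 * CC (a + 2) (PowerSeries.mk s) + (1 - X ^ 2) * Ps ℤ (a + 2) 1 (PowerSeries.mk s))) * e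

theorem Fn.irr (F : Fn a s L) {B P : ℤ[X]} (h : (B : ℤ⟦X⟧) * PowerSeries.mk s = P) : B = 0 := by
  set N := B.natDegree
  let p : ℝ[X] := ∑ l ∈ range (N + 1), (B.coeff l : ℝ) • Polynomial.X ^ (N - l)
  have h1 : ∀ m, L (Polynomial.X ^ (P.natDegree + 1) * p * Polynomial.X ^ m) = 0 := fun m => by
    have a1 := congrArg (coeff (P.natDegree + 1 + N + m)) h
    rw [Polynomial.coeff_coe, Polynomial.coeff_eq_zero_of_natDegree_lt (by omega),
      B.as_sum_range_C_mul_X_pow, ← Polynomial.coeToPowerSeries.ringHom_apply, map_sum, sum_mul,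
      map_sum] at a1
    rw [mul_sum, sum_mul, map_sum, ← Int.cast_zero, ← a1, Int.cast_sum]
    refine sum_congr rfl fun l hl => ?_
    have hl' : l ≤ N := Nat.lt_succ_iff.1 (mem_range.1 hl)
    rw [mul_smul_comm, smul_mul_assoc, map_smul, ← pow_add, ← pow_add, F.mom]
    simp only [Polynomial.coeToPowerSeries.ringHom_apply, Polynomial.coe_mul, Polynomial.coe_C,
      Polynomial.coe_pow, Polynomial.coe_X, mul_assoc, coeff_C_mul, coeff_X_pow_mul', coeff_mk]
    rw [if_pos (by omega), show P.natDegree + 1 + (N - l) + m = P.natDegree + 1 + N + m - l by omega]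
    simp
  have h2 : ∀ r : ℝ[X], L (Polynomial.X ^ (P.natDegree + 1) * p * r) = 0 := fun r => by
    induction r using Polynomial.induction_on' with
    | add r r' hr hr' => rw [mul_add, map_add, hr, hr', add_zero]
    | monomial m b =>
      rw [← Polynomial.smul_X_eq_monomial, mul_smul_comm, map_smul, h1, smul_zero]
  have h3 : p = 0 := by simpa using F.dfn _ (h2 _)
  have h4 : p.coeff 0 = (B.coeff N : ℝ) := by
    rw [Polynomial.finsetSum_coeff, sum_eq_single N] <;> simp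
    intro l hl hne h0
    omega
  rw [h3, Polynomial.coeff_zero] at h4
  exact Polynomial.leadingCoeff_eq_zero.1 (Int.cast_eq_zero.1 h4.symm)

end Pool.Agent.Lib.MP_1e748d_nt.B
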