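import Pool.Agent.Lib.MP_1e748d_nt.BDet

/-! The change of variable `1/t = c + ρ (z + 1/z)` and the window bound for integer series. -/

open Finset PowerSeries
open scoped Polynomial Kronecker

namespace Pool.Agent.Lib.MP_1e748d_nt.B

/-- `z` times `c + ρ (z + 1/z)`. -/
noncomputable def qq (c ρ : ℝ) : ℝ⟦X⟧ := C ρ + C c * X + C ρ * X ^ 2

/-- the series `z / qq`. -/
noncomputable def ph (c ρ : ℝ) : ℝ⟦X⟧ := X * (qq c ρ)⁻¹

lemma qq_zero (c ρ : ℝ) : constantCoeff (qq c ρ) = ρ := by simp [qq]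

lemma q_ph (c : ℝ) {ρ : ℝ} (hρ : ρ ≠ 0) : qq c ρ * ph c ρ = X := by
  rw [ph, mul_left_comm, PowerSeries.mul_inv_cancel _ (by rwa [qq_zero]), mul_one]

/-- substitution of `ph`. -/
noncomputable def Ps (R : Type) [CommRing R] [Algebra R ℝ] (c ρ : ℝ) : R⟦X⟧ →ₐ[R] ℝ⟦X⟧ :=
  substAlgHom (HasSubst.of_constantCoeff_zero' (a := ph c ρ) (by simp [ph]))

variable {R : Type} [CommRing R] [Algebra R ℝ] (c ρ : ℝ)

lemma Ps_coe (p : R[X]) : Ps R c ρ p = Polynomial.aeval (ph c ρ) p := substAlgHom_coe _ p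

lemma Ps_X : Ps R c ρ X = ph c ρ := substAlgHom_X _

lemma coef (H : ℝ⟦X⟧) (g : R⟦X⟧) {k n : ℕ} (h : k < n) :
    coeff k (H * Ps R c ρ g) =
      ∑ l ∈ range n, algebraMap R ℝ (coeff l g) * coeff k (H * ph c ρ ^ l) := by
  conv_lhs => rw [eq_X_pow_mul_shift_add_trunc n g]
  rw [map_add, map_mul (Ps R c ρ), map_pow, Ps_X, Ps_coe, Polynomial.aeval_def, eval₂_trunc_eq_sum_range,
    mul_add, map_add, mul_sum, map_sum]
  have h0 : coeff k (H * (ph c ρ ^ n * Ps R c ρ (mk fun i => coeff (i + n) g))) = 0 := by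
    refine X_pow_dvd_iff.1 ?_ k h
    rw [ph, mul_pow]
    exact ((dvd_mul_right _ _).mul_right _).mul_left _
  rw [h0, zero_add]
  refine sum_congr rfl fun l _ => ?_
  rw [mul_left_comm, IsScalarTower.algebraMap_apply R ℝ ℝ⟦X⟧, ← C_eq_algebraMap, coeff_C_mul]

lemma coef_diag (H : ℝ⟦X⟧) (k : ℕ) :
    coeff k (H * ph c ρ ^ k) = constantCoeff H / ρ ^ k := by
  rw [ph, mul_pow, mul_left_comm]
  have := coeff_X_pow_mul (H * (qq c ρ)⁻¹ ^ k) k 0
  rw [zero_add] at this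
  rw [this]
  simp [qq_zero, div_eq_mul_inv]

lemma cheb {ρ : ℝ} (hρ : ρ ≠ 0) (j : ℕ) : ∃ σ : ℝ[X], σ.natDegree ≤ j ∧ σ.coeff 0 = 1 ∧
    (1 + X) * qq c ρ ^ j * Polynomial.aeval (ph c ρ) σ = C ρ ^ j * (1 + X ^ (2 * j + 1)) := by
  have hq := q_ph c hρ
  induction j using Nat.twoStepInduction with
  | zero => exact ⟨1, by simp, by simp, by simp⟩
  | one =>
    refine ⟨1 - Polynomial.C (c + ρ) * Polynomial.X, by compute_degree, by simp, ?_⟩
    simp only [map_sub, map_one, map_mul, Polynomial.aeval_C, Polynomial.aeval_X,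
      ← C_eq_algebraMap, map_add]
    have e : qq c ρ = C ρ + C c * X + C ρ * X ^ 2 := rfl
    linear_combination (-(1 + X) * (C c + C ρ)) * hq + (1 + X) * e
  | more j ih1 ih2 =>
    obtain ⟨σ, h1, h2, h3⟩ := ih1
    obtain ⟨τ, h4, h5, h6⟩ := ih2
    refine ⟨τ - Polynomial.C c * (Polynomial.X * τ) -
      Polynomial.C (ρ ^ 2) * (Polynomial.X ^ 2 * σ), ?_, by simp [h5], ?_⟩
    · compute_degree
      all_goals omega
    · simp only [map_sub, map_mul, map_pow, Polynomial.aeval_C, Polynomial.aeval_X,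
        ← C_eq_algebraMap]
      generalize Polynomial.aeval (ph c ρ) σ = s at *
      generalize Polynomial.aeval (ph c ρ) τ = t at *
      have e : qq c ρ = C ρ + C c * X + C ρ * X ^ 2 := rfl
      linear_combination (qq c ρ - C c * X) * h6 - C ρ ^ 2 * X ^ 2 * h3 -
        (C c * (1 + X) * qq c ρ ^ (j + 1) * t +
          C ρ ^ 2 * (1 + X) * qq c ρ ^ j * s * (qq c ρ * ph c ρ + X)) * hq +
        C ρ ^ (j + 1) * (1 + X ^ (2 * (j + 1) + 1)) * e

theorem minor_win {n : ℕ} (g : Fin n → ℤ⟦X⟧)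
    (hg : ∀ A : Fin n → ℤ[X], ∑ i, (A i : ℤ⟦X⟧) * g i = 0 → A = 0) {ρ : ℝ} (hρ : ρ ≠ 0)
    (h : ℝ⟦X⟧) (J : ℕ) :
    ∃ k : Fin n × Fin (J + 1) → ℕ, Function.Injective k ∧
      ∏ s, (constantCoeff h * ρ ^ J / ρ ^ k s) ^ 2 ≤
        (∏ r : Fin n × Fin (J + 1), ρ ^ (J - r.2)) ^ 2 *
        ∏ s, (2 * ∑ i, ∑ e ∈ range (2 * J + 2), coeff (k s) (X ^ e * (h * Ps ℤ c ρ (g i))) ^ 2) := by
  classical
  set H : ℝ⟦X⟧ := (1 + X) * qq c ρ ^ J * h with hH
  obtain ⟨k, hk, hle⟩ := minor_lower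
    (fun (r : Fin n × Fin (J + 1)) l => coeff l (X ^ (r.2 : ℕ) * g r.1)) (fun α hα => by
      have h1 := hg (fun i => ∑ j : Fin (J + 1), Polynomial.monomial j (α (i, j))) (by
        ext l
        rw [map_zero, ← hα l, Fintype.sum_prod_type, map_sum]
        refine sum_congr rfl fun i _ => ?_
        rw [← Polynomial.coeToPowerSeries.ringHom_apply, map_sum, sum_mul, map_sum]
        refine sum_congr rfl fun j _ => ?_
        rw [Polynomial.coeToPowerSeries.ringHom_apply, Polynomial.coe_monomial,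
          monomial_eq_C_mul_X_pow, mul_assoc, coeff_C_mul])
      funext ⟨i, j⟩
      have h2 := congrArg (fun p : ℤ[X] => p.coeff j) (congrFun h1 i)
      simpa [Polynomial.coeff_monomial, Fin.val_inj] using h2)
    (fun l k => coeff k (H * ph c ρ ^ l))
  refine ⟨k, hk, ?_⟩
  choose σ h1 h2 h3 using cheb c hρ
  set M : Matrix (Fin n × Fin (J + 1)) (Fin n × Fin (J + 1)) ℝ :=
    Matrix.of fun s r => coeff (k s) (H * (ph c ρ ^ (r.2 : ℕ) * Ps ℤ c ρ (g r.1))) with hM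
  have e1 : (Matrix.of fun (s r : Fin n × Fin (J + 1)) => ∑ l ∈ range (k s + 1),
      ((coeff l (X ^ (r.2 : ℕ) * g r.1) : ℤ) : ℝ) * coeff (k s) (H * ph c ρ ^ l)) = M := by
    ext s r
    have := coef c ρ H (X ^ (r.2 : ℕ) * g r.1) (Nat.lt_succ_self (k s))
    rw [map_mul (Ps ℤ c ρ), map_pow, Ps_X] at this
    exact this.symm
  let T : Matrix (Fin (J + 1)) (Fin (J + 1)) ℝ :=
    Matrix.of fun j r => (Polynomial.X ^ (r : ℕ) * σ (J - r)).coeff j
  have hT : T.det = 1 := by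
    rw [Matrix.det_of_isLowerTriangular T fun j r hjr => by
      have : j < r := hjr
      simp [T, Polynomial.coeff_X_pow_mul', this.not_ge]]
    simp [T, Polynomial.coeff_X_pow_mul', h2]
  let B : Matrix (Fin n × Fin (J + 1)) (Fin n × Fin (J + 1)) ℝ := Matrix.of fun s r =>
    coeff (k s) (X ^ (r.2 : ℕ) * (h * Ps ℤ c ρ (g r.1))) +
      coeff (k s) (X ^ (J + 1 + (J - r.2)) * (h * Ps ℤ c ρ (g r.1)))
  have e2 : M * ((1 : Matrix (Fin n) (Fin n) ℝ) ⊗ₖ T) =
      B * Matrix.diagonal fun r => ρ ^ (J - r.2) := by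
    ext s ⟨i, r⟩
    have hr : (r : ℕ) ≤ J := Nat.lt_succ_iff.1 r.2
    have hd : (Polynomial.X ^ (r : ℕ) * σ (J - r)).natDegree < J + 1 := by
      have := h1 (J - r)
      refine lt_of_le_of_lt Polynomial.natDegree_mul_le ?_
      rw [Polynomial.natDegree_X_pow]
      omega
    have a1 := Polynomial.aeval_eq_sum_range' hd (ph c ρ)
    have a2 : H * (Polynomial.aeval (ph c ρ) (Polynomial.X ^ (r : ℕ) * σ (J - r)) *
        Ps ℤ c ρ (g i)) = C (ρ ^ (J - r)) * (X ^ (r : ℕ) * (h * Ps ℤ c ρ (g i)) +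
          X ^ (J + 1 + (J - r)) * (h * Ps ℤ c ρ (g i))) := by
      have b1 : qq c ρ ^ J = qq c ρ ^ (J - r) * qq c ρ ^ (r : ℕ) := by
        rw [← pow_add, Nat.sub_add_cancel hr]
      have b2 : J + 1 + (J - r) = r + (2 * (J - r) + 1) := by omega
      have b3 : qq c ρ ^ (r : ℕ) * ph c ρ ^ (r : ℕ) = X ^ (r : ℕ) := by rw [← mul_pow, q_ph c hρ]
      rw [map_mul, map_pow, Polynomial.aeval_X, hH, b1, b2, pow_add X (r : ℕ), map_pow]
      linear_combination (h * Ps ℤ c ρ (g i) * X ^ (r : ℕ)) * h3 (J - r) +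
        ((1 + X) * qq c ρ ^ (J - r) * h * Polynomial.aeval (ph c ρ) (σ (J - r)) *
          Ps ℤ c ρ (g i)) * b3
    rw [Matrix.mul_diagonal, Matrix.mul_apply, Fintype.sum_prod_type, sum_eq_single i]
    · have a3 := congrArg (coeff (k s)) a2
      rw [coeff_C_mul, map_add, a1, sum_mul, mul_sum, map_sum, sum_range] at a3
      rw [mul_comm (B _ _)]
      refine Eq.trans (sum_congr rfl fun j _ => ?_) a3
      simp [hM, T, mul_comm]
    · intro i' _ hi
      simp [hi]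
    · simp
  have e3 := congrArg Matrix.det e2
  rw [Matrix.det_mul, Matrix.det_mul, Matrix.det_kronecker, hT, Matrix.det_diagonal] at e3
  simp only [Matrix.det_one, one_pow, mul_one] at e3
  rw [e1, e3, mul_pow, mul_comm] at hle
  refine le_trans (le_of_eq (prod_congr rfl fun s _ => ?_))
    (hle.trans (mul_le_mul_of_nonneg_left ((hadamard B).trans ?_) (sq_nonneg _)))
  · rw [coef_diag]
    simp [hH, qq_zero, mul_comm]
  refine prod_le_prod (fun s _ => sum_nonneg fun _ _ => sq_nonneg _) fun s _ => ?_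
  rw [Fintype.sum_prod_type, mul_sum]
  refine sum_le_sum fun i _ => ?_
  rw [show 2 * J + 2 = J + 1 + (J + 1) by ring, sum_range_add,
    ← sum_range_reflect (fun x => coeff (k s) (X ^ (J + 1 + x) * (h * Ps ℤ c ρ (g i))) ^ 2),
    ← sum_add_distrib, mul_sum, sum_range]
  refine sum_le_sum fun r _ => ?_
  simp only [B, Matrix.of_apply, Nat.add_sub_cancel]
  exact add_sq_le

lemma win_eq (v : ℝ⟦X⟧) (k E : ℕ) : ∃ t : Finset ℕ, (∀ l ∈ t, k < l + E) ∧
    ∑ e ∈ range E, coeff k (X ^ e * v) ^ 2 = ∑ l ∈ t, coeff l v ^ 2 := by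
  refine ⟨((range E).filter (· ≤ k)).image (k - ·), fun l hl => ?_, ?_⟩
  · obtain ⟨e, he, rfl⟩ := mem_image.1 hl
    have := mem_filter.1 he
    have := mem_range.1 this.1
    omega
  · rw [sum_image, sum_filter]
    · refine sum_congr rfl fun e _ => ?_
      rw [coeff_X_pow_mul']
      split_ifs <;> simp
    · intro x hx y hy hxy
      have := (mem_filter.1 hx).2
      have := (mem_filter.1 hy).2
      simp only at hxy
      omega

end Pool.Agent.Lib.MP_1e748d_nt.B
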