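import Mathlib

set_option autoImplicit false

/-! The smoothed logarithmic energy of a finite set of reals, in Chebyshev coordinates. -/

namespace Pool.Agent.Lib.MP_1e748d_nt

open Finset Real

lemma kernel (r t : ℝ) (h0 : 0 ≤ r) (h1 : r < 1) :
    HasSum (fun k : ℕ => r ^ k * Real.cos (k * t) / k)
      (-(1 / 2) * Real.log (1 - 2 * r * Real.cos t + r ^ 2)) := by
  have hz : ‖(r : ℂ) * Complex.exp (t * Complex.I)‖ < 1 := by
    rw [norm_mul, Complex.norm_exp_ofReal_mul_I, Complex.norm_real, Real.norm_of_nonneg h0]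
    simpa using h1
  have h := Complex.hasSum_re (Complex.hasSum_taylorSeries_neg_log hz)
  convert h using 1
  · ext k
    rw [mul_pow, ← Complex.exp_nat_mul, ← mul_assoc]
    have e : ((k : ℂ) * (t : ℂ)) = ((k * t : ℝ) : ℂ) := by push_cast; ring
    rw [e, Complex.div_natCast_re, ← Complex.ofReal_pow, Complex.re_ofReal_mul,
      Complex.exp_ofReal_mul_I_re]
  · rw [Complex.neg_re, Complex.log_re]
    have e : 1 - 2 * r * Real.cos t + r ^ 2 = ‖1 - (r : ℂ) * Complex.exp (t * Complex.I)‖ ^ 2 := by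
      rw [Complex.sq_norm, Complex.normSq_apply]
      simp only [Complex.sub_re, Complex.one_re, Complex.re_ofReal_mul, Complex.exp_ofReal_mul_I_re,
        Complex.sub_im, Complex.one_im, Complex.im_ofReal_mul, Complex.exp_ofReal_mul_I_im]
      nlinarith [Real.sin_sq_add_cos_sq t]
    rw [e, Real.log_pow]
    push_cast
    ring

lemma kernel_pair (r a b : ℝ) (h0 : 0 ≤ r) (h1 : r < 1) :
    HasSum (fun k : ℕ => r ^ k / k * (2 * (Real.cos (k * a) * Real.cos (k * b))))
      (-(1 / 2) * Real.log (1 - 2 * r * Real.cos (a - b) + r ^ 2) +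
        -(1 / 2) * Real.log (1 - 2 * r * Real.cos (a + b) + r ^ 2)) := by
  convert (kernel r (a - b) h0 h1).add (kernel r (a + b) h0 h1) using 1
  ext k
  rw [mul_sub, mul_add, Real.cos_sub, Real.cos_add]
  ring

lemma kernel_diag (r t : ℝ) (h0 : 0 ≤ r) (h1 : r < 1) :
    -(1 / 2) * Real.log (1 - 2 * r * Real.cos t + r ^ 2) ≤ -Real.log (1 - r) := by
  have h2 : (1 - r) ^ 2 ≤ 1 - 2 * r * Real.cos t + r ^ 2 := by
    nlinarith [Real.cos_le_one t]
  have h3 := Real.log_le_log (by nlinarith) h2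
  rw [Real.log_pow] at h3
  push_cast at h3
  linarith

lemma kernel_off (r a b : ℝ) (h0 : 0 < r) (h1 : r < 1) (hab : Real.cos a ≠ Real.cos b) :
    -(1 / 2) * Real.log (1 - 2 * r * Real.cos (a - b) + r ^ 2) +
        -(1 / 2) * Real.log (1 - 2 * r * Real.cos (a + b) + r ^ 2) ≤
      -Real.log r - Real.log |2 * Real.cos a - 2 * Real.cos b| := by
  have p1 : 0 < 1 - 2 * r * Real.cos (a - b) + r ^ 2 := by nlinarith [Real.cos_le_one (a - b)]
  have p2 : 0 < 1 - 2 * r * Real.cos (a + b) + r ^ 2 := by nlinarith [Real.cos_le_one (a + b)]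
  have q1 : r * (2 - 2 * Real.cos (a - b)) ≤ 1 - 2 * r * Real.cos (a - b) + r ^ 2 := by nlinarith
  have q2 : r * (2 - 2 * Real.cos (a + b)) ≤ 1 - 2 * r * Real.cos (a + b) + r ^ 2 := by nlinarith
  have e : (2 - 2 * Real.cos (a - b)) * (2 - 2 * Real.cos (a + b)) =
      (2 * Real.cos a - 2 * Real.cos b) ^ 2 := by
    rw [Real.cos_sub, Real.cos_add]
    have ha := Real.sin_sq_add_cos_sq a
    have hb := Real.sin_sq_add_cos_sq b
    have : (Real.sin a * Real.sin b) ^ 2 = (1 - Real.cos a ^ 2) * (1 - Real.cos b ^ 2) := by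
      rw [mul_pow]; congr 1 <;> linarith
    nlinarith
  have hd : 0 < |2 * Real.cos a - 2 * Real.cos b| := by
    rw [abs_pos]; intro h; apply hab; linarith
  have key : (r * |2 * Real.cos a - 2 * Real.cos b|) ^ 2 ≤
      (1 - 2 * r * Real.cos (a - b) + r ^ 2) * (1 - 2 * r * Real.cos (a + b) + r ^ 2) := by
    rw [mul_pow, sq_abs, ← e]
    have n1 : 0 ≤ r * (2 - 2 * Real.cos (a - b)) := by nlinarith [Real.cos_le_one (a - b)]
    have n2 : 0 ≤ r * (2 - 2 * Real.cos (a + b)) := by nlinarith [Real.cos_le_one (a + b)]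
    calc _ = (r * (2 - 2 * Real.cos (a - b))) * (r * (2 - 2 * Real.cos (a + b))) := by ring
      _ ≤ _ := mul_le_mul q1 q2 n2 p1.le
  have h3 := Real.log_le_log (by positivity) key
  rw [Real.log_pow, Real.log_mul h0.ne' hd.ne', Real.log_mul p1.ne' p2.ne'] at h3
  push_cast at h3
  linarith

/-- The energy inequality. -/
theorem energy (s : Finset ℝ) (θ : ℝ → ℝ) (c ρ r : ℝ) (hρ : 1 ≤ ρ)
    (hθ : ∀ x ∈ s, x = c + 2 * ρ * Real.cos (θ x))
    (hdisc : 1 ≤ ∏ x ∈ s, ∏ y ∈ s.erase x, |x - y|) (h0 : 0 < r) (h1 : r < 1) (K : Finset ℕ) :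
    ∑ k ∈ K, r ^ k / k * (2 * (∑ x ∈ s, Real.cos (k * θ x)) ^ 2) ≤
      (s.card : ℝ) ^ 2 * (Real.log ρ - Real.log r) - 2 * s.card * Real.log (1 - r) := by
  classical
  set g : ℝ → ℝ → ℝ := fun x y =>
    -(1 / 2) * Real.log (1 - 2 * r * Real.cos (θ x - θ y) + r ^ 2) +
      -(1 / 2) * Real.log (1 - 2 * r * Real.cos (θ x + θ y) + r ^ 2) with hg
  have hs : HasSum (fun k : ℕ => r ^ k / k * (2 * (∑ x ∈ s, Real.cos (k * θ x)) ^ 2))
      (∑ x ∈ s, ∑ y ∈ s, g x y) := by
    have := hasSum_sum (s := s) fun x _ => hasSum_sum (s := s) fun y _ =>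
      kernel_pair r (θ x) (θ y) h0.le h1
    convert this using 1
    ext k
    rw [sq, Finset.sum_mul_sum, Finset.mul_sum, Finset.mul_sum]
    refine Finset.sum_congr rfl fun x _ => ?_
    rw [Finset.mul_sum, Finset.mul_sum]
  refine (sum_le_hasSum K (fun k _ => by positivity) hs).trans ?_
  have hρ0 : 0 < ρ := by linarith
  have hl : 0 ≤ Real.log ρ - Real.log r := by
    have := Real.log_nonneg hρ
    have := Real.log_nonpos h0.le h1.le
    linarith
  have hrow : ∀ x ∈ s, ∑ y ∈ s, g x y ≤ -(2 * Real.log (1 - r)) +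
      s.card * (Real.log ρ - Real.log r) - ∑ y ∈ s.erase x, Real.log |x - y| := by
    intro x hx
    rw [← Finset.add_sum_erase s _ hx]
    have d1 : g x x ≤ -(2 * Real.log (1 - r)) := by
      have := kernel_diag r (θ x - θ x) h0.le h1
      have := kernel_diag r (θ x + θ x) h0.le h1
      simp only [hg]
      linarith
    have d2 : ∑ y ∈ s.erase x, g x y ≤
        ∑ y ∈ s.erase x, ((Real.log ρ - Real.log r) - Real.log |x - y|) := by
      refine Finset.sum_le_sum fun y hy => ?_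
      obtain ⟨hyx, hy⟩ := Finset.mem_erase.mp hy
      have ex := hθ x hx
      have ey := hθ y hy
      have hne : Real.cos (θ x) ≠ Real.cos (θ y) := by
        intro h; apply hyx; rw [ex, ey, h]
      have k := kernel_off r (θ x) (θ y) h0 h1 hne
      have e : |x - y| = ρ * |2 * Real.cos (θ x) - 2 * Real.cos (θ y)| := by
        have e' : x - y = ρ * (2 * Real.cos (θ x) - 2 * Real.cos (θ y)) := by linarith
        rw [e', abs_mul, abs_of_pos hρ0]
      have hd : |2 * Real.cos (θ x) - 2 * Real.cos (θ y)| ≠ 0 := by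
        rw [abs_ne_zero]; intro h; apply hne; linarith
      rw [e, Real.log_mul hρ0.ne' hd]
      simp only [hg]
      linarith
    rw [Finset.sum_sub_distrib, Finset.sum_const, nsmul_eq_mul] at d2
    have d3 : ((s.erase x).card : ℝ) ≤ s.card := by exact_mod_cast Finset.card_erase_le
    nlinarith
  have hlog : 0 ≤ ∑ x ∈ s, ∑ y ∈ s.erase x, Real.log |x - y| := by
    have hne : ∀ x ∈ s, ∀ y ∈ s.erase x, |x - y| ≠ 0 := fun x _ y hy =>
      abs_ne_zero.mpr (sub_ne_zero.mpr (Finset.ne_of_mem_erase hy).symm)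
    have := Real.log_nonneg hdisc
    rw [Real.log_prod (fun x hx => Finset.prod_ne_zero_iff.mpr (hne x hx))] at this
    convert this using 2 with x hx
    rw [Real.log_prod (hne x hx)]
  refine (Finset.sum_le_sum hrow).trans ?_
  rw [Finset.sum_sub_distrib, Finset.sum_const, nsmul_eq_mul]
  nlinarith

end Pool.Agent.Lib.MP_1e748d_nt
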