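import Mathlib

set_option autoImplicit false

/-! Newton's identities: Chebyshev sums are triangular in the elementary symmetric functions. -/

namespace Pool.Agent.Lib.MP_1e748d_nt

open Finset Polynomial

lemma newton (s : Finset ℝ) (k : ℕ) (hk : 0 < k) :
    ∑ x ∈ s, x ^ k = (-1) ^ (k + 1) * k * s.val.esymm k -
      ∑ a ∈ antidiagonal k with a.1 ∈ Set.Ioo 0 k,
        (-1) ^ a.1 * s.val.esymm a.1 * ∑ x ∈ s, x ^ a.2 := by
  classical
  have h := congrArg (MvPolynomial.aeval (fun x : s => (x : ℝ)))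
    (MvPolynomial.psum_eq_mul_esymm_sub_sum s ℝ k hk)
  have e1 : ∀ j, MvPolynomial.aeval (fun x : s => (x : ℝ)) (MvPolynomial.esymm s ℝ j) =
      s.val.esymm j := by
    intro j
    rw [MvPolynomial.aeval_esymm_eq_multiset_esymm]
    congr 1
    exact Multiset.attach_map_val s.val
  have e2 : ∀ j, MvPolynomial.aeval (fun x : s => (x : ℝ)) (MvPolynomial.psum s ℝ j) =
      ∑ x ∈ s, x ^ j := by
    intro j
    simp only [MvPolynomial.psum, map_sum, map_pow, MvPolynomial.aeval_X]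
    exact Finset.sum_coe_sort s (fun x => x ^ j)
  simpa only [map_sub, map_mul, map_pow, map_neg, map_one, map_natCast, map_sum, e1, e2] using h

lemma psum_sub (s t : Finset ℝ) (k : ℕ) (hk : 0 < k)
    (he : ∀ j, 0 < j → j < k → s.val.esymm j = t.val.esymm j) :
    ∑ x ∈ s, x ^ k - ∑ x ∈ t, x ^ k = (-1) ^ (k + 1) * k * (s.val.esymm k - t.val.esymm k) := by
  induction k using Nat.strong_induction_on with
  | _ k ih =>
    rw [newton s k hk, newton t k hk]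
    have : ∑ a ∈ antidiagonal k with a.1 ∈ Set.Ioo 0 k,
        (-1) ^ a.1 * s.val.esymm a.1 * ∑ x ∈ s, x ^ a.2 =
      ∑ a ∈ antidiagonal k with a.1 ∈ Set.Ioo 0 k,
        (-1) ^ a.1 * t.val.esymm a.1 * ∑ x ∈ t, x ^ a.2 := by
      refine Finset.sum_congr rfl fun a ha => ?_
      obtain ⟨ha1, ha2, ha3⟩ := Finset.mem_filter.mp ha
      have ha1 := Finset.HasAntidiagonal.mem_antidiagonal.mp ha1
      have h2 : a.2 < k := by omega
      have h3 : 0 < a.2 := by omega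
      have := ih a.2 h2 h3 fun j hj hj' => he j hj (by omega)
      rw [he a.2 h3 h2, sub_self, mul_zero, sub_eq_zero] at this
      rw [he a.1 ha2 ha3, this]
    rw [this]
    ring

lemma sum_eval_sub (s t : Finset ℝ) (hc : s.card = t.card) (k : ℕ) (hk : 0 < k)
    (he : ∀ j, 0 < j → j < k → s.val.esymm j = t.val.esymm j) (Q : ℝ[X]) (hQ : Q.Monic)
    (hd : Q.natDegree = k) :
    ∑ x ∈ s, Q.eval x - ∑ x ∈ t, Q.eval x =
      (-1) ^ (k + 1) * k * (s.val.esymm k - t.val.esymm k) := by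
  have e : ∀ u : Finset ℝ, ∑ x ∈ u, Q.eval x =
      ∑ j ∈ range k, Q.coeff j * ∑ x ∈ u, x ^ j + ∑ x ∈ u, x ^ k := by
    intro u
    simp_rw [eval_eq_sum_range, hd, Finset.sum_range_succ, Finset.sum_add_distrib, Finset.mul_sum]
    rw [Finset.sum_comm]
    congr 1
    refine Finset.sum_congr rfl fun x _ => ?_
    rw [← hd, hQ.coeff_natDegree, one_mul]
  rw [e s, e t, ← psum_sub s t k hk he]
  have : ∑ j ∈ range k, Q.coeff j * ∑ x ∈ s, x ^ j = ∑ j ∈ range k, Q.coeff j * ∑ x ∈ t, x ^ j := by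
    refine Finset.sum_congr rfl fun j hj => ?_
    have hj := Finset.mem_range.mp hj
    congr 1
    rcases Nat.eq_zero_or_pos j with rfl | h0
    · simp [hc]
    · have := psum_sub s t j h0 fun i hi hi' => he i hi (by omega)
      rwa [he j h0 hj, sub_self, mul_zero, sub_eq_zero] at this
  rw [this]
  ring

lemma cheb (c ρ : ℝ) (k : ℕ) : ∃ Q R : ℝ[X], Q.degree ≤ k ∧ R.Monic ∧ R.natDegree = k + 1 ∧
    (∀ θ : ℝ, Q.eval (c + 2 * ρ * Real.cos θ) = 2 * ρ ^ k * Real.cos (k * θ)) ∧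
    ∀ θ : ℝ, R.eval (c + 2 * ρ * Real.cos θ) =
      2 * ρ ^ (k + 1) * Real.cos (((k + 1 : ℕ) : ℝ) * θ) := by
  induction k with
  | zero =>
    refine ⟨C 2, X - C c, degree_C_le, monic_X_sub_C c, natDegree_X_sub_C c, ?_, ?_⟩
    · intro θ; simp
    · intro θ; simp
  | succ k ih =>
    obtain ⟨Q, R, hQ, hR, hd, e1, e2⟩ := ih
    have hm : ((X - C c) * R).Monic := (monic_X_sub_C c).mul hR
    have hn : ((X - C c) * R).natDegree = k + 1 + 1 := by
      rw [(monic_X_sub_C c).natDegree_mul hR, natDegree_X_sub_C, hd]; ring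
    have hlt : (C (ρ ^ 2) * Q).degree < ((X - C c) * R).degree := by
      rw [degree_eq_natDegree hm.ne_zero, hn]
      refine lt_of_le_of_lt ((degree_mul_le _ _).trans (add_le_add degree_C_le hQ)) ?_
      rw [zero_add]
      exact_mod_cast (by omega : k < k + 1 + 1)
    refine ⟨R, (X - C c) * R - C (ρ ^ 2) * Q, ?_, hm.sub_of_left hlt, ?_, e2, ?_⟩
    · rw [degree_eq_natDegree hR.ne_zero, hd]
    · rw [natDegree_eq_of_degree_eq (degree_sub_eq_left_of_degree_lt hlt), hn]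
    · intro θ
      rw [eval_sub, eval_mul, eval_mul, e1, e2, eval_sub, eval_X, eval_C, eval_C]
      have a1 : (((k + 1 + 1 : ℕ) : ℝ) * θ) = ((k + 1 : ℕ) : ℝ) * θ + θ := by push_cast; ring
      have a2 : ((k : ℝ) * θ) = ((k + 1 : ℕ) : ℝ) * θ - θ := by push_cast; ring
      rw [a1, a2, Real.cos_add, Real.cos_sub]
      ring

/-- Triangularity of the Chebyshev sums. -/
theorem cheb_sub (s t : Finset ℝ) (hc : s.card = t.card) (θ : ℝ → ℝ) (c ρ : ℝ)
    (hs : ∀ x ∈ s, x = c + 2 * ρ * Real.cos (θ x)) (ht : ∀ x ∈ t, x = c + 2 * ρ * Real.cos (θ x))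
    (k : ℕ) (he : ∀ j, 0 < j → j < k + 1 → s.val.esymm j = t.val.esymm j) :
    2 * ρ ^ (k + 1) * (∑ x ∈ s, Real.cos (((k + 1 : ℕ) : ℝ) * θ x)) / ((k + 1 : ℕ) : ℝ) -
      2 * ρ ^ (k + 1) * (∑ x ∈ t, Real.cos (((k + 1 : ℕ) : ℝ) * θ x)) / ((k + 1 : ℕ) : ℝ) =
      (-1) ^ k * (s.val.esymm (k + 1) - t.val.esymm (k + 1)) := by
  obtain ⟨_, R, _, hR, hd, _, e⟩ := cheb c ρ k
  have h := sum_eval_sub s t hc (k + 1) (by omega) he R hR hd
  have e1 : ∀ u : Finset ℝ, (∀ x ∈ u, x = c + 2 * ρ * Real.cos (θ x)) → ∑ x ∈ u, R.eval x =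
      2 * ρ ^ (k + 1) * (∑ x ∈ u, Real.cos (((k + 1 : ℕ) : ℝ) * θ x)) := by
    intro u hu
    rw [Finset.mul_sum]
    refine Finset.sum_congr rfl fun x hx => ?_
    rw [← e, ← hu x hx]
  rw [e1 s hs, e1 t ht] at h
  have hk : ((k + 1 : ℕ) : ℝ) ≠ 0 := by positivity
  rw [← sub_div, h, div_eq_iff hk]
  ring

end Pool.Agent.Lib.MP_1e748d_nt
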