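import Pool.Agent.Lib.MP_1e748d_nt.Energy
import Pool.Agent.Lib.MP_1e748d_nt.Newton
import Pool.Agent.Lib.MP_1e748d_nt.Count

set_option autoImplicit false

/-! Counting root sets of squarefree monic integer polynomials in an interval of capacity
about one. -/

namespace Pool.Agent.Lib.MP_1e748d_nt

open Finset Real Polynomial

/-- Root sets of squarefree monic integer polynomials in `[c - 2ρ, c + 2ρ]`. -/
def Good (c ρ : ℝ) (s : Finset ℝ) : Prop :=
  (∀ k, ∃ z : ℤ, s.val.esymm k = z) ∧ (∀ x ∈ s, |x - c| ≤ 2 * ρ) ∧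
    1 ≤ ∏ x ∈ s, ∏ y ∈ s.erase x, |x - y|

lemma abs_round_le (y : ℝ) : |((round y : ℤ) : ℝ)| ≤ 4 * y ^ 2 := by
  have h := abs_sub_round y
  by_cases h0 : round y = 0
  · rw [h0]; simp only [Int.cast_zero, abs_zero]; positivity
  · have h1 : (1 : ℝ) ≤ |((round y : ℤ) : ℝ)| := by
      rw [← Int.cast_abs]; exact_mod_cast Int.one_le_abs h0
    have h2 : |((round y : ℤ) : ℝ)| ≤ |y| + 1 / 2 := by
      have := abs_sub_abs_le_abs_sub ((round y : ℤ) : ℝ) y
      rw [abs_sub_comm] at this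
      linarith
    rw [← sq_abs y]
    nlinarith [abs_nonneg y]

lemma eq_of_esymm (s t : Finset ℝ) (hc : s.card = t.card)
    (he : ∀ j, 0 < j → j ≤ s.card → s.val.esymm j = t.val.esymm j) : s = t := by
  have h : (s.val.map fun x => X - C x).prod = (t.val.map fun x => X - C x).prod := by
    rw [Multiset.prod_X_sub_X_eq_sum_esymm, Multiset.prod_X_sub_X_eq_sum_esymm]
    have : Multiset.card t.val = Multiset.card s.val := hc.symm
    rw [this]
    refine Finset.sum_congr rfl fun j hj => ?_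
    have hj : j ≤ s.card := Nat.lt_succ_iff.mp (Finset.mem_range.mp hj)
    rcases Nat.eq_zero_or_pos j with rfl | h0
    · simp [Multiset.esymm]
    · rw [he j h0 hj]
  have := congrArg Polynomial.roots h
  rw [roots_multiset_prod_X_sub_C, roots_multiset_prod_X_sub_C] at this
  exact Finset.val_injective this

lemma cost_le (c ρ : ℝ) (N : ℕ) (hN : 1 ≤ N) (hρ : 1 ≤ ρ) (hρ' : ρ ≤ 1 + 1 / (2 * N))
    (s : Finset ℝ) (n : ℕ) (hn : s.card = n) (hnN : n ≤ N) (θ : ℝ → ℝ)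
    (hθ : ∀ x ∈ s, x = c + 2 * ρ * Real.cos (θ x))
    (hdisc : 1 ≤ ∏ x ∈ s, ∏ y ∈ s.erase x, |x - y|) :
    ∑ k : Fin n, ((k : ℝ) + 1) * |((round (2 * ρ ^ ((k : ℕ) + 1) *
      (∑ x ∈ s, Real.cos ((((k : ℕ) + 1 : ℕ) : ℝ) * θ x)) / (((k : ℕ) + 1 : ℕ) : ℝ)) : ℤ) : ℝ)| ≤
      96 * (N * (1 + Real.log (2 * N))) := by
  have N1 : (1 : ℝ) ≤ N := by exact_mod_cast hN
  have nN : (n : ℝ) ≤ N := by exact_mod_cast hnN
  set r : ℝ := 1 - 1 / (2 * N) with hr
  have i1 : 1 / (2 * (N : ℝ)) ≤ 1 / 2 := by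
    apply one_div_le_one_div_of_le <;> linarith
  have i0 : 0 < 1 / (2 * (N : ℝ)) := by positivity
  have r0 : 0 < r := by linarith
  have r1 : r < 1 := by linarith
  have hE := energy s θ c ρ r hρ hθ hdisc r0 r1 (range (n + 1))
  rw [Finset.sum_range_succ', hn] at hE
  simp only [Nat.cast_zero, div_zero, zero_mul, add_zero] at hE
  have l1 : Real.log ρ ≤ 1 / (2 * N) := by
    have := Real.log_le_sub_one_of_pos (by linarith : 0 < ρ); linarith
  have l2 : -Real.log r ≤ 1 / N := by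
    have := Real.log_le_sub_one_of_pos (inv_pos.mpr r0)
    rw [Real.log_inv] at this
    refine this.trans ?_
    have e : r⁻¹ - 1 = 1 / (2 * N - 1) := by
      have : (2 * (N : ℝ) - 1) ≠ 0 := by linarith
      rw [hr]; field_simp; ring
    rw [e]
    apply one_div_le_one_div_of_le <;> linarith
  have l3 : Real.log (1 - r) = -Real.log (2 * N) := by
    rw [hr, sub_sub_cancel, one_div, Real.log_inv]
  have l4 : 0 ≤ Real.log (2 * N) := Real.log_nonneg (by linarith)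
  have hE2 : (n : ℝ) ^ 2 * (Real.log ρ - Real.log r) - 2 * n * Real.log (1 - r) ≤
      2 * (N * (1 + Real.log (2 * N))) := by
    rw [l3]
    have a1 : (n : ℝ) ^ 2 * (Real.log ρ - Real.log r) ≤ (N : ℝ) ^ 2 * (1 / (2 * N) + 1 / N) := by
      refine mul_le_mul (by gcongr) (by linarith) ?_ (by positivity)
      have := Real.log_nonneg hρ
      have := Real.log_nonpos r0.le r1.le
      linarith
    have a2 : (N : ℝ) ^ 2 * (1 / (2 * N) + 1 / N) = 3 / 2 * N := by field_simp; ring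
    nlinarith
  rw [Fin.sum_univ_eq_sum_range (fun k : ℕ => ((k : ℝ) + 1) * |((round (2 * ρ ^ (k + 1) *
      (∑ x ∈ s, Real.cos (((k + 1 : ℕ) : ℝ) * θ x)) / ((k + 1 : ℕ) : ℝ)) : ℤ) : ℝ)|) n]
  refine le_trans ?_ (le_of_le_of_eq (mul_le_mul_of_nonneg_left (hE.trans hE2)
    (by norm_num : (0 : ℝ) ≤ 48)) (by ring))
  rw [Finset.mul_sum]
  refine Finset.sum_le_sum fun k hk => ?_
  have hk : k + 1 ≤ N := by have := Finset.mem_range.mp hk; omega
  have hk' : ((k + 1 : ℕ) : ℝ) ≤ N := by exact_mod_cast hk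
  set S := ∑ x ∈ s, Real.cos (((k + 1 : ℕ) : ℝ) * θ x)
  have b1 : 1 / 2 ≤ r ^ (k + 1) := by
    have := one_add_mul_le_pow (a := -(1 / (2 * (N : ℝ)))) (by linarith) (k + 1)
    have e : 1 + -(1 / (2 * (N : ℝ))) = r := by rw [hr]; ring
    rw [e] at this
    have h2 : ((k + 1 : ℕ) : ℝ) * (1 / (2 * N)) ≤ 1 / 2 := by
      rw [mul_one_div, div_le_div_iff₀ (by positivity) (by positivity)]; linarith
    linarith
  have b2 : (ρ ^ (k + 1)) ^ 2 ≤ 3 := by
    have h1 : ρ ≤ Real.exp (1 / (2 * N)) := by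
      have := Real.add_one_le_exp (1 / (2 * (N : ℝ))); linarith
    calc (ρ ^ (k + 1)) ^ 2 = ρ ^ ((k + 1) * 2) := by rw [← pow_mul]
      _ ≤ ρ ^ (N * 2) := pow_le_pow_right₀ hρ (by omega)
      _ ≤ Real.exp (1 / (2 * N)) ^ (N * 2) := by gcongr
      _ = Real.exp 1 := by
        rw [← Real.exp_nat_mul]; congr 1; push_cast; field_simp
      _ ≤ 3 := by linarith [Real.exp_one_lt_d9]
  have e : ((k : ℝ) + 1) = ((k + 1 : ℕ) : ℝ) := by push_cast; ring
  rw [e]
  have kp : (0 : ℝ) < ((k + 1 : ℕ) : ℝ) := by positivity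
  set K : ℝ := ((k + 1 : ℕ) : ℝ)
  refine (mul_le_mul_of_nonneg_left (abs_round_le _) kp.le).trans ?_
  have e2 : K * (4 * (2 * ρ ^ (k + 1) * S / K) ^ 2) = 16 * (ρ ^ (k + 1)) ^ 2 * (S ^ 2 / K) := by
    field_simp; ring
  have e3 : 48 * (r ^ (k + 1) / K * (2 * S ^ 2)) = 96 * r ^ (k + 1) * (S ^ 2 / K) := by
    field_simp; ring
  rw [e2, e3]
  have : 0 ≤ S ^ 2 / K := by positivity
  apply mul_le_mul_of_nonneg_right _ this
  linarith

theorem good_count (c ρ : ℝ) (N : ℕ) (hN : 1 ≤ N) (hρ : 1 ≤ ρ) (hρ' : ρ ≤ 1 + 1 / (2 * N))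
    (n : ℕ) (hnN : n ≤ N) (F : Finset (Finset ℝ)) (hF : ∀ s ∈ F, Good c ρ s ∧ s.card = n) :
    (F.card : ℝ) ≤ Real.exp (136 * √(N * (1 + Real.log (2 * N)))) := by
  classical
  have N1 : (1 : ℝ) ≤ N := by exact_mod_cast hN
  set θ : ℝ → ℝ := fun x => Real.arccos ((x - c) / (2 * ρ)) with hθd
  have hθ : ∀ s ∈ F, ∀ x ∈ s, x = c + 2 * ρ * Real.cos (θ x) := by
    intro s hs x hx
    have h := abs_le.mp ((hF s hs).1.2.1 x hx)
    have p : 0 < 2 * ρ := by linarith
    simp only [hθd]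
    rw [Real.cos_arccos (by rw [le_div_iff₀ p]; linarith) (by rw [div_le_iff₀ p]; linarith)]
    field_simp
    ring
  set code : Finset ℝ → Fin n → ℤ := fun s k => round (2 * ρ ^ ((k : ℕ) + 1) *
      (∑ x ∈ s, Real.cos ((((k : ℕ) + 1 : ℕ) : ℝ) * θ x)) / (((k : ℕ) + 1 : ℕ) : ℝ)) with hcode
  have inj : Set.InjOn code F := by
    intro s hs t ht hst
    have hc : s.card = t.card := by rw [(hF s hs).2, (hF t ht).2]
    refine eq_of_esymm s t hc fun j => ?_
    rw [(hF s hs).2]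
    induction j using Nat.strong_induction_on with
    | _ j ih =>
      intro h0 hj
      obtain ⟨k, rfl⟩ : ∃ k, j = k + 1 := ⟨j - 1, by omega⟩
      have h := cheb_sub s t hc θ c ρ (hθ s hs) (hθ t ht) k fun i hi hi' => ih i hi' hi (by omega)
      obtain ⟨a, ha⟩ := (hF s hs).1.1 (k + 1)
      obtain ⟨b, hb⟩ := (hF t ht).1.1 (k + 1)
      have h2 := congrFun hst ⟨k, by omega⟩
      simp only [hcode] at h2
      rw [ha, hb, sub_eq_iff_eq_add'] at h
      have e : (-1 : ℝ) ^ k * ((a : ℝ) - b) = (((-1) ^ k * (a - b) : ℤ) : ℝ) := by push_cast; ring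
      rw [h, e, round_add_intCast] at h2
      have h3 : (-1 : ℤ) ^ k * (a - b) = 0 := by linarith
      rcases mul_eq_zero.mp h3 with h4 | h4
      · exact absurd h4 (pow_ne_zero _ (by norm_num))
      · rw [ha, hb, sub_eq_zero.mp h4]
  have l4 : 0 ≤ Real.log (2 * N) := Real.log_nonneg (by linarith)
  set W : ℝ := N * (1 + Real.log (2 * N)) with hW
  have W0 : 0 < W := by positivity
  have sW : 0 < √W := Real.sqrt_pos.mpr W0
  have h := count_le n (96 * W) (1 / √W) (by positivity) (F.image code) (by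
    intro m hm
    obtain ⟨s, hs, rfl⟩ := Finset.mem_image.mp hm
    exact cost_le c ρ N hN hρ hρ' s n (hF s hs).2 hnN θ (hθ s hs) (hF s hs).1.2.2)
  rw [Finset.card_image_of_injOn inj] at h
  refine h.trans (le_of_eq ?_)
  congr 1
  have := Real.sq_sqrt W0.le
  field_simp
  nlinarith

end Pool.Agent.Lib.MP_1e748d_nt
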