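import Pool.Agent.Lib.MP_1e748d_nt.Good

set_option autoImplicit false

/-! From conjugate sets to root sets of squarefree polynomials; the final count. -/

namespace Pool.Agent.Lib.MP_1e748d_nt

open Finset Polynomial

lemma good_of_poly (c ρ : ℝ) (s : Finset ℝ) (F : ℤ[X])
    (hF : F.map (algebraMap ℤ ℝ) = ∏ x ∈ s, (X - C x)) (hs : ∀ x ∈ s, |x - c| ≤ 2 * ρ) :
    Good c ρ s := by
  classical
  refine ⟨fun k => ?_, hs, ?_⟩
  · by_cases hk : k ≤ s.card
    · have h := Multiset.prod_X_sub_C_coeff s.val (k := s.card - k) (Nat.sub_le _ _)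
      have e : Multiset.card s.val - (s.card - k) = k := by
        have : Multiset.card s.val = s.card := rfl
        omega
      rw [e] at h
      have h2 : (s.val.map fun t => X - C t).prod = F.map (algebraMap ℤ ℝ) := hF.symm
      rw [h2, coeff_map] at h
      refine ⟨(-1) ^ k * F.coeff (s.card - k), ?_⟩
      push_cast
      have h3 : ((F.coeff (s.card - k) : ℤ) : ℝ) = (-1) ^ k * s.val.esymm k := h
      rw [h3, ← mul_assoc, ← mul_pow]
      simp
    · refine ⟨0, ?_⟩
      rw [Multiset.esymm, Multiset.powersetCard_eq_empty _ (by simpa using hk)]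
      simp
  · have hn : F.map (algebraMap ℤ ℝ) = Lagrange.nodal s id := hF
    have hm : (F.map (algebraMap ℤ ℝ)).Monic := by rw [hn]; exact Lagrange.nodal_monic
    have hr : (F.map (algebraMap ℤ ℝ)).roots = s.val := by
      rw [hF]; exact roots_prod_X_sub_C s
    have hsp : (F.map (algebraMap ℤ ℝ)).Splits := by
      rw [hF]; exact Splits.prod fun x _ => Splits.X_sub_C x
    have h := resultant_eq_prod_eval (F.map (algebraMap ℤ ℝ))
      (derivative (F.map (algebraMap ℤ ℝ))) _ le_rfl hsp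
    rw [hm.leadingCoeff, one_pow, one_mul, hr] at h
    conv_lhs at h => rw [derivative_map, resultant_map_map]
    obtain ⟨z, hz⟩ : ∃ z : ℤ, (z : ℝ) = ∏ x ∈ s, ∏ y ∈ s.erase x, (x - y) := by
      refine ⟨_, h.trans ?_⟩
      refine Finset.prod_congr rfl fun x hx => ?_
      rw [hn]
      have := Lagrange.eval_nodal_derivative_eval_node_eq (v := id) hx
      simp only [id] at this
      rw [this, Lagrange.eval_nodal]
      rfl
    have hz0 : z ≠ 0 := by
      intro h0
      rw [h0, Int.cast_zero, eq_comm] at hz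
      obtain ⟨x, _, hx⟩ := Finset.prod_eq_zero_iff.mp hz
      obtain ⟨y, hy, hy'⟩ := Finset.prod_eq_zero_iff.mp hx
      exact Finset.ne_of_mem_erase hy (sub_eq_zero.mp hy').symm
    have h1 : (1 : ℝ) ≤ |(z : ℝ)| := by
      rw [← Int.cast_abs]; exact_mod_cast Int.one_le_abs hz0
    rw [hz, Finset.abs_prod] at h1
    simpa only [Finset.abs_prod] using h1

/-- The set of real roots. -/
noncomputable def rts (p : ℤ[X]) : Finset ℝ := (p.map (algebraMap ℤ ℝ)).roots.toFinset

lemma eq_minpoly {p : ℤ[X]} (hm : p.Monic) (hi : Irreducible p) {x : ℝ} (hx : x ∈ rts p) :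
    p = minpoly ℤ x := by
  have h0 : aeval x p = 0 := by
    have := (mem_roots (hm.map (algebraMap ℤ ℝ)).ne_zero).mp (Multiset.mem_toFinset.mp hx)
    rwa [IsRoot.def, eval_map_algebraMap] at this
  have hint : IsIntegral ℤ x := ⟨p, hm, h0⟩
  have hd := minpoly.isIntegrallyClosed_dvd hint h0
  exact (eq_of_monic_of_associated (minpoly.monic hint) hm
    ((minpoly.irreducible hint).associated_of_dvd hi hd)).symm

lemma nodup_rts {p : ℤ[X]} (hm : p.Monic) (hi : Irreducible p) :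
    (p.map (algebraMap ℤ ℝ)).roots.Nodup := by
  have h1 : Irreducible (p.map (algebraMap ℤ ℚ)) :=
    (hm.irreducible_iff_irreducible_map_fraction_map).mp hi
  have h2 := (h1.separable).map (f := algebraMap ℚ ℝ)
  rw [Polynomial.map_map] at h2
  exact nodup_roots h2

lemma map_eq_prod {p : ℤ[X]} (hm : p.Monic) (hi : Irreducible p)
    (hc : Multiset.card (p.map (algebraMap ℤ ℝ)).roots = p.natDegree) :
    p.map (algebraMap ℤ ℝ) = ∏ x ∈ rts p, (X - C x) ∧ (rts p).card = p.natDegree := by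
  have hn := nodup_rts hm hi
  have hv : (rts p).val = (p.map (algebraMap ℤ ℝ)).roots := by
    rw [rts, Multiset.toFinset_val, hn.dedup]
  refine ⟨?_, by rw [← hc, ← hv]; rfl⟩
  have := prod_multiset_X_sub_C_of_monic_of_roots_card_eq (hm.map (algebraMap ℤ ℝ))
    (by rw [hc, hm.natDegree_map])
  rw [← this, ← hv]
  rfl

theorem two_pow_le (c ρ : ℝ) (D : ℕ) (S : Finset ℤ[X]) (N : ℕ) (hN : 1 ≤ N)
    (hND : S.card * D ≤ N) (hρ : 1 ≤ ρ) (hρ' : ρ ≤ 1 + 1 / (2 * N))
    (hS : ∀ p ∈ S, p.Monic ∧ Irreducible p ∧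
      Multiset.card (p.map (algebraMap ℤ ℝ)).roots = p.natDegree ∧ p.natDegree ≤ D ∧
      ∀ x ∈ (p.map (algebraMap ℤ ℝ)).roots, |x - c| ≤ 2 * ρ) :
    (2 : ℝ) ^ S.card ≤ (N + 1) * Real.exp (136 * √(N * (1 + Real.log (2 * N)))) := by
  classical
  have hdis : ∀ p ∈ S, ∀ q ∈ S, ∀ x, x ∈ rts p → x ∈ rts q → p = q := fun p hp q hq x h1 h2 =>
    (eq_minpoly (hS p hp).1 (hS p hp).2.1 h1).trans (eq_minpoly (hS q hq).1 (hS q hq).2.1 h2).symm
  have hne : ∀ p ∈ S, (rts p).Nonempty := by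
    intro p hp
    rw [← Finset.card_pos, (map_eq_prod (hS p hp).1 (hS p hp).2.1 (hS p hp).2.2.1).2]
    exact (hS p hp).1.natDegree_pos.mpr (hS p hp).2.1.ne_one
  set U : Finset ℤ[X] → Finset ℝ := fun T => T.biUnion rts with hU
  have sub : ∀ T ∈ S.powerset, ∀ T' ∈ S.powerset, U T = U T' → T ⊆ T' := by
    intro T hT T' hT' h p hp
    have hT := Finset.mem_powerset.mp hT
    have hT' := Finset.mem_powerset.mp hT'
    obtain ⟨x, hx⟩ := hne p (hT hp)
    have : x ∈ U T' := h ▸ Finset.mem_biUnion.mpr ⟨p, hp, hx⟩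
    obtain ⟨q, hq, hxq⟩ := Finset.mem_biUnion.mp this
    rwa [hdis p (hT hp) q (hT' hq) x hx hxq]
  have inj : Set.InjOn U S.powerset := fun T hT T' hT' h =>
    Finset.Subset.antisymm (sub T hT T' hT' h) (sub T' hT' T hT h.symm)
  have good : ∀ s ∈ S.powerset.image U, Good c ρ s ∧ s.card ∈ range (N + 1) := by
    intro s hs
    obtain ⟨T, hT, rfl⟩ := Finset.mem_image.mp hs
    have hT := Finset.mem_powerset.mp hT
    refine ⟨good_of_poly c ρ _ (∏ p ∈ T, p) ?_ ?_, ?_⟩
    · rw [Polynomial.map_prod, hU, Finset.prod_biUnion]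
      · exact Finset.prod_congr rfl fun p hp =>
          (map_eq_prod (hS p (hT hp)).1 (hS p (hT hp)).2.1 (hS p (hT hp)).2.2.1).1
      · intro p hp q hq hpq
        exact Finset.disjoint_left.mpr fun x h1 h2 => hpq (hdis p (hT hp) q (hT hq) x h1 h2)
    · intro x hx
      obtain ⟨p, hp, hx⟩ := Finset.mem_biUnion.mp hx
      exact (hS p (hT hp)).2.2.2.2 x (Multiset.mem_toFinset.mp hx)
    · rw [Finset.mem_range, Nat.lt_succ_iff]
      refine (Finset.card_biUnion_le_card_mul T rts D fun p hp => ?_).trans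
        ((Nat.mul_le_mul_right _ (Finset.card_le_card hT)).trans hND)
      rw [(map_eq_prod (hS p (hT hp)).1 (hS p (hT hp)).2.1 (hS p (hT hp)).2.2.1).2]
      exact (hS p (hT hp)).2.2.2.1
  have h1 : (S.powerset.image U).card = 2 ^ S.card := by
    rw [Finset.card_image_of_injOn inj, Finset.card_powerset]
  have h2 := Finset.card_eq_sum_card_fiberwise (f := Finset.card) (s := S.powerset.image U)
    (t := range (N + 1)) (fun s hs => (good s hs).2)
  rw [h1] at h2
  have h3 : (2 : ℝ) ^ S.card = ∑ n ∈ range (N + 1),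
      (((S.powerset.image U).filter fun s => s.card = n).card : ℝ) := by exact_mod_cast h2
  rw [h3]
  refine (Finset.sum_le_card_nsmul _ _ _ fun n hn => good_count c ρ N hN hρ hρ' n
    (Nat.lt_succ_iff.mp (Finset.mem_range.mp hn)) _ fun s hs => ?_).trans (le_of_eq ?_)
  · obtain ⟨h4, h5⟩ := Finset.mem_filter.mp hs
    exact ⟨(good s h4).1, h5⟩
  · simp

theorem card_le (D : ℕ) (hD : 2 ≤ D) (a : ℝ) (S : Finset ℤ[X])
    (hS : ∀ p ∈ S, p.Monic ∧ Irreducible p ∧
      Multiset.card (p.map (algebraMap ℤ ℝ)).roots = p.natDegree ∧ p.natDegree ≤ D ∧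
      ∀ x ∈ (p.map (algebraMap ℤ ℝ)).roots,
        x ∈ Set.Icc a (a + 4 + 1 / (2 ^ 21 * (D : ℝ) ^ 2 * Real.log D))) :
    (S.card : ℝ) ≤ 2 ^ 21 * D * Real.log D := by
  by_contra hcon
  push Not at hcon
  have D2 : (2 : ℝ) ≤ D := by exact_mod_cast hD
  set L := Real.log D with hL
  have L1 : Real.log 2 ≤ L := Real.log_le_log (by norm_num) D2
  have l2 := Real.log_two_gt_d9
  have L2 : L ≤ D := by
    have := Real.log_le_sub_one_of_pos (by linarith : (0 : ℝ) < D); linarith
  have B1 : 1 ≤ 2 ^ 21 * D * L := by nlinarith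
  set m := ⌊2 ^ 21 * D * L⌋₊ + 1 with hm
  have m1 : 2 ^ 21 * D * L < m := by rw [hm]; push_cast; exact Nat.lt_floor_add_one _
  have m2 : (m : ℝ) ≤ 2 * (2 ^ 21 * D * L) := by
    have := Nat.floor_le (by linarith : (0 : ℝ) ≤ 2 ^ 21 * D * L)
    rw [hm]; push_cast; linarith
  have m3 : m ≤ S.card := (Nat.floor_lt (by linarith)).mpr hcon
  obtain ⟨T, hT, hTc⟩ := Finset.exists_subset_card_eq m3
  have m0 : (0 : ℝ) < m := by linarith
  have N1 : 1 ≤ m * D := Nat.mul_pos (by omega) (by omega)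
  have hN : ((m * D : ℕ) : ℝ) = m * D := by push_cast; ring
  have p0 : 0 < 2 ^ 21 * (D : ℝ) ^ 2 * L := by
    have : 0 < L := by linarith
    positivity
  have N2 : 2 * ((m : ℝ) * D) ≤ 4 * (2 ^ 21 * (D : ℝ) ^ 2 * L) := by nlinarith
  set δ : ℝ := 1 / (2 ^ 21 * (D : ℝ) ^ 2 * L) with hδ
  have δ0 : 0 < δ := by positivity
  have h := two_pow_le (a + 2 * (1 + δ / 4)) (1 + δ / 4) D T (m * D) N1 (by rw [hTc])
    (by linarith) ?_ ?_
  · rw [hTc, hN] at h
    set W : ℝ := m * D * (1 + Real.log (2 * (m * D))) with hW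
    have a1 : (1 : ℝ) ≤ m * D := by rw [← hN]; exact_mod_cast N1
    have l4 : 0 ≤ Real.log (2 * (m * D)) := Real.log_nonneg (by linarith)
    have l5 : Real.log (2 * (m * D)) ≤ 26 * L := by
      have h1 : 2 * ((m : ℝ) * D) ≤ (D : ℝ) ^ 26 := by
        have h2 : (2 : ℝ) ^ 23 ≤ (D : ℝ) ^ 23 := by gcongr
        calc 2 * ((m : ℝ) * D) ≤ 4 * (2 ^ 21 * (D : ℝ) ^ 2 * D) := by
              refine N2.trans ?_
              gcongr
          _ = 2 ^ 23 * (D : ℝ) ^ 3 := by ring
          _ ≤ (D : ℝ) ^ 23 * (D : ℝ) ^ 3 := by gcongr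
          _ = (D : ℝ) ^ 26 := by ring
      have := Real.log_le_log (by linarith) h1
      rw [Real.log_pow] at this
      exact_mod_cast this
    have w1 : W ≤ (m / 256) ^ 2 := by
      have h1 : W ≤ m * D * (28 * L) := by
        rw [hW]; gcongr; linarith
      nlinarith
    have w2 : √W ≤ m / 256 := by
      rw [← Real.sqrt_sq (by positivity : (0 : ℝ) ≤ m / 256)]; exact Real.sqrt_le_sqrt w1
    have w3 : (m : ℝ) * D + 1 ≤ Real.exp (2 * √W) := by
      refine le_trans ?_ (one_add_le_exp_sqrt W (by positivity))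
      rw [hW]; nlinarith
    have w4 : (2 : ℝ) ^ m ≤ Real.exp (138 * √W) := by
      refine h.trans ((mul_le_mul_of_nonneg_right w3 (Real.exp_pos _).le).trans (le_of_eq ?_))
      rw [← Real.exp_add]; congr 1; ring
    rw [← Real.exp_log (by norm_num : (0 : ℝ) < 2), ← Real.exp_nat_mul, Real.exp_le_exp] at w4
    nlinarith
  · rw [hN, hδ, div_div, add_le_add_iff_left]
    apply one_div_le_one_div_of_le (by positivity)
    linarith
  · intro p hp
    obtain ⟨h1, h2, h3, h4, h5⟩ := hS p (hT hp)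
    refine ⟨h1, h2, h3, h4, fun x hx => ?_⟩
    obtain ⟨h6, h7⟩ := h5 x hx
    rw [abs_le]
    constructor <;> linarith

end Pool.Agent.Lib.MP_1e748d_nt
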