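import Mathlib

/-! Scaled Chebyshev basis and the choice of the coefficients by an exponential potential. -/

set_option autoImplicit false

namespace Pool.Agent.Lib.MP_1e748d_nt.Tt

open Polynomial Finset Real

/-- Monic Chebyshev polynomials of the interval with centre `c` and half length `2 √q`. -/
noncomputable def cheb (c q : ℝ) : ℕ → ℝ[X]
  | 0 => C 2
  | 1 => X - C c
  | m + 2 => (X - C c) * cheb c q (m + 1) - C q * cheb c q m

lemma cheb_eval (c ρ θ : ℝ) : ∀ m : ℕ,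
    (cheb c (ρ ^ 2) m).eval (c + 2 * ρ * cos θ) = 2 * ρ ^ m * cos (m * θ)
  | 0 => by simp [cheb]
  | 1 => by simp [cheb]
  | m + 2 => by
    have h1 := cheb_eval c ρ θ (m + 1)
    have h0 := cheb_eval c ρ θ m
    simp only [cheb, eval_sub, eval_mul, eval_X, eval_C, h1, h0]
    have e1 : ((m + 2 : ℕ) : ℝ) * θ = ((m + 1 : ℕ) : ℝ) * θ + θ := by push_cast; ring
    have e2 : (m : ℝ) * θ = ((m + 1 : ℕ) : ℝ) * θ - θ := by push_cast; ring
    rw [e1, e2, cos_add, cos_sub]
    ring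

lemma cheb_hi (c q : ℝ) : ∀ m j : ℕ, m < j → (cheb c q m).coeff j = 0
  | 0, j, h => by rw [cheb, coeff_C, if_neg (by omega)]
  | 1, j, h => by
    rw [cheb, coeff_sub, coeff_C, if_neg (by omega), coeff_X_of_ne_one (by omega), sub_zero]
  | m + 2, j, h => by
    obtain ⟨i, rfl⟩ : ∃ i, j = i + 1 := ⟨j - 1, by omega⟩
    rw [cheb, sub_mul, coeff_sub, coeff_sub, coeff_X_mul, coeff_C_mul, coeff_C_mul,
      cheb_hi c q (m + 1) i (by omega), cheb_hi c q (m + 1) (i + 1) (by omega),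
      cheb_hi c q m (i + 1) (by omega)]
    ring

lemma cheb_top (c q : ℝ) : ∀ m : ℕ, (cheb c q (m + 1)).coeff (m + 1) = 1
  | 0 => by simp [cheb]
  | m + 1 => by
    rw [cheb, sub_mul, coeff_sub, coeff_sub, coeff_X_mul, coeff_C_mul, coeff_C_mul,
      cheb_top c q m, cheb_hi c q (m + 1) _ (by omega), cheb_hi c q m _ (by omega)]
    ring

/-- The polynomial with the coefficients of `H` as coordinates in the Chebyshev basis. -/
noncomputable def Phi (c q : ℝ) (n : ℕ) (H : ℝ[X]) : ℝ[X] :=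
  ∑ k ∈ range n, C (H.coeff k) * cheb c q (n - k)

lemma Phi_hi (c q : ℝ) (n : ℕ) (H : ℝ[X]) {j : ℕ} (hj : n < j) : (Phi c q n H).coeff j = 0 := by
  rw [Phi, finsetSum_coeff]
  exact sum_eq_zero fun k _ => by rw [coeff_C_mul, cheb_hi c q _ _ (by omega), mul_zero]

lemma Phi_coeff (c q : ℝ) {n j : ℕ} (hj : j < n) (H : ℝ[X]) :
    (Phi c q n H).coeff (n - j) =
      ∑ k ∈ range j, H.coeff k * (cheb c q (n - k)).coeff (n - j) + H.coeff j := by
  rw [Phi, finsetSum_coeff, ← sum_range_add_sum_Ico _ (show j + 1 ≤ n from hj), sum_range_succ,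
    sum_eq_zero (s := Ico (j + 1) n), add_zero]
  · simp only [coeff_C_mul]
    obtain ⟨i, hi⟩ : ∃ i, n - j = i + 1 := ⟨n - j - 1, by omega⟩
    rw [show (cheb c q (n - j)).coeff (n - j) = 1 by rw [hi, cheb_top], mul_one]
  · intro k hk
    rw [mem_Ico] at hk
    rw [coeff_C_mul, cheb_hi c q _ _ (by omega), mul_zero]

/-- The product that replaces `exp (∑ b j u ^ (j + 1))`. -/
noncomputable def Hp (m : ℕ) (b : ℕ → ℝ) (k : ℕ) : ℝ[X] :=
  ∏ j ∈ range k, (1 + C (b j / m) * X ^ (j + 1)) ^ m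

lemma Hp_zero (m : ℕ) (b : ℕ → ℝ) (k : ℕ) : (Hp m b k).coeff 0 = 1 := by
  simp [Hp, coeff_zero_eq_eval_zero, eval_prod]

lemma step_coeff {m : ℕ} (hm : m ≠ 0) (H : ℝ[X]) (h0 : H.coeff 0 = 1) (β : ℝ) (k : ℕ) {j : ℕ}
    (hj : j ≤ k + 1) : (H * (1 + C (β / m) * X ^ (k + 1)) ^ m).coeff j =
      H.coeff j + if j = k + 1 then β else 0 := by
  obtain ⟨Q, hQ⟩ := sq_dvd_add_pow_sub_sub (C (β / m) * X ^ (k + 1) : ℝ[X]) 1 m
  have hm' : (m : ℝ) ≠ 0 := by exact_mod_cast hm
  have h1 : (C (β / m) * (m : ℝ[X])) = C β := by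
    rw [← C_eq_natCast, ← C_mul, div_mul_cancel₀ _ hm']
  have h2 : H * (1 + C (β / m) * X ^ (k + 1)) ^ m =
      H + C β * (X ^ (k + 1) * H) + X ^ (k + 2) * (H * C (β / m) ^ 2 * X ^ k * Q) := by
    rw [one_pow, one_pow] at hQ
    rw [← h1]
    linear_combination H * hQ
  rw [h2, coeff_add, coeff_add, coeff_C_mul, coeff_X_pow_mul', coeff_X_pow_mul',
    if_neg (show ¬ k + 2 ≤ j by omega), add_zero]
  by_cases h : j = k + 1
  · rw [if_pos h, if_pos h.ge, h, Nat.sub_self, h0, mul_one]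
  · rw [if_neg h, if_neg (by omega), mul_zero]

lemma two_point {ι : Type} [Fintype ι] (A s : ι → ℝ) (hA : ∀ i, 0 ≤ A i) {σ t : ℝ}
    (hs : ∀ i, |s i| ≤ σ) (hσ : σ ≤ 1 / 2) (h0 : 0 ≤ t) (h2 : t ≤ 2) :
    ∃ β, (β = t ∨ β = t - 2) ∧ ∑ i, A i * exp (β * s i) ≤ exp (σ ^ 2) * ∑ i, A i := by
  have key : ∀ i, (2 - t) / 2 * exp (t * s i) + t / 2 * exp ((t - 2) * s i) ≤ exp (σ ^ 2) := by
    intro i
    have b1 : |t * s i| ≤ 1 := by
      rw [abs_mul, abs_of_nonneg h0]; nlinarith [hs i, abs_nonneg (s i)]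
    have b2 : |(t - 2) * s i| ≤ 1 := by
      rw [abs_mul, abs_of_nonpos (by linarith)]; nlinarith [hs i, abs_nonneg (s i)]
    have e1 := (abs_le.1 (abs_exp_sub_one_sub_id_le b1)).2
    have e2 := (abs_le.1 (abs_exp_sub_one_sub_id_le b2)).2
    have e3 : s i ^ 2 ≤ σ ^ 2 := by
      rw [← sq_abs]; exact pow_le_pow_left₀ (abs_nonneg _) (hs i) 2
    have e4 := add_one_le_exp (σ ^ 2)
    have f1 := mul_le_mul_of_nonneg_left e1 (show 0 ≤ (2 - t) / 2 by linarith)
    have f2 := mul_le_mul_of_nonneg_left e2 (show 0 ≤ t / 2 by linarith)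
    nlinarith [mul_nonneg (sq_nonneg (t - 1)) (sq_nonneg (s i))]
  by_contra hc
  push Not at hc
  have c1 := hc t (Or.inl rfl)
  have c2 := hc (t - 2) (Or.inr rfl)
  have h3 : (2 - t) / 2 * ∑ i, A i * exp (t * s i) + t / 2 * ∑ i, A i * exp ((t - 2) * s i) ≤
      exp (σ ^ 2) * ∑ i, A i := by
    rw [mul_sum, mul_sum, mul_sum, ← sum_add_distrib]
    exact sum_le_sum fun i _ => by nlinarith [mul_le_mul_of_nonneg_left (key i) (hA i)]
  rcases le_total t 1 with h | h
  · nlinarith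
  · nlinarith

theorem exists_b (c q : ℝ) {n m : ℕ} (hm : m ≠ 0) {ι : Type} [Fintype ι] (w : ι → ℕ → ℝ)
    (σ : ℕ → ℝ) (hw : ∀ i j, |w i j| ≤ σ j) (hσ : ∀ j, σ j ≤ 1 / 2) (k : ℕ) (hk : k < n) :
    ∃ b : ℕ → ℝ, (∀ j, |b j| ≤ 2) ∧
      (∀ j < k, ∃ z : ℤ, (Phi c q n (Hp m b k)).coeff (n - (j + 1)) = 2 * z) ∧
      ∑ i, exp (∑ j ∈ range k, b j * w i j) ≤
        exp (∑ j ∈ range k, σ j ^ 2) * Fintype.card ι := by
  induction k with
  | zero => exact ⟨fun _ => 0, by simp, by simp, by simp⟩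
  | succ k ih =>
    obtain ⟨b, hb, hz, hp⟩ := ih (by omega)
    set y := (Phi c q n (Hp m b k)).coeff (n - (k + 1)) with hy
    obtain ⟨β, hβ, hβ'⟩ := two_point (fun i => exp (∑ j ∈ range k, b j * w i j))
      (fun i => w i k) (fun i => (exp_pos _).le) (fun i => hw i k) (hσ k)
      (t := 2 * ⌈y / 2⌉ - y) (by linarith [Int.le_ceil (y / 2)])
      (by linarith [Int.ceil_lt_add_one (y / 2)])
    have hu : ∀ j ∈ range k, Function.update b k β j = b j := fun j hj =>
      Function.update_of_ne (mem_range.1 hj).ne _ _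
    have hH : Hp m (Function.update b k β) (k + 1) =
        Hp m b k * (1 + C (β / m) * X ^ (k + 1)) ^ m := by
      rw [Hp, prod_range_succ, Function.update_self, Hp]
      congr 1
      exact prod_congr rfl fun j hj => by rw [hu j hj]
    have hc : ∀ j ≤ k, (Phi c q n (Hp m (Function.update b k β) (k + 1))).coeff (n - (j + 1)) =
        (Phi c q n (Hp m b k)).coeff (n - (j + 1)) + if j = k then β else 0 := by
      intro j hj
      rw [Phi_coeff c q (by omega), Phi_coeff c q (by omega), hH,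
        step_coeff hm _ (Hp_zero m b k) β k (by omega), add_assoc]
      congr 1
      · refine sum_congr rfl fun i hi => ?_
        rw [mem_range] at hi
        rw [step_coeff hm _ (Hp_zero m b k) β k (by omega), if_neg (by omega), add_zero]
      · simp
    refine ⟨Function.update b k β, fun j => ?_, fun j hj => ?_, ?_⟩
    · by_cases h : j = k
      · rw [h, Function.update_self, abs_le]
        have := Int.le_ceil (y / 2)
        have := Int.ceil_lt_add_one (y / 2)
        rcases hβ with h | h <;> constructor <;> linarith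
      · rw [Function.update_of_ne h]; exact hb j
    · rw [hc j (by omega)]
      by_cases h : j = k
      · rw [if_pos h, h, ← hy]
        rcases hβ with h | h
        · exact ⟨⌈y / 2⌉, by rw [h]; ring⟩
        · exact ⟨⌈y / 2⌉ - 1, by rw [h]; push_cast; ring⟩
      · rw [if_neg h, add_zero]
        exact hz j (by omega)
    · have h1 : ∀ i, exp (∑ j ∈ range (k + 1), Function.update b k β j * w i j) =
          exp (∑ j ∈ range k, b j * w i j) * exp (β * w i k) := by
        intro i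
        rw [sum_range_succ, exp_add, Function.update_self,
          sum_congr rfl fun j hj => by rw [hu j hj]]
      rw [sum_congr rfl fun i _ => h1 i, sum_range_succ, exp_add]
      refine hβ'.trans ?_
      nlinarith [mul_le_mul_of_nonneg_left hp (exp_pos (σ k ^ 2)).le]

end Pool.Agent.Lib.MP_1e748d_nt.Tt
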