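import Pool.Agent.Lib.MP_1e748d_nt.TtA

/-! The product `Hp` on two circles: size, coefficients, tail and signs. -/

set_option autoImplicit false

namespace Pool.Agent.Lib.MP_1e748d_nt.Tt

open Polynomial Finset Real

/-- Real part of `∑ b j u ^ (j + 1)` at `u = σ exp (i θ)`. -/
noncomputable def Cs (b : ℕ → ℝ) (k : ℕ) (σ θ : ℝ) : ℝ :=
  ∑ j ∈ range k, b j * (σ ^ (j + 1) * cos ((j + 1 : ℕ) * θ))

/-- Imaginary part of `∑ b j u ^ (j + 1)` at `u = σ exp (i θ)`. -/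
noncomputable def Sn (b : ℕ → ℝ) (k : ℕ) (σ θ : ℝ) : ℝ :=
  ∑ j ∈ range k, b j * (σ ^ (j + 1) * sin ((j + 1 : ℕ) * θ))

lemma Hp_exp {n k : ℕ} (hn : 0 < n) (hk : k ≤ n) {b : ℕ → ℝ} (hb : ∀ j, |b j| ≤ 2) {u : ℂ}
    (hu : ‖u‖ ≤ 1) : ∃ R : ℂ, ‖R‖ ≤ 1 / 10 ∧ aeval u (Hp (40 * n) b k) =
      Complex.exp (∑ j ∈ range k, (b j : ℂ) * u ^ (j + 1) + R) := by
  set m : ℕ := 40 * n with hm
  have hn' : (1 : ℝ) ≤ n := by exact_mod_cast hn
  have hm' : (m : ℝ) = 40 * n := by rw [hm]; push_cast; ring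
  have hm0 : (0 : ℝ) < m := by linarith
  let z : ℕ → ℂ := fun j => ((b j / m : ℝ) : ℂ) * u ^ (j + 1)
  have hz : ∀ j, ‖z j‖ ≤ 2 / m := fun j => by
    rw [norm_mul, Complex.norm_real, norm_pow, Real.norm_eq_abs, abs_div, abs_of_pos hm0]
    exact (mul_le_of_le_one_right (by positivity) (pow_le_one₀ (norm_nonneg _) hu)).trans
      (by gcongr; exact hb j)
  have h2 : (2 : ℝ) / m ≤ 1 / 2 := by rw [div_le_div_iff₀ hm0 (by norm_num)]; linarith
  have hl : ∀ j, ‖(m : ℂ) * (Complex.log (1 + z j) - z j)‖ ≤ 4 / m := fun j => by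
    have h1 := Complex.norm_log_one_add_sub_self_le (z := z j) (by linarith [hz j])
    have h3 : (1 - ‖z j‖)⁻¹ ≤ 2 := by
      rw [inv_le_comm₀ (by linarith [hz j]) (by norm_num)]; linarith [hz j]
    have h4 : ‖z j‖ ^ 2 ≤ (2 / m) ^ 2 := pow_le_pow_left₀ (norm_nonneg _) (hz j) 2
    have h5 : ‖Complex.log (1 + z j) - z j‖ ≤ (2 / m) ^ 2 := by
      nlinarith [mul_le_mul_of_nonneg_left h3 (sq_nonneg ‖z j‖)]
    rw [norm_mul, Complex.norm_natCast]
    calc (m : ℝ) * _ ≤ m * (2 / m) ^ 2 := by gcongr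
      _ = 4 / m := by field_simp; norm_num
  refine ⟨∑ j ∈ range k, (m : ℂ) * (Complex.log (1 + z j) - z j), ?_, ?_⟩
  · refine (norm_sum_le _ _).trans ((sum_le_card_nsmul _ _ _ fun j _ => hl j).trans ?_)
    have hk' : (k : ℝ) ≤ n := by exact_mod_cast hk
    rw [card_range, nsmul_eq_mul, ← mul_div_assoc, div_le_div_iff₀ hm0 (by norm_num)]
    linarith
  · rw [← sum_add_distrib, Complex.exp_sum, Hp, map_prod]
    refine prod_congr rfl fun j _ => ?_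
    have h0 : 1 + z j ≠ 0 := fun h => by
      have h1 : z j = -1 := by linear_combination h
      have := hz j
      rw [h1, norm_neg, norm_one] at this
      linarith
    have hmc : (m : ℂ) ≠ 0 := by exact_mod_cast hm0.ne'
    have e : (b j : ℂ) * u ^ (j + 1) + m * (Complex.log (1 + z j) - z j) =
        m * Complex.log (1 + z j) := by
      simp only [z]
      push_cast
      field_simp
      ring
    rw [e, Complex.exp_nat_mul, Complex.exp_log h0]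
    simp [z]

lemma pow_polar (σ θ : ℝ) (k : ℕ) : ((σ : ℂ) * Complex.exp (θ * Complex.I)) ^ k =
    ((σ ^ k : ℝ) : ℂ) * Complex.exp ((k * θ : ℝ) * Complex.I) := by
  rw [mul_pow, ← Complex.exp_nat_mul]
  push_cast
  rw [mul_assoc]

lemma Hp_polar {n k : ℕ} (hn : 0 < n) (hk : k ≤ n) {b : ℕ → ℝ} (hb : ∀ j, |b j| ≤ 2) {σ : ℝ}
    (h0 : 0 ≤ σ) (h1 : σ ≤ 1) (θ : ℝ) : ∃ x y : ℝ, |x| ≤ 1 / 10 ∧ |y| ≤ 1 / 10 ∧
      aeval ((σ : ℂ) * Complex.exp (θ * Complex.I)) (Hp (40 * n) b k) =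
        (exp (Cs b k σ θ + x) : ℝ) * Complex.exp ((Sn b k σ θ + y : ℝ) * Complex.I) := by
  obtain ⟨R, hR, h⟩ := Hp_exp hn hk hb (u := (σ : ℂ) * Complex.exp (θ * Complex.I)) (by
    rwa [norm_mul, Complex.norm_exp_ofReal_mul_I, mul_one, Complex.norm_real, Real.norm_eq_abs,
      abs_of_nonneg h0])
  refine ⟨R.re, R.im, (Complex.abs_re_le_norm R).trans hR, (Complex.abs_im_le_norm R).trans hR, ?_⟩
  rw [h, Complex.ofReal_exp, ← Complex.exp_add]
  congr 1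
  have e1 : (∑ j ∈ range k, (b j : ℂ) * ((σ : ℂ) * Complex.exp (θ * Complex.I)) ^ (j + 1)).re =
      Cs b k σ θ := by
    rw [Complex.re_sum]
    exact sum_congr rfl fun j _ => by
      rw [pow_polar, Complex.re_ofReal_mul, Complex.re_ofReal_mul, Complex.exp_ofReal_mul_I_re]
  have e2 : (∑ j ∈ range k, (b j : ℂ) * ((σ : ℂ) * Complex.exp (θ * Complex.I)) ^ (j + 1)).im =
      Sn b k σ θ := by
    rw [Complex.im_sum]
    exact sum_congr rfl fun j _ => by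
      rw [pow_polar, Complex.im_ofReal_mul, Complex.im_ofReal_mul, Complex.exp_ofReal_mul_I_im]
  rw [← e1, ← e2, ← Complex.add_re, ← Complex.add_im, Complex.re_add_im]

lemma coeff_le (H : ℝ[X]) {r B : ℝ} (hr : 0 ≤ r)
    (hB : ∀ θ : ℝ, |θ| ≤ π → ‖aeval ((r : ℂ) * Complex.exp (θ * Complex.I)) H‖ ≤ B) (k : ℕ) :
    |H.coeff k| * r ^ k ≤ B := by
  have hB0 : 0 ≤ B := (norm_nonneg _).trans (hB 0 (by simp [pi_pos.le]))
  set p : ℂ[X] := (H.map (algebraMap ℝ ℂ)).comp (C (r : ℂ) * X) with hp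
  have h1 : ‖p.coeff k‖ = |H.coeff k| * r ^ k := by
    rw [hp, comp_C_mul_X_coeff, coeff_map, norm_mul, norm_pow, Complex.coe_algebraMap,
      Complex.norm_real, Complex.norm_real, Real.norm_eq_abs, Real.norm_eq_abs, abs_of_nonneg hr]
  have h2 : ‖p.coeff k‖ ^ 2 ≤ ∑ i ∈ p.support, ‖p.coeff i‖ ^ 2 := by
    by_cases h : k ∈ p.support
    · exact single_le_sum (f := fun i => ‖p.coeff i‖ ^ 2) (fun i _ => by positivity) h
    · rw [notMem_support_iff.1 h]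
      simpa using sum_nonneg fun i _ => by positivity
  have h3 : circleAverage (fun θ => ‖p.eval θ‖ ^ 2) 0 1 ≤ B ^ 2 := by
    refine circleAverage_mono_on_of_le_circle
      (ContinuousOn.circleIntegrable (by norm_num) (by fun_prop)) fun z hz => ?_
    have hz1 : ‖z‖ = 1 := by simpa using hz
    have h4 := hB z.arg (Complex.abs_arg_le_pi z)
    have h5 := Complex.norm_mul_exp_arg_mul_I z
    rw [hz1, Complex.ofReal_one, one_mul] at h5
    rw [h5] at h4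
    refine pow_le_pow_left₀ (norm_nonneg _) ?_ 2
    rwa [hp, eval_comp, eval_mul, eval_C, eval_X, eval_map_algebraMap]
  rw [sum_sq_norm_coeff_eq_circleAverage, h1] at h2
  exact (pow_le_pow_iff_left₀ (by positivity) hB0 two_ne_zero).1 (h2.trans h3)

lemma tail (H : ℝ[X]) (n : ℕ) {r B x : ℝ} (hc : ∀ k, |H.coeff k| * r ^ k ≤ B)
    (hx0 : 0 ≤ x) (hx : x < 1) {u : ℂ} (hu : ‖u‖ = r * x) :
    ‖aeval u H - ∑ k ∈ range n, (H.coeff k : ℂ) * u ^ k‖ ≤ B * (x ^ n / (1 - x)) := by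
  have hB0 : 0 ≤ B := le_trans (by positivity) (hc 0)
  rw [aeval_eq_sum_range' (n := n + (H.natDegree + 1)) (by omega),
    ← sum_range_add_sum_Ico _ (Nat.le_add_right n _)]
  simp only [Complex.real_smul]
  rw [add_sub_cancel_left]
  refine (norm_sum_le _ _).trans (le_trans ?_
    (mul_le_mul_of_nonneg_left (geom_sum_Ico_le_of_lt_one (n := n + (H.natDegree + 1)) hx0 hx) hB0))
  rw [mul_sum]
  refine sum_le_sum fun k _ => ?_
  rw [norm_mul, norm_pow, hu, mul_pow, ← mul_assoc, Complex.norm_real, Real.norm_eq_abs]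
  exact mul_le_mul_of_nonneg_right (hc k) (by positivity)

lemma Phi_eval (c : ℝ) {ρ : ℝ} (hρ : ρ ≠ 0) (n : ℕ) (H : ℝ[X]) (θ : ℝ) :
    (Phi c (ρ ^ 2) n H).eval (c + 2 * ρ * cos θ) = 2 * ρ ^ n *
      (Complex.exp ((-(n * θ) : ℝ) * Complex.I) * ∑ k ∈ range n,
        (H.coeff k : ℂ) * (((ρ⁻¹ : ℝ) : ℂ) * Complex.exp (θ * Complex.I)) ^ k).re := by
  rw [Phi, eval_finsetSum, mul_sum, Complex.re_sum, mul_sum]
  refine sum_congr rfl fun k hk => ?_
  obtain ⟨i, rfl⟩ : ∃ i, n = k + i := ⟨n - k, by have := mem_range.1 hk; omega⟩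
  rw [eval_mul, eval_C, cheb_eval, pow_polar, mul_left_comm (Complex.exp _),
    mul_left_comm (Complex.exp _), ← Complex.exp_add, ← add_mul, ← Complex.ofReal_add,
    Complex.re_ofReal_mul, Complex.re_ofReal_mul, Complex.exp_ofReal_mul_I_re,
    Nat.add_sub_cancel_left, show -(((k + i : ℕ) : ℝ) * θ) + k * θ = -(i * θ) by push_cast; ring,
    cos_neg, pow_add, inv_pow]
  field_simp

theorem sign (c : ℝ) {n k : ℕ} (hn : 0 < n) (hk : k ≤ n) {b : ℕ → ℝ} (hb : ∀ j, |b j| ≤ 2)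
    {ρ r x M : ℝ} (hρ : 1 ≤ ρ) (hr0 : 0 ≤ r) (hr : r ≤ 1) (hx0 : 0 ≤ x) (hx : x < 1)
    (hrx : ρ⁻¹ = r * x) (hM : ∀ θ, |θ| ≤ π → Cs b k r θ ≤ M) {θ : ℝ} (hM' : -M ≤ Cs b k ρ⁻¹ θ)
    {j : ℕ} (hj : n * θ - Sn b k ρ⁻¹ θ = j * π) :
    2 * ρ ^ n * (exp (-M - 1 / 10) / 2 - exp (M + 1 / 10) * (x ^ n / (1 - x))) ≤
      (-1) ^ j * (Phi c (ρ ^ 2) n (Hp (40 * n) b k)).eval (c + 2 * ρ * cos θ) := by
  have hρ0 : 0 < ρ := by linarith
  have hc := coeff_le (Hp (40 * n) b k) (B := exp (M + 1 / 10)) hr0 fun t ht => by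
    obtain ⟨p, q, hp, -, h⟩ := Hp_polar hn hk hb hr0 hr t
    rw [h, norm_mul, Complex.norm_exp_ofReal_mul_I, mul_one, Complex.norm_real, Real.norm_eq_abs,
      abs_exp]
    exact exp_le_exp.2 (by linarith [hM t ht, (abs_le.1 hp).2])
  have ht := tail (Hp (40 * n) b k) n hc hx0 hx
    (u := ((ρ⁻¹ : ℝ) : ℂ) * Complex.exp (θ * Complex.I)) (by
      rw [norm_mul, Complex.norm_exp_ofReal_mul_I, mul_one, Complex.norm_real, Real.norm_eq_abs,
        abs_of_nonneg (by positivity), hrx])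
  obtain ⟨p, q, hp, hq, h⟩ := Hp_polar hn hk hb (σ := ρ⁻¹) (by positivity)
    (inv_le_one_of_one_le₀ hρ) θ
  rw [Phi_eval c hρ0.ne', mul_left_comm]
  refine mul_le_mul_of_nonneg_left ?_ (by positivity)
  set T := ∑ k' ∈ range n, ((Hp (40 * n) b k).coeff k' : ℂ) *
    (((ρ⁻¹ : ℝ) : ℂ) * Complex.exp (θ * Complex.I)) ^ k' with hT
  set A := aeval (((ρ⁻¹ : ℝ) : ℂ) * Complex.exp (θ * Complex.I)) (Hp (40 * n) b k) with hA
  set E := Complex.exp ((-(n * θ) : ℝ) * Complex.I) with hE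
  have h1 : (E * A).re = exp (Cs b k ρ⁻¹ θ + p) * cos (q - j * π) := by
    rw [h, hE, mul_left_comm, ← Complex.exp_add, ← add_mul, ← Complex.ofReal_add,
      Complex.re_ofReal_mul, Complex.exp_ofReal_mul_I_re]
    congr 2
    linarith
  have h2 : |(E * (A - T)).re| ≤ exp (M + 1 / 10) * (x ^ n / (1 - x)) := by
    refine (Complex.abs_re_le_norm _).trans ?_
    rwa [norm_mul, hE, Complex.norm_exp_ofReal_mul_I, one_mul]
  have h3 : (E * T).re = (E * A).re - (E * (A - T)).re := by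
    rw [← Complex.sub_re]; congr 1; ring
  have h4 : 1 / 2 ≤ cos q := by
    have := one_sub_sq_div_two_le_cos (x := q)
    nlinarith [abs_le.1 hq]
  have h5 : exp (-M - 1 / 10) ≤ exp (Cs b k ρ⁻¹ θ + p) :=
    exp_le_exp.2 (by linarith [(abs_le.1 hp).1])
  have h6 : exp (-M - 1 / 10) / 2 ≤ exp (Cs b k ρ⁻¹ θ + p) * cos q := by
    nlinarith [exp_pos (-M - 1 / 10)]
  rw [h3, h1, cos_sub_nat_mul_pi]
  rcases neg_one_pow_eq_or ℝ j with e | e <;> rw [e] <;> linarith [abs_le.1 h2]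

end Pool.Agent.Lib.MP_1e748d_nt.Tt
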