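import Pool.Agent.Lib.MP_1e748d_nt.TtB

/-! Sign changes, the grid, Eisenstein and the numerical choice of the parameters. -/

set_option autoImplicit false

namespace Pool.Agent.Lib.MP_1e748d_nt.Tt

open Polynomial Finset Real

lemma angles {φ : ℝ → ℝ} (hφ : Continuous φ) {n : ℕ} (h0 : φ 0 = 0) (h1 : φ π = n * π) :
    ∃ θ : ℕ → ℝ, (∀ j ≤ n, θ j ∈ Set.Icc 0 π ∧ φ (θ j) = j * π) ∧ ∀ j < n, θ j < θ (j + 1) := by
  have step : ∀ (j : ℕ) (t : ℝ), ∃ t', j < n → t ∈ Set.Icc 0 π → φ t = j * π →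
      t < t' ∧ t' ≤ π ∧ φ t' = (j + 1 : ℕ) * π := by
    intro j t
    by_cases h : j < n ∧ t ∈ Set.Icc 0 π ∧ φ t = j * π
    · obtain ⟨hj, ht, e⟩ := h
      have hj' : ((j + 1 : ℕ) : ℝ) ≤ n := by exact_mod_cast hj
      obtain ⟨t', h2, h3⟩ := intermediate_value_Ioc ht.2 hφ.continuousOn
        (show ((j + 1 : ℕ) : ℝ) * π ∈ Set.Ioc (φ t) (φ π) by
          rw [e, h1]
          exact ⟨by push_cast; linarith [pi_pos], by gcongr⟩)
      exact ⟨t', fun _ _ _ => ⟨h2.1, h2.2, h3⟩⟩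
    · exact ⟨0, fun a b c => absurd ⟨a, b, c⟩ h⟩
  choose f hf using step
  let θ : ℕ → ℝ := fun j => Nat.rec 0 f j
  have hθ : ∀ j ≤ n, θ j ∈ Set.Icc 0 π ∧ φ (θ j) = j * π := by
    intro j hj
    induction j with
    | zero => exact ⟨⟨le_rfl, pi_pos.le⟩, by rw [Nat.cast_zero, zero_mul]; exact h0⟩
    | succ j ih =>
      obtain ⟨a, b⟩ := ih (by omega)
      obtain ⟨c, d, e⟩ := hf j (θ j) hj a b
      exact ⟨⟨a.1.trans c.le, d⟩, e⟩
  exact ⟨θ, hθ, fun j hj => (hf j (θ j) hj (hθ j hj.le).1 (hθ j hj.le).2).1⟩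

lemma roots_of_signs {P : ℝ[X]} (hP : P ≠ 0) {n : ℕ} (hn : P.natDegree = n) (x : ℕ → ℝ)
    {A B : ℝ} (hx : ∀ j < n, x (j + 1) < x j) (hI : ∀ j ≤ n, x j ∈ Set.Icc A B)
    (hs : ∀ j ≤ n, 0 < (-1) ^ j * P.eval (x j)) :
    Multiset.card P.roots = n ∧ ∀ y ∈ P.roots, y ∈ Set.Icc A B := by
  have h1 : ∀ j, ∃ y, j < n → y ∈ Set.Ioo (x (j + 1)) (x j) ∧ P.eval y = 0 := by
    intro j
    by_cases hj : j < n
    · have a := hs j hj.le
      have b := hs (j + 1) hj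
      obtain ⟨y, h2, h3⟩ := intermediate_value_Ioo (f := fun t => (-1) ^ j * P.eval t)
        (hx j hj).le (by fun_prop) (show (0 : ℝ) ∈ Set.Ioo _ _ from
          ⟨by rw [pow_succ] at b; linarith, a⟩)
      exact ⟨y, fun _ => ⟨h2, (mul_eq_zero.1 h3).resolve_left (by positivity)⟩⟩
    · exact ⟨0, fun a => absurd a hj⟩
  choose y hy using h1
  have h2 : ∀ i j, i < j → j < n → y j < y i := by
    intro i j hij hj
    induction j, hij using Nat.le_induction with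
    | base => linarith [(hy i (by omega)).1.1, (hy (i + 1) hj).1.2]
    | succ j _ ih => linarith [ih (by omega), (hy j (by omega)).1.1, (hy (j + 1) hj).1.2]
  have h3 : ((range n).image y).card = n := by
    rw [card_image_of_injOn, card_range]
    intro i hi j hj e
    rw [coe_range, Set.mem_Iio] at hi hj
    rcases lt_trichotomy i j with h | h | h
    · exact absurd e (h2 i j h hj).ne'
    · exact h
    · exact absurd e (h2 j i h hi).ne
  have h4 : ((range n).image y).val ≤ P.roots := by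
    rw [val_le_iff_val_subset]
    intro z hz
    obtain ⟨j, hj, rfl⟩ := mem_image.1 (mem_def.2 hz)
    exact (mem_roots hP).2 (hy j (mem_range.1 hj)).2
  have h5 := Multiset.eq_of_le_of_card_le h4 ((card_roots' P).trans (hn.trans h3.symm).le)
  refine ⟨by rw [← h5]; exact h3, fun z hz => ?_⟩
  rw [← h5] at hz
  obtain ⟨j, hj, rfl⟩ := mem_image.1 (mem_def.2 hz)
  rw [mem_range] at hj
  exact ⟨(hI (j + 1) hj).1.trans (hy j hj).1.1.le, (hy j hj).1.2.le.trans (hI j hj.le).2⟩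

lemma eis {P : ℝ[X]} {n : ℕ} (hn : 0 < n) (hi : ∀ j, n < j → P.coeff j = 0) (ht : P.coeff n = 1)
    (he : ∀ j, 0 < j → j < n → ∃ z : ℤ, P.coeff j = 2 * z) (h0 : ∃ z : ℤ, P.coeff 0 = 4 * z + 2) :
    ∃ f : ℤ[X], f.Monic ∧ Irreducible f ∧ f.natDegree = n ∧ f.map (algebraMap ℤ ℝ) = P := by
  have hd : P.natDegree ≤ n := natDegree_le_iff_coeff_eq_zero.2 hi
  have hm : P.Monic := monic_of_natDegree_le_of_coeff_eq_one n hd ht
  have hd' : P.natDegree = n := natDegree_eq_of_le_of_coeff_ne_zero hd (by rw [ht]; norm_num)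
  obtain ⟨z0, h0⟩ := h0
  have hl : P ∈ lifts (algebraMap ℤ ℝ) := by
    rw [lifts_iff_coeff_lifts]
    intro j
    rcases lt_trichotomy j n with h | h | h
    · rcases Nat.eq_zero_or_pos j with rfl | h'
      · exact ⟨4 * z0 + 2, by simp [h0]⟩
      · obtain ⟨z, hz⟩ := he j h' h
        exact ⟨2 * z, by simp [hz]⟩
    · exact ⟨1, by simp [h, ht]⟩
    · exact ⟨0, by simp [hi j h]⟩
  obtain ⟨f, hf, hfd, hfm⟩ := lifts_and_natDegree_eq_and_monic hl hm
  have hc : ∀ j, (f.coeff j : ℝ) = P.coeff j := fun j => by rw [← hf, coeff_map]; simp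
  have c0 : f.coeff 0 = 4 * z0 + 2 := by
    have := (hc 0).trans h0
    exact_mod_cast this
  refine ⟨f, hfm, ?_, hfd.trans hd', hf⟩
  have hp : (Ideal.span {(2 : ℤ)}).IsPrime :=
    (Ideal.span_singleton_prime two_ne_zero).2 Int.prime_two
  refine (hfm.isEisensteinAt_of_mem_of_notMem hp.ne_top (fun {j} hj => ?_) ?_).irreducible hp
    hfm.isPrimitive (by omega)
  · rw [Ideal.mem_span_singleton]
    rcases Nat.eq_zero_or_pos j with rfl | h'
    · omega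
    · obtain ⟨z, hz⟩ := he j h' (by omega)
      have := (hc j).trans hz
      exact ⟨z, by exact_mod_cast this⟩
  · rw [Ideal.span_singleton_pow, Ideal.mem_span_singleton]
    omega

lemma Cs_lip {n k : ℕ} (hk : k ≤ n) {b : ℕ → ℝ} (hb : ∀ j, |b j| ≤ 2) {σ : ℝ} (h0 : 0 ≤ σ)
    (h1 : σ ≤ 1) (s t : ℝ) : |Cs b k σ s - Cs b k σ t| ≤ 2 * n ^ 2 * |s - t| := by
  rw [Cs, Cs, ← sum_sub_distrib]
  refine (abs_sum_le_sum_abs _ _).trans ((sum_le_card_nsmul _ _ (2 * (n * |s - t|))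
    fun j hj => ?_).trans ?_)
  · have hj' : ((j + 1 : ℕ) : ℝ) ≤ n := by exact_mod_cast (mem_range.1 hj).trans_le hk
    have h2 := abs_cos_sub_cos_le ((j + 1 : ℕ) * s) ((j + 1 : ℕ) * t)
    rw [← mul_sub, abs_mul, Nat.abs_cast] at h2
    rw [← mul_sub, ← mul_sub, abs_mul, abs_mul, abs_of_nonneg (pow_nonneg h0 _)]
    refine mul_le_mul (hb j) ?_ (by positivity) (by norm_num)
    exact (mul_le_of_le_one_left (abs_nonneg _) (pow_le_one₀ h0 h1)).trans
      (h2.trans (by gcongr))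
  · have hk' : (k : ℝ) ≤ n := by exact_mod_cast hk
    rw [card_range, nsmul_eq_mul]
    nlinarith [mul_le_mul_of_nonneg_right hk' (show 0 ≤ 2 * (n * |s - t|) by positivity)]

lemma grid {N : ℕ} (hN : 0 < N) {θ : ℝ} (h : |θ| ≤ π) :
    ∃ i : Fin N, |(|θ| - 4 * (i : ℕ) / N)| ≤ 4 / N := by
  have hN' : (0 : ℝ) < N := by exact_mod_cast hN
  have h0 : 0 ≤ |θ| * N / 4 := by positivity
  refine ⟨⟨⌊|θ| * N / 4⌋₊, (Nat.floor_lt h0).2 (by nlinarith [pi_lt_four])⟩, ?_⟩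
  have a := Nat.floor_le h0
  have b := Nat.lt_floor_add_one (|θ| * N / 4)
  have e : |θ| - 4 * (⌊|θ| * N / 4⌋₊ : ℝ) / N = (|θ| * N - 4 * ⌊|θ| * N / 4⌋₊) / N := by
    field_simp
  rw [e, abs_div, abs_of_pos hN']
  gcongr
  rw [abs_le]
  constructor <;> linarith

lemma Cs_abs (b : ℕ → ℝ) (k : ℕ) (σ θ : ℝ) : Cs b k σ |θ| = Cs b k σ θ :=
  sum_congr rfl fun j _ => by
    rw [← cos_abs (_ * θ), abs_mul, Nat.abs_cast]

theorem exists_small (c q : ℝ) {n : ℕ} (hn : 0 < n) {r s l L : ℝ} (hs0 : 0 ≤ s) (hs : s ≤ r)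
    (hr : r < 1) (hl0 : 0 < l) (hl : l ≤ 1 / 2) (hL : 16 * (n : ℝ) ^ 2 ≤ exp L) :
    ∃ b : ℕ → ℝ, (∀ j, |b j| ≤ 2) ∧
      (∀ j < n - 1, ∃ z : ℤ, (Phi c q n (Hp (40 * n) b (n - 1))).coeff (n - (j + 1)) = 2 * z) ∧
      ∀ θ, |θ| ≤ π → Cs b (n - 1) r θ ≤ L / l + l / (1 - r) + 1 ∧
        -(L / l + l / (1 - r) + 1) ≤ Cs b (n - 1) s θ := by
  have hr0 : 0 ≤ r := hs0.trans hs
  set N := 8 * n ^ 2 with hN
  let w : Bool × Fin N → ℕ → ℝ := fun i j => l * if i.1 then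
    r ^ (j + 1) * cos ((j + 1 : ℕ) * (4 * (i.2 : ℕ) / N))
    else -(s ^ (j + 1) * cos ((j + 1 : ℕ) * (4 * (i.2 : ℕ) / N)))
  have hcos : ∀ (t y : ℝ) (j : ℕ), 0 ≤ t → t ≤ r → |t ^ (j + 1) * cos y| ≤ r ^ (j + 1) :=
    fun t y j a b => by
      rw [abs_mul, abs_of_nonneg (pow_nonneg a _)]
      exact (mul_le_of_le_one_right (by positivity) (abs_cos_le_one y)).trans (by gcongr)
  obtain ⟨b, hb, hz, hp⟩ := exists_b c q (n := n) (m := 40 * n) (by omega) w
    (fun j => l * r ^ (j + 1)) (fun i j => by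
      simp only [w]
      rw [abs_mul, abs_of_pos hl0]
      refine mul_le_mul_of_nonneg_left ?_ hl0.le
      split_ifs
      · exact hcos r _ j hr0 le_rfl
      · rw [abs_neg]; exact hcos s _ j hs0 hs)
    (fun j => (mul_le_of_le_one_right hl0.le (pow_le_one₀ hr0 hr.le)).trans hl) (n - 1) (by omega)
  refine ⟨b, hb, hz, fun θ hθ => ?_⟩
  have h1 : ∑ j ∈ range (n - 1), (l * r ^ (j + 1)) ^ 2 ≤ l ^ 2 / (1 - r) := by
    have a := geom_sum_Ico_le_of_lt_one (m := 0) (n := n - 1) hr0 hr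
    rw [pow_zero, ← range_eq_Ico] at a
    rw [div_eq_mul_one_div]
    refine le_trans ?_ (mul_le_mul_of_nonneg_left a (sq_nonneg l))
    rw [mul_sum]
    refine sum_le_sum fun j _ => ?_
    rw [mul_pow, ← pow_mul]
    exact mul_le_mul_of_nonneg_left (pow_le_pow_of_le_one hr0 hr.le (by omega)) (sq_nonneg l)
  have h2 : ∀ i, ∑ j ∈ range (n - 1), b j * w i j ≤ l * (L / l + l / (1 - r)) := by
    intro i
    have a := (single_le_sum (f := fun i => exp (∑ j ∈ range (n - 1), b j * w i j))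
      (fun i _ => (exp_pos _).le) (mem_univ i)).trans hp
    have e : ((Fintype.card (Bool × Fin N) : ℕ) : ℝ) = 16 * (n : ℝ) ^ 2 := by
      rw [Fintype.card_prod, Fintype.card_bool, Fintype.card_fin, hN]; push_cast; ring
    rw [e] at a
    have a2 := a.trans (mul_le_mul (exp_le_exp.2 h1) hL (by positivity) (exp_pos _).le)
    rw [← exp_add, exp_le_exp] at a2
    refine a2.trans (le_of_eq ?_)
    field_simp
    ring
  obtain ⟨i, hi⟩ := grid (N := N) (by positivity) hθ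
  have h3 : 2 * (n : ℝ) ^ 2 * |(|θ| - 4 * (i : ℕ) / N)| ≤ 1 := by
    refine (mul_le_mul_of_nonneg_left hi (by positivity)).trans (le_of_eq ?_)
    have : (n : ℝ) ≠ 0 := by positivity
    rw [hN]; push_cast; field_simp; norm_num
  have l1 := (Cs_lip (Nat.sub_le n 1) hb hr0 hr.le |θ| (4 * (i : ℕ) / N)).trans h3
  have l2 := (Cs_lip (Nat.sub_le n 1) hb hs0 (hs.trans hr.le) |θ| (4 * (i : ℕ) / N)).trans h3
  rw [Cs_abs, abs_le] at l1 l2
  have e1 : ∑ j ∈ range (n - 1), b j * w (true, i) j = l * Cs b (n - 1) r (4 * (i : ℕ) / N) := by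
    rw [Cs, mul_sum]
    exact sum_congr rfl fun j _ => by simp only [w, if_true]; ring
  have e2 : ∑ j ∈ range (n - 1), b j * w (false, i) j =
      l * -Cs b (n - 1) s (4 * (i : ℕ) / N) := by
    rw [Cs, ← sum_neg_distrib, mul_sum]
    exact sum_congr rfl fun j _ => by simp only [w, Bool.false_eq_true, if_false]; ring
  have f1 := le_of_mul_le_mul_left (e1 ▸ h2 (true, i)) hl0
  have f2 := le_of_mul_le_mul_left (e2 ▸ h2 (false, i)) hl0
  constructor <;> linarith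

end Pool.Agent.Lib.MP_1e748d_nt.Tt
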