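import Pool.Agent.Lib.MP_1e748d_nt.TtC

/-! Small monic integer polynomials of every degree, and the numerical estimates. -/

set_option autoImplicit false

namespace Pool.Agent.Lib.MP_1e748d_nt.Tt

open Polynomial Finset Real

lemma exists_basis (c : ℝ) {ρ : ℝ} (hρ : 1 ≤ ρ) (k : ℕ) : ∃ B : ℝ[X], B.coeff k = 1 ∧
    (∀ j, k < j → B.coeff j = 0) ∧ ∀ θ, |B.eval (c + 2 * ρ * cos θ)| ≤ 2 * ρ ^ k := by
  rcases k with _ | k
  · exact ⟨1, by simp, fun j hj => by rw [coeff_one, if_neg (by omega)], by simp⟩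
  · refine ⟨cheb c (ρ ^ 2) (k + 1), cheb_top _ _ _, cheb_hi _ _ _, fun θ => ?_⟩
    rw [cheb_eval, abs_mul, abs_of_nonneg (by positivity)]
    exact mul_le_of_le_one_right (by positivity) (abs_cos_le_one _)

lemma exists_round (c : ℝ) {ρ : ℝ} (hρ : 1 ≤ ρ) (k : ℕ) : ∀ P : ℝ[X],
    (∀ j, k ≤ j → ∃ z : ℤ, P.coeff j = z) → ∃ F : ℝ[X], (∀ j, ∃ z : ℤ, F.coeff j = z) ∧
      (∀ j, k ≤ j → F.coeff j = P.coeff j) ∧ ∀ θ, |F.eval (c + 2 * ρ * cos θ)| ≤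
        |P.eval (c + 2 * ρ * cos θ)| + k * (2 * ρ ^ k) := by
  induction k with
  | zero => exact fun P h => ⟨P, fun j => h j j.zero_le, fun _ _ => rfl, by simp⟩
  | succ k ih =>
    intro P h
    obtain ⟨B, b1, b2, b3⟩ := exists_basis c hρ k
    have t0 : 0 ≤ (⌈P.coeff k⌉ : ℝ) - P.coeff k := by linarith [Int.le_ceil (P.coeff k)]
    have t1 : (⌈P.coeff k⌉ : ℝ) - P.coeff k ≤ 1 := by linarith [Int.ceil_lt_add_one (P.coeff k)]
    have e : ∀ j, k + 1 ≤ j → (P + C (⌈P.coeff k⌉ - P.coeff k) * B).coeff j = P.coeff j :=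
      fun j hj => by rw [coeff_add, coeff_C_mul, b2 j hj, mul_zero, add_zero]
    obtain ⟨F, f1, f2, f3⟩ := ih (P + C (⌈P.coeff k⌉ - P.coeff k) * B) fun j hj => by
      rcases hj.eq_or_lt with rfl | hj
      · exact ⟨⌈P.coeff k⌉, by rw [coeff_add, coeff_C_mul, b1]; ring⟩
      · rw [e j hj]; exact h j hj
    refine ⟨F, f1, fun j hj => by rw [f2 j (by omega), e j hj], fun θ => (f3 θ).trans ?_⟩
    rw [eval_add, eval_mul, eval_C]
    have a1 := abs_add_le (P.eval (c + 2 * ρ * cos θ))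
      ((⌈P.coeff k⌉ - P.coeff k) * B.eval (c + 2 * ρ * cos θ))
    rw [abs_mul, abs_of_nonneg t0] at a1
    have a2 := (mul_le_of_le_one_left (abs_nonneg _) t1).trans (b3 θ)
    have a3 : ρ ^ k ≤ ρ ^ (k + 1) := pow_le_pow_right₀ hρ (by omega)
    have a4 : (0 : ℝ) ≤ k := by positivity
    push_cast
    nlinarith

lemma exists_int (c : ℝ) {ρ : ℝ} (hρ : 1 ≤ ρ) (k : ℕ) : ∃ F : ℝ[X],
    (∀ j, ∃ z : ℤ, F.coeff j = z) ∧ F.coeff k = 1 ∧ (∀ j, k < j → F.coeff j = 0) ∧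
      ∀ θ, |F.eval (c + 2 * ρ * cos θ)| ≤ (k + 1) * (2 * ρ ^ k) := by
  obtain ⟨B, b1, b2, b3⟩ := exists_basis c hρ k
  obtain ⟨F, f1, f2, f3⟩ := exists_round c hρ k B fun j hj => by
    rcases hj.eq_or_lt with rfl | hj
    · exact ⟨1, by simp [b1]⟩
    · exact ⟨0, by simp [b2 j hj]⟩
  exact ⟨F, f1, (f2 k le_rfl).trans b1, fun j hj => (f2 j hj.le).trans (b2 j hj),
    fun θ => by linarith [f3 θ, b3 θ]⟩

lemma indep {F : ℕ → ℝ[X]} (h1 : ∀ k, (F k).coeff k = 1) (h0 : ∀ k j, k < j → (F k).coeff j = 0)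
    {u v : ℕ → ℝ} (n : ℕ) (h : ∑ k ∈ range n, C (u k) * F k = ∑ k ∈ range n, C (v k) * F k) :
    ∀ k < n, u k = v k := by
  induction n with
  | zero => omega
  | succ n ih =>
    rw [sum_range_succ, sum_range_succ] at h
    have z : ∀ w : ℕ → ℝ, (∑ k ∈ range n, C (w k) * F k).coeff n = 0 := fun w => by
      rw [finsetSum_coeff]
      exact sum_eq_zero fun k hk => by rw [coeff_C_mul, h0 k n (mem_range.1 hk), mul_zero]
    have e := congrArg (coeff · n) h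
    simp only [coeff_add, z, coeff_C_mul, h1, zero_add, mul_one] at e
    rw [e, add_left_inj] at h
    intro k hk
    rcases (Nat.lt_succ_iff.1 hk).eq_or_lt with rfl | hk
    · exact e
    · exact ih h k hk

lemma numer {n : ℕ} {L Y δ : ℝ} (hn : 0 < n) (hL : 16 * (n : ℝ) ^ 2 ≤ exp L) (hL1 : 1 ≤ L)
    (hY : Y ^ 3 = L * n) (h8 : 8 * L ≤ Y) (hδ : 16 * Y ≤ δ * n) (hδ1 : δ ≤ 1) :
    ∃ r x : ℝ, 0 < δ ∧ 0 < r ∧ r < 1 ∧ 0 ≤ x ∧ x < 1 ∧ (1 + δ)⁻¹ = r * x ∧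
      L / (4 * L / Y) + 4 * L / Y / (1 - r) + 1 ≤ Y + 1 ∧
      exp (Y + 1 + 1 / 10) * (x ^ n / (1 - x)) ≤ exp (-(Y + 1) - 1 / 10) / 4 ∧
      16 < (1 + δ) ^ n * exp (-(Y + 1) - 1 / 10) ∧
      exp (-(3 / 2 * Y)) ≤ exp (-(Y + 1) - 1 / 10) / (32 * n ^ 2) := by
  have hn1 : (1 : ℝ) ≤ n := by exact_mod_cast hn
  have hY8 : 8 ≤ Y := by linarith
  have hδ0 : 0 < δ := by
    by_contra hc
    nlinarith [not_lt.1 hc]
  have hr0 : 0 < 1 - δ / 3 := by linarith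
  have hρ0 : 0 < 1 + δ := by linarith
  obtain ⟨x, hx⟩ : ∃ x : ℝ, x = (1 + δ)⁻¹ / (1 - δ / 3) := ⟨_, rfl⟩
  have hrx : (1 + δ)⁻¹ = (1 - δ / 3) * x := by rw [hx, mul_div_cancel₀ _ hr0.ne']
  have hx0 : 0 ≤ x := by rw [hx]; positivity
  have hx1 : x ≤ 1 - δ / 4 := by
    rw [hx, div_le_iff₀ hr0, inv_le_iff_one_le_mul₀ hρ0]
    nlinarith [mul_nonneg (mul_nonneg hδ0.le (sub_nonneg.2 hδ1)) (show 0 ≤ 5 - δ by linarith)]
  have hxn : x ^ n ≤ exp (-(4 * Y)) := by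
    have h1 : x ≤ exp (-(δ / 4)) := by linarith [add_one_le_exp (-(δ / 4))]
    refine (pow_le_pow_left₀ hx0 h1 n).trans ?_
    rw [← exp_nat_mul, exp_le_exp]
    linarith
  have a0 := exp_le_exp.2 (show L ≤ Y / 8 by linarith)
  refine ⟨1 - δ / 3, x, hδ0, hr0, by linarith, hx0, by linarith, hrx, ?_, ?_, ?_, ?_⟩
  · have e1 : L / (4 * L / Y) = Y / 4 := by field_simp
    have e2 : 4 * L / Y / (1 - (1 - δ / 3)) ≤ 3 * Y / 4 := by
      rw [div_le_iff₀ (by linarith), div_le_iff₀ (by linarith)]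
      have : 4 * L * n ≤ (3 * Y / 4 * (1 - (1 - δ / 3)) * Y) * n := by
        nlinarith [mul_le_mul_of_nonneg_left hδ (sq_nonneg Y)]
      exact le_of_mul_le_mul_right this (by linarith)
    linarith
  · have a1 : (n : ℝ) ≤ exp (Y / 8) := by nlinarith
    have a2 : x ^ n / (1 - x) ≤ exp (-(4 * Y)) * exp (Y / 8) / 4 := by
      rw [div_le_iff₀ (by linarith)]
      have a3 : 1 ≤ exp (Y / 8) / 4 * (1 - x) := by
        have : (n : ℝ) / 4 * (δ / 4) ≤ exp (Y / 8) / 4 * (1 - x) := by gcongr; linarith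
        linarith
      linarith [mul_le_mul_of_nonneg_left a3 (exp_pos (-(4 * Y))).le]
    refine (mul_le_mul_of_nonneg_left a2 (exp_pos _).le).trans ?_
    rw [← mul_div_assoc, ← exp_add, ← exp_add]
    gcongr
    linarith
  · have h1 : (1 + δ)⁻¹ ≤ x := by rw [hrx]; nlinarith
    have h2 := (pow_le_pow_left₀ (by positivity) h1 n).trans hxn
    rw [inv_pow, exp_neg, inv_le_inv₀ (by positivity) (exp_pos _)] at h2
    have a1 := mul_le_mul_of_nonneg_right h2 (exp_pos (-(Y + 1) - 1 / 10)).le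
    rw [← exp_add] at a1
    linarith [add_one_le_exp (4 * Y + (-(Y + 1) - 1 / 10))]
  · rw [le_div_iff₀ (by positivity)]
    have a1 : 32 * (n : ℝ) ^ 2 ≤ exp (Y / 8 + 1) := by
      rw [exp_add]
      nlinarith [add_one_le_exp (1 : ℝ), exp_pos (Y / 8)]
    refine (mul_le_mul_of_nonneg_left a1 (exp_pos _).le).trans ?_
    rw [← exp_add, exp_le_exp]
    linarith

end Pool.Agent.Lib.MP_1e748d_nt.Tt
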