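import Pool.Agent.Lib.MP_1e748d_nt.TtE

/-! Many conjugate sets of every large degree `d` in every interval of length `4 + s`,
`s ≥ 128 (log d)^(1/3) / d^(2/3)`. -/

set_option autoImplicit false

namespace Pool.Agent.Lib.MP_1e748d_nt.Tt

open Polynomial Finset Real

/-- One Eisenstein type polynomial with large alternating values. -/
theorem base (c : ℝ) {n : ℕ} {L Y δ : ℝ} (hn : 0 < n) (hL : 16 * (n : ℝ) ^ 2 ≤ exp L)
    (hL1 : 1 ≤ L) (hY : Y ^ 3 = L * n) (h8 : 8 * L ≤ Y) (hδ : 16 * Y ≤ δ * n) (hδ1 : δ ≤ 1) :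
    ∃ (P : ℝ[X]) (θ : ℕ → ℝ), (∀ j, n < j → P.coeff j = 0) ∧ P.coeff n = 1 ∧
      (∀ j, 0 < j → j < n → ∃ z : ℤ, P.coeff j = 2 * z) ∧ (∃ z : ℤ, P.coeff 0 = 4 * z + 2) ∧
      (∀ j ≤ n, θ j ∈ Set.Icc 0 π) ∧ (∀ j < n, θ j < θ (j + 1)) ∧
      ∀ j ≤ n, (1 + δ) ^ n * exp (-(Y + 1) - 1 / 10) / 4 <
        (-1) ^ j * P.eval (c + 2 * (1 + δ) * cos (θ j)) := by
  obtain ⟨r, x, hδ0, hr0, hr1, hx0, hx1, hrx, hM, hT, hE, -⟩ := numer hn hL hL1 hY h8 hδ hδ1
  have hY0 : 0 < Y := by linarith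
  obtain ⟨b, hb, hz, hC⟩ := exists_small c ((1 + δ) ^ 2) hn (r := r) (s := (1 + δ)⁻¹)
    (l := 4 * L / Y) (L := L) (by positivity)
    (by rw [hrx]; exact mul_le_of_le_one_right hr0.le hx1.le) hr1 (by positivity)
    (by rw [div_le_iff₀ hY0]; linarith) hL
  obtain ⟨θ, h1, h2⟩ := angles (φ := fun t => n * t - Sn b (n - 1) (1 + δ)⁻¹ t) (n := n)
    (by unfold Sn; fun_prop) (by simp [Sn])
    (by simp only [Sn, sin_nat_mul_pi, mul_zero, sum_const_zero, sub_zero])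
  have hs := fun j (hj : j ≤ n) => sign c hn (Nat.sub_le n 1) hb (M := Y + 1)
    (show 1 ≤ 1 + δ by linarith) hr0.le hr1.le hx0 hx1 hrx (fun t ht => (hC t ht).1.trans hM)
    ((neg_le_neg hM).trans (hC (θ j) (abs_le.2 ⟨by linarith [(h1 j hj).1.1, pi_pos],
      (h1 j hj).1.2⟩)).2) (h1 j hj).2
  have ht := Phi_coeff c ((1 + δ) ^ 2) hn (Hp (40 * n) b (n - 1))
  rw [Nat.sub_zero, sum_range_zero, zero_add, Hp_zero] at ht
  have hh := fun j (hj : n < j) => Phi_hi c ((1 + δ) ^ 2) n (Hp (40 * n) b (n - 1)) hj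
  generalize Phi c ((1 + δ) ^ 2) n (Hp (40 * n) b (n - 1)) = Q at hz hs ht hh
  obtain ⟨e, he⟩ : ∃ e : ℝ, e = 4 * ⌈(Q.coeff 0 - 2) / 4⌉ + 2 - Q.coeff 0 := ⟨_, rfl⟩
  have he0 : 0 ≤ e := by linarith [Int.le_ceil ((Q.coeff 0 - 2) / 4)]
  have he4 : e ≤ 4 := by linarith [Int.ceil_lt_add_one ((Q.coeff 0 - 2) / 4)]
  refine ⟨Q + C e, θ, fun j hj => by rw [coeff_add, hh j hj, coeff_C, if_neg (by omega), add_zero],
    by rw [coeff_add, ht, coeff_C, if_neg (by omega), add_zero], fun j h0 hj => ?_,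
    ⟨⌈(Q.coeff 0 - 2) / 4⌉, by rw [coeff_add, coeff_C_zero, he]; ring⟩, fun j hj => (h1 j hj).1,
    h2, fun j hj => ?_⟩
  · obtain ⟨z, hz⟩ := hz (n - j - 1) (by omega)
    rw [show n - (n - j - 1 + 1) = j by omega] at hz
    exact ⟨z, by rw [coeff_add, hz, coeff_C, if_neg (by omega), add_zero]⟩
  · have a1 := hs j hj
    have a2 := mul_le_mul_of_nonneg_left hT (show 0 ≤ 2 * (1 + δ) ^ n by positivity)
    rw [eval_add, eval_C]
    rcases neg_one_pow_eq_or ℝ j with s | s <;> rw [s] at a1 ⊢ <;> linarith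

theorem core (a : ℝ) {n : ℕ} {L Y δ : ℝ} (hn : 0 < n) (hL : 16 * (n : ℝ) ^ 2 ≤ exp L)
    (hL1 : 1 ≤ L) (hY : Y ^ 3 = L * n) (h8 : 8 * L ≤ Y) (hδ : 16 * Y ≤ δ * n) (hδ1 : δ ≤ 1) :
    ∃ S : Finset ℤ[X], (1 + δ) ^ (n * (n + 1) / 2) * exp (-(3 / 2 * Y)) ^ n ≤ S.card ∧
      ∀ f ∈ S, f.Monic ∧ Irreducible f ∧ f.natDegree = n ∧
        Multiset.card (f.map (algebraMap ℤ ℝ)).roots = f.natDegree ∧
        ∀ x ∈ (f.map (algebraMap ℤ ℝ)).roots, x ∈ Set.Icc a (a + 4 + 4 * δ) := by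
  classical
  obtain ⟨P, θ, p1, p2, p3, ⟨z0, p4⟩, t1, t2, hs⟩ := base (a + 2 * (1 + δ)) hn hL hL1 hY h8 hδ hδ1
  obtain ⟨-, -, hδ0, -, -, -, -, -, -, -, -, hW⟩ := numer hn hL hL1 hY h8 hδ hδ1
  have hρ : 1 ≤ 1 + δ := by linarith
  generalize hρδ : 1 + δ = ρ at hs hρ ⊢
  have hE := exp_pos (-(Y + 1) - 1 / 10)
  generalize exp (-(Y + 1) - 1 / 10) = E at hs hW hE
  have hn0 : (0 : ℝ) < n := by exact_mod_cast hn
  choose F f1 f2 f3 f4 using exists_int (a + 2 * ρ) hρ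
  choose g hg using f1
  let T := Fintype.piFinset fun k : Fin n => range ⌈E / (32 * n ^ 2) * ρ ^ (n - k)⌉₊
  let w : (Fin n → ℕ) → ℕ → ℕ := fun z k => if h : k < n then z ⟨k, h⟩ else 0
  let G : (Fin n → ℕ) → ℝ[X] := fun z => ∑ k ∈ range n, C (4 * (w z k : ℝ)) * F k
  have g1 : ∀ z j, (G z).coeff j = 4 * (∑ k ∈ range n, w z k * g k j : ℤ) := fun z j => by
    simp only [G, finsetSum_coeff, coeff_C_mul, hg]
    push_cast
    rw [mul_sum]
    exact sum_congr rfl fun k _ => by ring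
  have g2 : ∀ z j, n ≤ j → (G z).coeff j = 0 := fun z j hj => by
    simp only [G, finsetSum_coeff]
    exact sum_eq_zero fun k hk => by
      rw [coeff_C_mul, f3 k j ((mem_range.1 hk).trans_le hj), mul_zero]
  have g3 : ∀ z ∈ T, ∀ t, |(G z).eval (a + 2 * ρ + 2 * ρ * cos t)| ≤ ρ ^ n * E / 4 := by
    intro z hz t
    simp only [G, eval_finsetSum]
    refine (abs_sum_le_sum_abs _ _).trans ((sum_le_card_nsmul _ _ (ρ ^ n * E / 4 / n)
      fun k hk => ?_).trans (le_of_eq ?_))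
    · rw [mem_range] at hk
      have a1 : (w z k : ℝ) ≤ E / (32 * n ^ 2) * ρ ^ (n - k) := by
        simp only [w, dif_pos hk]
        exact (Nat.lt_ceil.1 (mem_range.1 (Fintype.mem_piFinset.1 hz ⟨k, hk⟩))).le
      have a2 : (k : ℝ) + 1 ≤ n := by exact_mod_cast hk
      rw [eval_mul, eval_C, abs_mul, abs_of_nonneg (by positivity)]
      calc 4 * (w z k : ℝ) * _ ≤ 4 * (E / (32 * n ^ 2) * ρ ^ (n - k)) * (n * (2 * ρ ^ k)) :=
            mul_le_mul (by linarith) ((f4 k t).trans (by gcongr)) (abs_nonneg _) (by positivity)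
        _ = _ := by
          rw [show ρ ^ n = ρ ^ (n - k) * ρ ^ k by rw [← pow_add, Nat.sub_add_cancel hk.le]]
          field_simp
          norm_num
    · rw [card_range, nsmul_eq_mul, mul_div_cancel₀ _ hn0.ne']
  have key : ∀ z, ∃ f : ℤ[X], f.map (algebraMap ℤ ℝ) = P + G z ∧ (z ∈ T →
      f.Monic ∧ Irreducible f ∧ f.natDegree = n ∧
        Multiset.card (f.map (algebraMap ℤ ℝ)).roots = f.natDegree ∧
        ∀ x ∈ (f.map (algebraMap ℤ ℝ)).roots, x ∈ Set.Icc a (a + 4 + 4 * δ)) := by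
    intro z
    obtain ⟨f, hm, hi, hd, hf⟩ := eis (P := P + G z) hn
      (fun j hj => by rw [coeff_add, p1 j hj, g2 z j hj.le, add_zero])
      (by rw [coeff_add, p2, g2 z n le_rfl, add_zero])
      (fun j h0 hj => by
        obtain ⟨y, hy⟩ := p3 j h0 hj
        exact ⟨y + 2 * ∑ k ∈ range n, w z k * g k j, by
          rw [coeff_add, hy, g1, Int.cast_add, Int.cast_mul, Int.cast_ofNat]; ring⟩)
      ⟨z0 + ∑ k ∈ range n, w z k * g k 0, by rw [coeff_add, p4, g1, Int.cast_add]; ring⟩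
    refine ⟨f, hf, fun hz => ?_⟩
    have k1 := roots_of_signs (hm.map (algebraMap ℤ ℝ)).ne_zero
      (show _ = n by rw [hm.natDegree_map, hd])
      (fun j => a + 2 * ρ + 2 * ρ * cos (θ j)) (A := a) (B := a + 4 + 4 * δ)
      (fun j hj => by
        have := cos_lt_cos_of_nonneg_of_le_pi (t1 j hj.le).1 (t1 (j + 1) hj).2 (t2 j hj)
        have := mul_lt_mul_of_pos_left this (show 0 < 2 * ρ by linarith)
        linarith)
      (fun j _ => by
        have a1 := mul_le_mul_of_nonneg_left (neg_one_le_cos (θ j)) (show 0 ≤ 2 * ρ by linarith)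
        have a2 := mul_le_mul_of_nonneg_left (cos_le_one (θ j)) (show 0 ≤ 2 * ρ by linarith)
        constructor <;> linarith)
      (fun j hj => by
        have a1 := hs j hj
        have a2 := abs_le.1 (g3 z hz (θ j))
        rw [hf, eval_add]
        rcases neg_one_pow_eq_or ℝ j with s | s <;> rw [s] at a1 ⊢ <;> linarith)
    exact ⟨hm, hi, hd, k1.1.trans hd.symm, k1.2⟩
  choose f hf hf' using key
  refine ⟨T.image f, ?_, fun p hp => ?_⟩
  · rw [card_image_of_injective _ fun z z' h => ?_, Fintype.card_piFinset]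
    · have e : n * (n + 1) / 2 = ∑ k ∈ range n, (n - k) := by
        have a1 := sum_range_reflect (fun k => k + 1) n
        have a2 := sum_range_id_mul_two (n + 1)
        rw [sum_range_succ', add_zero, Nat.add_sub_cancel, ← a1,
          sum_congr rfl (g := fun k => n - k) fun k hk => by have := mem_range.1 hk; omega] at a2
        rw [mul_comm]
        omega
      rw [e, ← prod_pow_eq_pow_sum, ← Fin.prod_univ_eq_prod_range (fun k => ρ ^ (n - k)),
        ← Fin.prod_const, ← prod_mul_distrib, Nat.cast_prod]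
      refine prod_le_prod (fun _ _ => by positivity) fun k _ => ?_
      rw [card_range, mul_comm]
      exact le_trans (by gcongr) (Nat.le_ceil _)
    · have a1 : G z = G z' := add_left_cancel ((hf z).symm.trans (h ▸ hf z'))
      funext k
      have a2 := indep f2 f3 n a1 k k.2
      simp only [w, dif_pos k.2] at a2
      exact_mod_cast mul_left_cancel₀ four_ne_zero a2
  · obtain ⟨z, hz, rfl⟩ := mem_image.1 hp
    exact hf' z hz

theorem count : ∃ d₀ : ℕ, ∀ d : ℕ, d₀ ≤ d → ∀ a s : ℝ,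
    128 * log d ^ (1 / 3 : ℝ) / (d : ℝ) ^ (2 / 3 : ℝ) ≤ s → s ≤ 4 → ∃ S : Finset ℤ[X],
      (1 + s / 4) ^ (d * (d + 1) / 2) * exp (-(3 * (d : ℝ) ^ (4 / 3 : ℝ) * log d ^ (1 / 3 : ℝ))) ≤
        S.card ∧ ∀ p ∈ S, p.Monic ∧ Irreducible p ∧ p.natDegree = d ∧
          Multiset.card (p.map (algebraMap ℤ ℝ)).roots = p.natDegree ∧
          ∀ x ∈ (p.map (algebraMap ℤ ℝ)).roots, x ∈ Set.Icc a (a + 4 + s) := by
  have h1 := tendsto_natCast_atTop_atTop.eventually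
    ((isLittleO_pow_log_id_atTop (n := 2)).def (show (0 : ℝ) < 1 / 32768 by norm_num))
  obtain ⟨d₀, h2⟩ := Filter.eventually_atTop.1 (h1.and (Filter.eventually_ge_atTop 8))
  refine ⟨d₀, fun d hd a s hs hs4 => ?_⟩
  obtain ⟨h3, h4⟩ := h2 d hd
  have h8 : (8 : ℝ) ≤ d := by exact_mod_cast h4
  have h0 : (0 : ℝ) < d := by linarith
  rw [id, Real.norm_eq_abs, Real.norm_eq_abs, abs_of_nonneg (by positivity), abs_of_pos h0] at h3
  have hl : 1 ≤ log d := by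
    rw [le_log_iff_exp_le h0]
    linarith [exp_one_lt_d9]
  have hc : ∀ t : ℝ, 0 ≤ t → (t ^ (1 / 3 : ℝ)) ^ 3 = t := fun t ht => by
    rw [← rpow_natCast, ← rpow_mul ht]; norm_num
  have hY : (2 * log d ^ (1 / 3 : ℝ) * (d : ℝ) ^ (1 / 3 : ℝ)) ^ 3 = 8 * log d * d := by
    rw [mul_pow, mul_pow, hc _ (by linarith), hc _ h0.le]; norm_num
  have e1 : (d : ℝ) = (d : ℝ) ^ (2 / 3 : ℝ) * (d : ℝ) ^ (1 / 3 : ℝ) := by
    rw [← rpow_add h0]; norm_num
  have e2 : (d : ℝ) ^ (4 / 3 : ℝ) = (d : ℝ) ^ (1 / 3 : ℝ) * d := by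
    rw [← rpow_add_one h0.ne']; norm_num
  obtain ⟨S, s1, s2⟩ := core a (L := 8 * log d) (δ := s / 4) (show 0 < d by omega) (by
      have : exp (8 * log d) = (d : ℝ) ^ 8 := by
        rw [show (8 : ℝ) = (8 : ℕ) by norm_num, exp_nat_mul, exp_log h0]
      have h6 : (8 : ℝ) ^ 6 ≤ (d : ℝ) ^ 6 := by gcongr
      rw [this]
      nlinarith [sq_nonneg (d : ℝ)]) (by linarith) hY (by
      refine (pow_le_pow_iff_left₀ (by positivity) (by positivity) three_ne_zero).1 ?_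
      rw [hY]
      nlinarith) (by
      rw [div_le_iff₀ (by positivity)] at hs
      have := mul_le_mul_of_nonneg_right hs (show 0 ≤ (d : ℝ) ^ (1 / 3 : ℝ) by positivity)
      rw [mul_assoc s, ← e1] at this
      linarith) (by linarith)
  refine ⟨S, le_trans (le_of_eq ?_) s1, fun p hp => ?_⟩
  · rw [← exp_nat_mul, e2]
    congr 2
    ring
  · simpa only [mul_div_cancel₀ s (four_ne_zero' ℝ)] using s2 p hp

end Pool.Agent.Lib.MP_1e748d_nt.Tt
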