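import Pool.Agent.Lib.MP_1e748d_nt.TtF
import Pool.Agent.Lib.MP_1e748d_nt.Newton

/-! The easy upper bound for the number of conjugate sets, and the two-sided estimate. -/

set_option autoImplicit false

namespace Pool.Agent.Lib.MP_1e748d_nt.Tt

open Polynomial Finset Real

lemma nodup {p : ℤ[X]} (hm : p.Monic) (hi : Irreducible p) :
    (p.map (algebraMap ℤ ℝ)).roots.Nodup := by
  have h1 : Irreducible (p.map (algebraMap ℤ ℚ)) :=
    (hm.irreducible_iff_irreducible_map_fraction_map).mp hi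
  have h2 := (h1.separable).map (f := algebraMap ℚ ℝ)
  rw [Polynomial.map_map] at h2
  exact nodup_roots h2

theorem upper (c : ℝ) {ρ : ℝ} (hρ : 1 ≤ ρ) {d : ℕ} (hd : 0 < d) (S : Finset ℤ[X])
    (hS : ∀ p ∈ S, p.Monic ∧ Irreducible p ∧ p.natDegree = d ∧
      Multiset.card (p.map (algebraMap ℤ ℝ)).roots = p.natDegree ∧
      ∀ x ∈ (p.map (algebraMap ℤ ℝ)).roots, x ∈ Set.Icc (c - 2 * ρ) (c + 2 * ρ)) :
    (S.card : ℝ) ≤ ρ ^ (d * (d + 1) / 2) * (7 * d) ^ d := by
  classical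
  have hd1 : (1 : ℝ) ≤ d := by exact_mod_cast hd
  let θ : ℝ → ℝ := fun x => arccos ((x - c) / (2 * ρ))
  let R : ℤ[X] → Finset ℝ := fun p => (p.map (algebraMap ℤ ℝ)).roots.toFinset
  have r1 : ∀ p ∈ S, (R p).val = (p.map (algebraMap ℤ ℝ)).roots := fun p hp => by
    rw [Multiset.toFinset_val, (nodup (hS p hp).1 (hS p hp).2.1).dedup]
  have r2 : ∀ p ∈ S, (R p).card = d := fun p hp => by
    rw [card_def, r1 p hp, (hS p hp).2.2.2.1, (hS p hp).2.2.1]
  have r3 : ∀ p ∈ S, ∀ x ∈ R p, x = c + 2 * ρ * cos (θ x) := fun p hp x hx => by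
    obtain ⟨a, b⟩ := (hS p hp).2.2.2.2 x (Multiset.mem_toFinset.1 hx)
    rw [cos_arccos (by rw [le_div_iff₀ (by linarith)]; linarith)
      (by rw [div_le_iff₀ (by linarith)]; linarith), mul_div_cancel₀ _ (by linarith)]
    ring
  have r4 : ∀ p ∈ S, ∀ j ≤ d, (p.coeff (d - j) : ℝ) = (-1) ^ j * (R p).val.esymm j := by
    intro p hp j hj
    obtain ⟨a, -, b, e, -⟩ := hS p hp
    have := coeff_eq_esymm_roots_of_card (p := p.map (algebraMap ℤ ℝ))
      (by rw [e, a.natDegree_map]) (k := d - j) (by rw [a.natDegree_map, b]; omega)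
    rw [(a.map _).leadingCoeff, a.natDegree_map, b, one_mul, Nat.sub_sub_self hj, coeff_map] at this
    rw [r1 p hp, ← this]
    simp
  let V : ℤ[X] → ℕ → ℝ := fun p k =>
    2 * ρ ^ (k + 1) * (∑ x ∈ R p, cos (((k + 1 : ℕ) : ℝ) * θ x)) / ((k + 1 : ℕ) : ℝ)
  have v1 : ∀ p ∈ S, ∀ k, |V p k| ≤ 2 * d * ρ ^ (k + 1) := fun p hp k => by
    have a : |∑ x ∈ R p, cos (((k + 1 : ℕ) : ℝ) * θ x)| ≤ d := by
      refine (abs_sum_le_sum_abs _ _).trans ((sum_le_card_nsmul _ _ 1 fun x _ =>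
        abs_cos_le_one _).trans (le_of_eq ?_))
      rw [r2 p hp, nsmul_eq_mul, mul_one]
    have b : (1 : ℝ) ≤ ((k + 1 : ℕ) : ℝ) := by exact_mod_cast Nat.succ_pos k
    simp only [V]
    rw [abs_div, abs_mul, Nat.abs_cast, abs_of_nonneg (by positivity)]
    refine (div_le_self (by positivity) b).trans ?_
    linarith [mul_le_mul_of_nonneg_left a (show 0 ≤ 2 * ρ ^ (k + 1) by positivity)]
  have h1 : S.card ≤ (Fintype.piFinset fun k : Fin d =>
      Icc (-⌈2 * d * ρ ^ ((k : ℕ) + 1)⌉) ⌈2 * d * ρ ^ ((k : ℕ) + 1)⌉).card := by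
    refine card_le_card_of_injOn (fun p k => ⌊V p k⌋) (fun p hp => ?_) fun p hp q hq h => ?_
    · rw [mem_coe, Fintype.mem_piFinset]
      intro k
      obtain ⟨a, b⟩ := abs_le.1 (v1 p hp k)
      rw [mem_Icc, Int.le_floor, Int.cast_neg]
      exact ⟨(neg_le_neg (Int.le_ceil _)).trans a,
        (Int.floor_le_floor b).trans (Int.floor_le_ceil _)⟩
    · have key : ∀ j ≤ d, p.coeff (d - j) = q.coeff (d - j) := by
        intro j hj
        induction j using Nat.strong_induction_on with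
        | _ j ih =>
          have e : ∀ i ≤ d, (p.coeff (d - i) : ℝ) - q.coeff (d - i) =
              (-1) ^ i * ((R p).val.esymm i - (R q).val.esymm i) := fun i hi => by
            rw [r4 p hp i hi, r4 q hq i hi, mul_sub]
          rcases j with _ | k
          · have := e 0 hj
            simp only [Multiset.esymm, Multiset.powersetCard_zero_left, Multiset.map_singleton,
              sub_self, mul_zero, sub_eq_zero] at this
            exact_mod_cast this
          · have a := cheb_sub (R p) (R q) ((r2 p hp).trans (r2 q hq).symm) θ c ρ (r3 p hp)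
              (r3 q hq) k fun i _ hi => by
                have := e i (by omega)
                rw [ih i hi (by omega), sub_self] at this
                exact sub_eq_zero.1 ((mul_eq_zero.1 this.symm).resolve_left (by positivity))
            have b : |V p k - V q k| < 1 :=
              Int.abs_sub_lt_one_of_floor_eq_floor (congrFun h ⟨k, hj⟩)
            simp only [V] at b
            rw [a, abs_mul, abs_neg_one_pow, one_mul] at b
            have c' : |(p.coeff (d - (k + 1)) : ℝ) - q.coeff (d - (k + 1))| < 1 := by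
              rwa [e _ hj, abs_mul, abs_neg_one_pow, one_mul]
            have c'' : |p.coeff (d - (k + 1)) - q.coeff (d - (k + 1))| < 1 := by exact_mod_cast c'
            exact sub_eq_zero.1 (Int.abs_lt_one_iff.1 c'')
      ext i
      rcases le_or_gt i d with hi | hi
      · simpa only [Nat.sub_sub_self hi] using key (d - i) (Nat.sub_le _ _)
      · rw [coeff_eq_zero_of_natDegree_lt ((hS p hp).2.2.1.trans_lt hi),
          coeff_eq_zero_of_natDegree_lt ((hS q hq).2.2.1.trans_lt hi)]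
  have e : d * (d + 1) / 2 = ∑ k ∈ range d, (k + 1) := by
    have a2 := sum_range_id_mul_two (d + 1)
    rw [sum_range_succ', add_zero, Nat.add_sub_cancel] at a2
    rw [mul_comm]
    omega
  rw [Fintype.card_piFinset] at h1
  rw [e, ← prod_pow_eq_pow_sum, ← Fin.prod_univ_eq_prod_range (fun k => ρ ^ (k + 1)),
    ← Fin.prod_const, ← prod_mul_distrib]
  refine (Nat.cast_le.2 h1).trans ?_
  rw [Nat.cast_prod]
  refine prod_le_prod (fun _ _ => by positivity) fun k _ => ?_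
  have a0 : 1 ≤ d * ρ ^ ((k : ℕ) + 1) := one_le_mul_of_one_le_of_one_le hd1 (one_le_pow₀ hρ)
  have a1 := Int.ceil_lt_add_one (2 * d * ρ ^ ((k : ℕ) + 1))
  have a2 : 0 ≤ ⌈2 * d * ρ ^ ((k : ℕ) + 1)⌉ := Int.ceil_nonneg (by positivity)
  rw [Int.card_Icc, ← Int.cast_natCast, Int.toNat_of_nonneg (by omega)]
  push_cast
  linarith

theorem two_sided : ∃ d₀ : ℕ, ∀ d : ℕ, d₀ ≤ d → ∀ a s : ℝ,
    128 * log d ^ (1 / 3 : ℝ) / (d : ℝ) ^ (2 / 3 : ℝ) ≤ s → s ≤ 4 → ∀ N : ℕ,
      N = Set.ncard {p : ℤ[X] | p.Monic ∧ Irreducible p ∧ p.natDegree = d ∧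
          Multiset.card (p.map (algebraMap ℤ ℝ)).roots = p.natDegree ∧
          ∀ x ∈ (p.map (algebraMap ℤ ℝ)).roots, x ∈ Set.Icc a (a + 4 + s)} →
      (1 + s / 4) ^ (d * (d + 1) / 2) * exp (-(3 * (d : ℝ) ^ (4 / 3 : ℝ) * log d ^ (1 / 3 : ℝ))) ≤
        N ∧ (N : ℝ) ≤ (1 + s / 4) ^ (d * (d + 1) / 2) *
          exp (3 * (d : ℝ) ^ (4 / 3 : ℝ) * log d ^ (1 / 3 : ℝ)) := by
  obtain ⟨d₀, h0⟩ := count
  have h1 := tendsto_natCast_atTop_atTop.eventually
    ((isLittleO_pow_log_id_atTop (n := 2)).def (show (0 : ℝ) < 1 by norm_num))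
  obtain ⟨d₁, h2⟩ := Filter.eventually_atTop.1 (h1.and (Filter.eventually_ge_atTop 8))
  refine ⟨max d₀ d₁, fun d hd a s hs hs4 N hN => ?_⟩
  obtain ⟨S, s1, s2⟩ := h0 d (le_of_max_le_left hd) a s hs hs4
  obtain ⟨h3, h4⟩ := h2 d (le_of_max_le_right hd)
  have h8 : (8 : ℝ) ≤ d := by exact_mod_cast h4
  have hd0 : (0 : ℝ) < d := by linarith
  have hl : 0 ≤ log d := log_nonneg (by linarith)
  have hs0 : 0 ≤ s := le_trans (by positivity) hs
  rw [id, Real.norm_eq_abs, Real.norm_eq_abs, abs_of_nonneg (by positivity), abs_of_pos hd0,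
    one_mul] at h3
  generalize hA : {p : ℤ[X] | p.Monic ∧ Irreducible p ∧ p.natDegree = d ∧
    Multiset.card (p.map (algebraMap ℤ ℝ)).roots = p.natDegree ∧
    ∀ x ∈ (p.map (algebraMap ℤ ℝ)).roots, x ∈ Set.Icc a (a + 4 + s)} = A at hN
  have hU : ∀ T : Finset ℤ[X], (T : Set ℤ[X]) ⊆ A →
      (T.card : ℝ) ≤ (1 + s / 4) ^ (d * (d + 1) / 2) * (7 * d) ^ d := fun T hT =>
    upper (a + 2 * (1 + s / 4)) (by linarith) (by omega) T fun p hp => by
      have := hT hp
      rw [← hA] at this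
      rw [show a + 2 * (1 + s / 4) - 2 * (1 + s / 4) = a by ring,
        show a + 2 * (1 + s / 4) + 2 * (1 + s / 4) = a + 4 + s by ring]
      exact this
  have hf : A.Finite := by
    by_contra hi
    obtain ⟨m, hm⟩ := exists_nat_gt ((1 + s / 4) ^ (d * (d + 1) / 2) * (7 * (d : ℝ)) ^ d)
    obtain ⟨T, t1, t2⟩ := Set.Infinite.exists_subset_card_eq hi m
    exact absurd (t2 ▸ hU T t1) hm.not_ge
  refine ⟨s1.trans ?_, ?_⟩
  · rw [hN, ← Set.ncard_coe_finset]
    exact_mod_cast Set.ncard_le_ncard (fun p hp => hA ▸ s2 p hp) hf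
  · rw [hN, Set.ncard_eq_toFinset_card _ hf]
    refine (hU _ (by simp)).trans (mul_le_mul_of_nonneg_left ?_ (by positivity))
    have e2 : (d : ℝ) ^ (4 / 3 : ℝ) = (d : ℝ) ^ (1 / 3 : ℝ) * d := by
      rw [← rpow_add_one hd0.ne']; norm_num
    have hc : ∀ t : ℝ, 0 ≤ t → (t ^ (1 / 3 : ℝ)) ^ 3 = t := fun t ht => by
      rw [← rpow_natCast, ← rpow_mul ht]; norm_num
    have a1 : 2 * log d ≤ 3 * (d : ℝ) ^ (1 / 3 : ℝ) * log d ^ (1 / 3 : ℝ) := by
      refine (pow_le_pow_iff_left₀ (by positivity) (by positivity) three_ne_zero).1 ?_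
      rw [mul_pow, mul_pow, mul_pow, hc _ hl, hc _ hd0.le]
      nlinarith [mul_le_mul_of_nonneg_left h3 hl, mul_nonneg hd0.le hl]
    have a2 : 7 * (d : ℝ) ≤ exp (3 * (d : ℝ) ^ (1 / 3 : ℝ) * log d ^ (1 / 3 : ℝ)) := by
      refine le_trans ?_ (exp_le_exp.2 a1)
      rw [two_mul, exp_add, exp_log hd0]
      nlinarith
    refine (pow_le_pow_left₀ (by positivity) a2 d).trans (le_of_eq ?_)
    rw [← exp_nat_mul, e2]
    congr 1
    ring

end Pool.Agent.Lib.MP_1e748d_nt.Tt
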