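import Mathlib

/-! A weak form of Helson's theorem on measures with integer Fourier coefficients. -/

open Finset Filter Topology

namespace Pool.Agent.Lib.MP_1e748d_nt.U

/-- `P` is a functional of squared norm at most `K` for the form with kernel `h`. -/
def Bd (h P : ℤ → ℝ) (K : ℝ) : Prop :=
  ∀ (n : ℕ) (c : Fin n → ℝ) (x : Fin n → ℤ),
    (∑ i, c i * P (x i)) ^ 2 ≤ K * ∑ i, ∑ j, c i * c j * h (x i - x j)

/-- The second differences of `P` are congruent to `-θ` modulo the integers. -/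
def It (θ : ℝ) (P : ℤ → ℝ) : Prop := ∀ y, ∃ n : ℤ, P (y + 1) - 2 * P y + P (y - 1) + θ = n

variable {h P Q : ℤ → ℝ} {K θ : ℝ}

lemma Bd.shift (hP : Bd h P K) (k : ℤ) : Bd h (fun y => P (y + k)) K := fun n c x => by
  simpa using hP n c fun i => x i + k

lemma It.shift (hP : It θ P) (k : ℤ) : It θ fun y => P (y + k) := fun y => by
  obtain ⟨n, hn⟩ := hP (y + k)
  exact ⟨n, by rw [← hn]; ring_nf⟩

lemma Bd.one (hP : Bd h P K) (y : ℤ) : P y ^ 2 ≤ K * h 0 := by
  simpa using hP 1 (fun _ => 1) fun _ => y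

lemma int_lim {f : ℕ → ℝ} {a : ℝ} (hf : ∀ i, ∃ n : ℤ, f i = n) (ht : Tendsto f atTop (𝓝 a)) :
    ∃ n : ℤ, a = n := by
  obtain ⟨n, hn⟩ := Int.isClosedEmbedding_coe_real.isClosed_range.mem_of_tendsto ht
    (Eventually.of_forall fun i => (hf i).imp fun _ e => e.symm)
  exact ⟨n, hn.symm⟩

lemma It.per (hθ : Irrational θ) (hP : It θ P) {N : ℕ} (hN : 0 < N)
    (hD : ∀ y, |P (y + N) - P y| ≤ 1 / 10) : False := by
  obtain ⟨D, hD'⟩ : ∃ D : ℤ → ℝ, ∀ y, D y = P (y + N) - P y := ⟨_, fun _ => rfl⟩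
  simp only [← hD'] at hD
  have h1 : ∀ y, D (y + 1) - D y = D y - D (y - 1) := fun y => by
    obtain ⟨a, ha⟩ := hP y
    obtain ⟨b, hb⟩ := hP (y + N)
    have e : ((b - a : ℤ) : ℝ) = D (y + 1) - 2 * D y + D (y - 1) := by
      rw [hD', hD', hD', Int.cast_sub, ← ha, ← hb, add_right_comm y 1, sub_add_eq_add_sub y 1]
      ring
    have : |((b - a : ℤ) : ℝ)| < 1 := by
      rw [e, abs_lt]
      constructor <;> linarith [abs_le.1 (hD y), abs_le.1 (hD (y + 1)), abs_le.1 (hD (y - 1))]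
    have h0 : b - a = 0 := Int.abs_lt_one_iff.1 (by exact_mod_cast this)
    rw [h0] at e
    push_cast at e
    linarith
  have h2 : ∀ k : ℕ, D k - D (k - 1) = D 0 - D (-1) ∧ D k = D 0 + k * (D 0 - D (-1)) := by
    intro k
    induction k with
    | zero => simp
    | succ k ih =>
      have := h1 k
      push_cast
      rw [add_sub_cancel_right]
      constructor <;> linarith [ih.1, ih.2]
  have h3 : D 0 - D (-1) = 0 := by
    by_contra h0
    obtain ⟨k, hk⟩ := exists_nat_gt (1 / |D 0 - D (-1)|)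
    rw [div_lt_iff₀ (abs_pos.2 h0)] at hk
    have e : |(k : ℝ) * (D 0 - D (-1))| = |D k - D 0| := by rw [(h2 k).2]; ring_nf
    rw [abs_mul, Nat.abs_cast] at e
    linarith [abs_sub (D k) (D 0), hD k, hD 0]
  have h4 : ∀ k : ℕ, ∃ n : ℤ, P k - P (k - 1) - (P 0 - P (-1)) + k * θ = n := by
    intro k
    induction k with
    | zero => exact ⟨0, by simp⟩
    | succ k ih =>
      obtain ⟨a, ha⟩ := ih
      obtain ⟨b, hb⟩ := hP k
      refine ⟨a + b, ?_⟩
      push_cast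
      rw [add_sub_cancel_right, ← ha, ← hb]
      ring
  obtain ⟨n, hn⟩ := h4 N
  refine (hθ.natCast_mul hN.ne').ne_int n ?_
  rw [hD', hD', zero_add, show (-1 : ℤ) + N = N - 1 by ring] at h3
  linarith

lemma Bd.par (hP : Bd h P K) (hQ : Bd h Q K) {n : ℕ} (c : Fin n → ℝ) (x : Fin n → ℤ) (y : ℤ)
    (t : ℝ) : (∑ i, c i * P (x i) + ∑ i, c i * Q (x i) + t * (P y - Q y)) ^ 2 ≤
      4 * K * (∑ i, ∑ j, c i * c j * h (x i - x j) + t ^ 2 * h 0) := by
  have h1 := hP (n + 1) (Fin.cons t c) (Fin.cons y x)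
  have h2 := hQ (n + 1) (Fin.cons (-t) c) (Fin.cons y x)
  simp only [Fin.sum_univ_succ, Fin.cons_zero, Fin.cons_succ, sub_self, sum_add_distrib, neg_mul,
    mul_neg, sum_neg_distrib] at h1 h2
  nlinarith [sq_nonneg (t * P y + ∑ i, c i * P (x i) - (-(t * Q y) + ∑ i, c i * Q (x i)))]

theorem helson (hθ : Irrational θ) (hK : 0 < K) (hP : It θ P) (hB : Bd h P K) : False := by
  have h0 : 0 ≤ h 0 := nonneg_of_mul_nonneg_right ((sq_nonneg _).trans (hB.one 0)) hK
  obtain ⟨N, hN⟩ := exists_nat_gt (800 * (K * h 0))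
  obtain ⟨γ, hγ, rfl⟩ : ∃ γ : ℝ, 0 < γ ∧ K = (N + 1 : ℕ) * γ :=
    ⟨K / (N + 1 : ℕ), by positivity, by field_simp⟩
  have h1 : γ * h 0 ≤ 1 / 800 := by
    push_cast at hN
    nlinarith [mul_nonneg hγ.le h0, Nat.cast_nonneg (α := ℝ) N]
  clear hN hK
  induction N generalizing P with
  | zero =>
    have b : ∀ y, |P y| ≤ 1 / 20 := fun y => abs_le_of_sq_le_sq' (by
      have := hB.one y
      simp only [zero_add, Nat.cast_one, one_mul] at this
      linarith) (by norm_num) |> abs_le.2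
    exact hP.per hθ one_pos fun y =>
      (abs_sub _ _).trans ((add_le_add (b _) (b _)).trans_eq (by norm_num))
  | succ n ih =>
    obtain ⟨R, hR⟩ : ∃ R : ℝ, ∀ y, P y ∈ Set.Icc (-R) R :=
      ⟨(n + 1 + 1 : ℕ) * γ * h 0 + 1, fun y => by
        constructor <;> nlinarith [hB.one y, sq_nonneg (P y + 1), sq_nonneg (P y - 1)]⟩
    obtain ⟨Z, -, φ, hφ, hZ⟩ := (isCompact_univ_pi fun _ : ℤ => isCompact_Icc).tendsto_subseq
      (x := fun (k : ℕ) (y : ℤ) => P (y + k)) fun k y _ => hR _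
    have hz : ∀ y, Tendsto (fun i => P (y + φ i)) atTop (𝓝 (Z y)) := tendsto_pi_nhds.1 hZ
    have h2 : ¬ Bd h Z ((n + 1 : ℕ) * γ) := ih fun y => int_lim (fun i => hP.shift (φ i) y)
      ((((hz _).sub ((hz y).const_mul 2)).add (hz _)).add_const θ)
    simp only [Bd, not_forall, not_le] at h2
    obtain ⟨r, c, x, h2⟩ := h2
    have h3 : Tendsto (fun i => ∑ j, c j * P (x j + φ i)) atTop (𝓝 (∑ j, c j * Z (x j))) :=
      tendsto_finsetSum _ fun j _ => (hz _).const_mul _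
    obtain ⟨i, hi⟩ := ((((h3.comp (tendsto_add_atTop_nat 1)).add h3).pow 2).eventually_const_lt
      (u := 4 * ((n + 1 : ℕ) * γ * ∑ i, ∑ j, c i * c j * h (x i - x j))) (by nlinarith)).exists
    have h4 := (hB.shift (φ (i + 1))).par (hB.shift (φ i)) c x
    obtain ⟨M, hM⟩ := Nat.exists_eq_add_of_lt (hφ (Nat.lt_succ_self i))
    refine (hP.shift (φ i)).per hθ M.succ_pos fun y => ?_
    have h5 := h4 y
    rw [show y + (M.succ : ℕ) + φ i = y + φ (i + 1) by rw [hM]; push_cast; ring]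
    simp only [Function.comp] at hi
    generalize P (y + φ (i + 1)) - P (y + φ i) = δ at *
    generalize ∑ j, c j * P (x j + φ (i + 1)) + ∑ j, c j * P (x j + φ i) = A at *
    generalize ∑ i, ∑ j, c i * c j * h (x i - x j) = β at *
    push_cast at hi h5
    have hn : (0 : ℝ) ≤ n := n.cast_nonneg
    have h6 : A ^ 2 ≤ 4 * ((n + 1 + 1) * γ) * β := by simpa using h5 0
    have hβ : 0 ≤ β := nonneg_of_mul_nonneg_right ((sq_nonneg _).trans h6) (by positivity)
    have h7 := discrim_le_zero (a := 4 * ((n + 1 + 1) * γ) * h 0 - δ ^ 2) (b := -(2 * A * δ))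
      (c := 4 * ((n + 1 + 1) * γ) * β - A ^ 2) fun t => by nlinarith [h5 t]
    rw [discrim] at h7
    have h8 : 0 < A ^ 2 := lt_of_le_of_lt (by positivity) hi
    have h9 : A ^ 2 * δ ^ 2 ≤ 4 * ((n + 1 + 1) * γ) * h 0 * (4 * γ * β) := by
      nlinarith [mul_nonneg (sq_nonneg δ) (sub_nonneg.2 h6), mul_le_mul_of_nonneg_left
        (show 4 * ((n + 1 + 1) * γ) * β - A ^ 2 ≤ 4 * γ * β by linarith)
        (show 0 ≤ 4 * ((n + 1 + 1) * γ) * h 0 by positivity)]
    have h10 : A ^ 2 * δ ^ 2 ≤ A ^ 2 * (1 / 10) ^ 2 := by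
      have e1 := mul_le_mul h1 hi.le (by positivity) (by norm_num)
      nlinarith [mul_nonneg hn (show 0 ≤ γ * h 0 * (γ * β) by positivity)]
    exact abs_le.2 (abs_le_of_sq_le_sq' (le_of_mul_le_mul_left h10 h8) (by norm_num))

end Pool.Agent.Lib.MP_1e748d_nt.U
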