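import Pool.Agent.Lib.MP_1e748d_nt.UHel

/-! Measures of bounded mass with integer Chebyshev moments do not stick out of `[-2, 2]` a little. -/

open Finset Filter Topology MeasureTheory Polynomial Real

namespace Pool.Agent.Lib.MP_1e748d_nt.U

/-- The monic Chebyshev polynomials as functions. -/
noncomputable def tc (k : ℤ) (y : ℝ) : ℝ := (Chebyshev.C ℝ k).eval y

lemma tc_cont (k : ℤ) : Continuous (tc k) := (Chebyshev.C ℝ k).continuous

lemma tc_rec (k : ℤ) (y : ℝ) : tc (k + 1) y - 2 * tc k y + tc (k - 1) y = (y - 2) * tc k y := by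
  simp only [tc, Chebyshev.C_add_one, eval_sub, eval_mul, eval_X]
  ring

lemma tc_cos {y : ℝ} (hy : y ∈ Set.Icc (-2 : ℝ) 2) : ∃ t, ∀ k, tc k y = 2 * cos (k * t) :=
  ⟨arccos (y / 2), fun k => by
    rw [← Chebyshev.C_two_mul_real_cos, cos_arccos (by linarith [hy.1]) (by linarith [hy.2]), tc]
    ring_nf⟩

lemma tc_abs {y : ℝ} (hy : y ∈ Set.Icc (-2 : ℝ) 2) (k : ℤ) : |tc k y| ≤ 2 := by
  obtain ⟨t, ht⟩ := tc_cos hy
  rw [ht, abs_mul, abs_two]
  linarith [abs_cos_le_one (k * t)]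

lemma tc_cs {y : ℝ} (hy : y ∈ Set.Icc (-2 : ℝ) 2) (k : ℤ) {n : ℕ} (c : Fin n → ℝ)
    (x : Fin n → ℤ) :
    (∑ i, c i * tc (x i + k) y) ^ 2 ≤ 2 * ∑ i, ∑ j, c i * c j * tc (x i - x j) y := by
  obtain ⟨t, ht⟩ := tc_cos hy
  have e1 : ∑ i, c i * tc (x i + k) y = 2 * ((∑ i, c i * cos (x i * t)) * cos (k * t) -
      (∑ i, c i * sin (x i * t)) * sin (k * t)) := by
    rw [sum_mul, sum_mul, ← sum_sub_distrib, mul_sum]
    refine sum_congr rfl fun i _ => ?_
    rw [ht, Int.cast_add, add_mul, cos_add]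
    ring
  have e2 : ∑ i, ∑ j, c i * c j * tc (x i - x j) y =
      2 * ((∑ i, c i * cos (x i * t)) * (∑ i, c i * cos (x i * t)) +
        (∑ i, c i * sin (x i * t)) * ∑ i, c i * sin (x i * t)) := by
    rw [sum_mul_sum, sum_mul_sum, ← sum_add_distrib, mul_sum]
    refine sum_congr rfl fun i _ => ?_
    rw [← sum_add_distrib, mul_sum]
    refine sum_congr rfl fun j _ => ?_
    rw [ht, Int.cast_sub, sub_mul, cos_sub]
    ring
  rw [e1, e2]
  generalize ∑ i, c i * cos (x i * t) = U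
  generalize ∑ i, c i * sin (x i * t) = V
  have e3 := sin_sq_add_cos_sq (k * t)
  have e4 : (U ^ 2 + V ^ 2) * (sin (k * t) ^ 2 + cos (k * t) ^ 2) = U ^ 2 + V ^ 2 := by
    rw [e3, mul_one]
  nlinarith [sq_nonneg (U * sin (k * t) + V * cos (k * t))]

lemma tc_slow {y u : ℝ} (hu : 0 ≤ u) (h1 : 2 ≤ y) (h2 : y ≤ 2 * cosh u) (k j : ℤ) :
    tc (k + j) y ≤ exp (|(j : ℝ)| * u) * tc k y := by
  have h3 : 1 ≤ y / 2 := by linarith
  have h4 := arcosh_nonneg h3
  have h5 : arcosh (y / 2) ≤ u := by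
    have := cosh_le_cosh.1 ((cosh_arcosh h3).trans_le (show y / 2 ≤ cosh u by linarith))
    rwa [abs_of_nonneg h4, abs_of_nonneg hu] at this
  have e : ∀ k, tc k y = 2 * cosh (k * arcosh (y / 2)) := fun k => by
    rw [← Chebyshev.C_two_mul_real_cosh, cosh_arcosh h3, tc]
    ring_nf
  have b1 : exp (j * arcosh (y / 2)) ≤ exp (|(j : ℝ)| * u) :=
    exp_le_exp.2 (mul_le_mul (le_abs_self _) h5 h4 (abs_nonneg _))
  have b2 : exp (-(j * arcosh (y / 2))) ≤ exp (|(j : ℝ)| * u) :=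
    exp_le_exp.2 ((neg_mul _ _).ge.trans (mul_le_mul (neg_le_abs _) h5 h4 (abs_nonneg _)))
  rw [e, e, cosh_eq, cosh_eq, Int.cast_add, add_mul, neg_add, exp_add, exp_add]
  nlinarith [mul_le_mul_of_nonneg_left b1 (exp_pos (k * arcosh (y / 2))).le,
    mul_le_mul_of_nonneg_left b2 (exp_pos (-(k * arcosh (y / 2)))).le]

lemma tc_lb {y : ℝ} (hy : 2 ≤ y) (k : ℕ) :
    k * (y - 2) ≤ tc k y ∧ y - 2 ≤ tc (k + 1) y - tc k y := by
  induction k with
  | zero => simp [tc]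
  | succ k ih =>
    have h := tc_rec (k + 1) y
    have h0 : 0 ≤ (k : ℝ) * (y - 2) := mul_nonneg k.cast_nonneg (by linarith)
    rw [add_sub_cancel_right] at h
    push_cast
    constructor
    · linarith [ih.1, ih.2]
    · nlinarith [ih.1, ih.2]

lemma step {m u θ : ℝ} (hm : 0 < m) (hu : 0 ≤ u) {μ : Measure ℝ} [IsFiniteMeasure μ]
    (hμ : μ.real Set.univ ≤ m) {g : ℝ → ℝ} (hg : Continuous g)
    (hs : ∀ᵐ x ∂μ, g x ∈ Set.Icc (-2) (2 * cosh u))
    (hz : ∀ k : ℤ, ∃ n : ℤ, ∫ x, (g x - 2) * tc k (g x) ∂μ = n)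
    (hθ : (2 * cosh u - 2) * 2 * m < θ) (hn : ¬ ∀ᵐ x ∂μ, g x ≤ 2) :
    ∃ h P E : ℤ → ℝ, Bd h P (2 * m) ∧ (∀ y, h y ∈ Set.Icc (-(2 * m)) (2 * m)) ∧
      (∀ y, P y ∈ Set.Icc (-(2 * m)) (2 * m)) ∧
      (∀ y, ∃ n : ℤ, P (y + 1) - 2 * P y + P (y - 1) + E y = n) ∧
      ∀ y : ℤ, θ ≤ exp (|((-y : ℤ) : ℝ)| * u) * E y ∧ E y ≤ exp (|((1 + y : ℤ) : ℝ)| * u) * θ := by
  have hi : ∀ F : ℝ → ℝ, Continuous F → Integrable (fun x => F (g x)) μ := fun F hF => by
    obtain ⟨C, hC⟩ := (isCompact_Icc (a := -2) (b := 2 * cosh u)).exists_bound_of_continuousOn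
      hF.continuousOn
    exact .of_bound (hF.comp hg).aestronglyMeasurable C (hs.mono fun x hx => hC _ hx)
  have hw : ∀ᵐ x ∂μ, min (g x) 2 ∈ Set.Icc (-2 : ℝ) 2 :=
    hs.mono fun x hx => ⟨le_min hx.1 (by norm_num), min_le_right _ _⟩
  have c1 : ∀ k, Continuous fun y : ℝ => tc k (min y 2) := fun k =>
    (tc_cont k).comp (continuous_id.min continuous_const)
  have c2 : ∀ k, Continuous fun y : ℝ => max (y - 2) 0 * tc k y := fun k =>
    ((continuous_id.sub continuous_const).max continuous_const).mul (tc_cont k)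
  obtain ⟨p, hp⟩ : ∃ p : ℤ → ℝ, ∀ k, p k = ∫ x, tc k (min (g x) 2) ∂μ := ⟨_, fun _ => rfl⟩
  obtain ⟨E, hE⟩ : ∃ E : ℤ → ℝ, ∀ k, E k = ∫ x, max (g x - 2) 0 * tc k (g x) ∂μ :=
    ⟨_, fun _ => rfl⟩
  have h1 : ∀ k, p k ∈ Set.Icc (-(2 * m)) (2 * m) := fun k => abs_le.1 <| by
    rw [hp]
    exact (norm_integral_le_of_norm_le_const (f := fun x => tc k (min (g x) 2)) (C := 2)
      (hw.mono fun x hx => tc_abs hx k)).trans (mul_le_mul_of_nonneg_left hμ zero_le_two)
  have h2 : ∀ k, Bd p (fun y => p (y + k)) (2 * m) := fun k n c x => by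
    have c3 : Continuous fun y : ℝ => ∑ i, c i * tc (x i + k) (min y 2) := by fun_prop
    have c4 : ∀ i, Continuous fun y : ℝ => ∑ j, c i * c j * tc (x i - x j) (min y 2) :=
      fun i => by fun_prop
    have e1 : ∑ i, c i * p (x i + k) = ∫ z, ∑ i, c i * tc (x i + k) (min (g z) 2) ∂μ := by
      rw [integral_finsetSum _ fun i _ => (hi _ (c1 _)).const_mul _]
      simp only [hp, integral_const_mul]
    have e2 : ∑ i, ∑ j, c i * c j * p (x i - x j) =
        ∫ z, ∑ i, ∑ j, c i * c j * tc (x i - x j) (min (g z) 2) ∂μ := by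
      rw [integral_finsetSum _ fun i _ => hi _ (c4 i)]
      refine sum_congr rfl fun i _ => ?_
      rw [integral_finsetSum _ fun i _ => (hi _ (c1 _)).const_mul _]
      simp only [hp, integral_const_mul]
    rw [e1, e2]
    have i2 := hi _ (continuous_finsetSum univ fun i _ => c4 i)
    obtain ⟨I, hI⟩ : ∃ I, I = ∫ z, ∑ i, c i * tc (x i + k) (min (g z) 2) ∂μ := ⟨_, rfl⟩
    have b := integral_mono_ae ((hi _ c3).const_mul (2 * I * m))
      ((integrable_const (I ^ 2)).add (i2.const_mul (m ^ 2 * 2))) (hw.mono fun z hz => by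
        have := mul_le_mul_of_nonneg_left (tc_cs hz k c x) (sq_nonneg m)
        simp only [Pi.add_apply]
        nlinarith [sq_nonneg (I - m * ∑ i, c i * tc (x i + k) (min (g z) 2))])
    simp only [Pi.add_apply] at b
    rw [integral_add (integrable_const _) (i2.const_mul _), integral_const_mul, integral_const_mul,
      integral_const, smul_eq_mul, ← hI] at b
    rw [← hI]
    refine le_of_mul_le_mul_left ?_ hm
    nlinarith [mul_le_mul_of_nonneg_right hμ (sq_nonneg I)]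
  have h3 : ∀ k, ∃ n : ℤ, p (k + 1) - 2 * p k + p (k - 1) + E k = n := fun k => by
    obtain ⟨n, hn⟩ := hz k
    refine ⟨n, ?_⟩
    have i1 := (hi _ (c1 (k + 1))).sub ((hi _ (c1 k)).const_mul 2)
    have i2 := i1.add (hi _ (c1 (k - 1)))
    have e1 := integral_sub (hi _ (c1 (k + 1))) ((hi _ (c1 k)).const_mul 2)
    have e2 := integral_add i1 (hi _ (c1 (k - 1)))
    have e3 := integral_add i2 (hi _ (c2 k))
    simp only [Pi.add_apply, Pi.sub_apply] at e2 e3
    rw [← hn, hp, hp, hp, hE, ← integral_const_mul, ← e1, ← e2, ← e3]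
    refine integral_congr_ae (Eventually.of_forall fun x => ?_)
    simp only
    rw [tc_rec]
    rcases le_total (g x) 2 with h | h
    · rw [min_eq_left h, max_eq_right (by linarith), zero_mul, add_zero]
    · rw [min_eq_right h, max_eq_left (by linarith), sub_self, zero_mul, zero_add]
  have h4 : ∀ k j, E (k + j) ≤ exp (|(j : ℝ)| * u) * E k := fun k j => by
    rw [hE, hE, ← integral_const_mul]
    refine integral_mono_ae (hi _ (c2 _)) ((hi _ (c2 _)).const_mul _) (hs.mono fun x hx => ?_)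
    rcases le_total (g x) 2 with h | h
    · simp only [max_eq_right (sub_nonpos.2 h), zero_mul, mul_zero, le_refl]
    · simp only [max_eq_left (sub_nonneg.2 h)]
      nlinarith [mul_le_mul_of_nonneg_left (tc_slow hu h hx.2 k j) (sub_nonneg.2 h)]
  have h5 : ∃ k : ℕ, θ ≤ E k := by
    by_contra h0
    push Not at h0
    have c3 : Continuous fun y : ℝ => max (y - 2) 0 ^ 2 := by fun_prop
    have b : ∀ k : ℕ, k * ∫ x, max (g x - 2) 0 ^ 2 ∂μ ≤ θ := fun k => by
      refine le_trans ?_ (h0 k).le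
      rw [hE, ← integral_const_mul]
      refine integral_mono ((hi _ c3).const_mul _) (hi _ (c2 _)) fun x => ?_
      rcases le_total (g x) 2 with h | h
      · simp [max_eq_right (sub_nonpos.2 h)]
      · simp only [max_eq_left (sub_nonneg.2 h)]
        nlinarith [mul_le_mul_of_nonneg_left (tc_lb h k).1 (sub_nonneg.2 h)]
    have b0 : ∫ x, max (g x - 2) 0 ^ 2 ∂μ = 0 := by
      refine le_antisymm (not_lt.1 fun h => ?_) (integral_nonneg fun x => sq_nonneg _)
      obtain ⟨k, hk⟩ := exists_nat_gt (θ / ∫ x, max (g x - 2) 0 ^ 2 ∂μ)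
      exact ((div_lt_iff₀ h).1 hk).not_ge (b k)
    refine hn (((integral_eq_zero_iff_of_nonneg (fun x => sq_nonneg _) (hi _ c3)).1 b0).mono
      fun x hx => ?_)
    have : max (g x - 2) 0 = 0 := by simpa using hx
    linarith [le_max_left (g x - 2) 0]
  have h6 : E 0 < θ := by
    refine lt_of_le_of_lt ?_ hθ
    rw [hE]
    have hc : 0 ≤ 2 * cosh u - 2 := by linarith [one_le_cosh u]
    refine (le_abs_self _).trans ((norm_integral_le_of_norm_le_const (C := (2 * cosh u - 2) * 2)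
      (f := fun x => max (g x - 2) 0 * tc 0 (g x)) (hs.mono fun x hx => ?_)).trans
        (mul_le_mul_of_nonneg_left hμ (by positivity)))
    have : max (g x - 2) 0 ≤ 2 * cosh u - 2 := max_le (by linarith [hx.2]) hc
    rw [show tc 0 (g x) = 2 by simp [tc], Real.norm_of_nonneg (by positivity)]
    gcongr
  classical
  obtain ⟨k, hk⟩ := Nat.exists_eq_succ_of_ne_zero (n := Nat.find h5) fun h =>
    h6.not_ge (by simpa [h] using Nat.find_spec h5)
  have h7 : θ ≤ E (k + 1) := by simpa [hk] using Nat.find_spec h5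
  have h8 : E k ≤ θ := (not_le.1 (Nat.find_min h5 (hk ▸ k.lt_succ_self))).le
  refine ⟨p, fun y => p (y + (k + 1)), fun y => E (y + (k + 1)), h2 _, h1, fun y => h1 _,
    fun y => ?_, fun y => ⟨h7.trans ?_, ?_⟩⟩
  · obtain ⟨n, hn⟩ := h3 (y + (k + 1))
    exact ⟨n, by rw [← hn]; ring_nf⟩
  · simpa using h4 (y + (k + 1)) (-y)
  · refine le_trans ?_ ((h4 k (1 + y)).trans (by gcongr))
    exact (congrArg E (by ring)).le

theorem int_case {m : ℝ} (hm : 0 < m) : ∃ u : ℝ, 0 < u ∧ ∀ (μ : Measure ℝ) [IsFiniteMeasure μ],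
    μ.real Set.univ ≤ m → ∀ g : ℝ → ℝ, Continuous g →
      (∀ᵐ x ∂μ, g x ∈ Set.Icc (-2) (2 * cosh u)) →
      (∀ k : ℤ, ∃ n : ℤ, ∫ x, (g x - 2) * tc k (g x) ∂μ = n) → ∀ᵐ x ∂μ, g x ≤ 2 := by
  by_contra h0
  obtain ⟨M, hM⟩ := exists_nat_gt ((2 * cosh 1 - 2) * 2 * m)
  have h1 : ∀ i : ℕ, ∃ h P E : ℤ → ℝ, Bd h P (2 * m) ∧ (∀ y, h y ∈ Set.Icc (-(2 * m)) (2 * m)) ∧
      (∀ y, P y ∈ Set.Icc (-(2 * m)) (2 * m)) ∧
      (∀ y, ∃ n : ℤ, P (y + 1) - 2 * P y + P (y - 1) + E y = n) ∧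
      ∀ y : ℤ, √2 + M ≤ exp (|((-y : ℤ) : ℝ)| * (1 / (i + 1))) * E y ∧
        E y ≤ exp (|((1 + y : ℤ) : ℝ)| * (1 / (i + 1))) * (√2 + M) := fun i => by
    have hu : (0 : ℝ) < 1 / (i + 1) := by positivity
    simp only [not_exists, not_and, not_forall] at h0
    obtain ⟨μ, _, a1, g, a2, a3, a4, a5⟩ := h0 _ hu
    refine step hm hu.le a1 a2 a3 a4 (lt_of_le_of_lt ?_ (hM.trans_le (by simp))) a5
    have : cosh (1 / (i + 1)) ≤ cosh 1 := cosh_le_cosh.2 (by
      rw [abs_of_pos hu, abs_one, div_le_one (by positivity)]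
      simp)
    gcongr
  choose h P E b1 b2 b3 b4 b5 using h1
  obtain ⟨⟨H, Z⟩, -, φ, hφ, hZ⟩ := ((isCompact_univ_pi fun _ : ℤ => isCompact_Icc).prod
    (isCompact_univ_pi fun _ : ℤ => isCompact_Icc)).tendsto_subseq (x := fun i => (h i, P i))
    fun i => ⟨fun y _ => b2 i y, fun y _ => b3 i y⟩
  have t1 : ∀ y, Tendsto (fun i => h (φ i) y) atTop (𝓝 (H y)) := tendsto_pi_nhds.1 hZ.fst_nhds
  have t2 : ∀ y, Tendsto (fun i => P (φ i) y) atTop (𝓝 (Z y)) := tendsto_pi_nhds.1 hZ.snd_nhds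
  have t3 : ∀ c : ℝ, Tendsto (fun i => exp (c * (1 / ((φ i : ℝ) + 1)))) atTop (𝓝 1) := fun c => by
    have := (continuous_exp.tendsto _).comp
      ((tendsto_one_div_add_atTop_nhds_zero_nat.comp hφ.tendsto_atTop).const_mul c)
    simpa [Function.comp_def] using this
  have t4 : ∀ y, Tendsto (fun i => E (φ i) y) atTop (𝓝 (√2 + M)) := fun y => by
    refine tendsto_of_tendsto_of_tendsto_of_le_of_le
      (by simpa using (t3 (-|((-y : ℤ) : ℝ)|)).mul_const (√2 + M))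
      (by simpa using (t3 |((1 + y : ℤ) : ℝ)|).mul_const (√2 + M)) (fun i => ?_)
      fun i => by simpa using (b5 (φ i) y).2
    have := (b5 (φ i) y).1
    rw [← inv_mul_le_iff₀ (exp_pos _), ← exp_neg] at this
    simpa using this
  refine helson (h := H) (P := Z) (irrational_sqrt_two.add_natCast M) (by positivity : 0 < 2 * m)
    (fun y => int_lim (fun i => b4 (φ i) y)
      ((((t2 _).sub ((t2 y).const_mul 2)).add (t2 _)).add (t4 y))) fun n c x => ?_
  exact le_of_tendsto_of_tendsto' ((tendsto_finsetSum _ fun i _ => (t2 _).const_mul _).pow 2)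
    ((tendsto_finsetSum _ fun i _ => tendsto_finsetSum _ fun j _ =>
      (t1 _).const_mul _).const_mul _) fun i => b1 (φ i) n c x

end Pool.Agent.Lib.MP_1e748d_nt.U
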