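import Pool.Agent.Lib.MP_1e748d_nt.BMain
import Pool.Agent.Lib.MP_1e748d_nt.UInt

/-! Measures of bounded mass with integer moments on intervals of length `4 + ε`. -/

open Polynomial MeasureTheory Filter

namespace Pool.Agent.Lib.MP_1e748d_nt.U

/-- Mass at most `m`, support in `[s, t]`, integer moments. -/
structure Ad (m : ℕ) (s t : ℝ) (μ : Measure ℝ) : Prop where
  mass : μ Set.univ ≤ m
  supp : ∀ᵐ x ∂μ, x ∈ Set.Icc s t
  mom : ∀ k : ℕ, ∃ n : ℤ, ∫ x, x ^ k ∂μ = n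

variable {m : ℕ} {s t s' t' : ℝ} {μ : Measure ℝ}

lemma Ad.fin (h : Ad m s t μ) : IsFiniteMeasure μ :=
  ⟨h.mass.trans_lt (ENNReal.natCast_lt_top m)⟩

lemma Ad.real (h : Ad m s t μ) : μ.real Set.univ ≤ m :=
  ENNReal.toReal_le_of_le_ofReal m.cast_nonneg (by simpa using h.mass)

lemma Ad.mono (h : Ad m s t μ) (h1 : s' ≤ s) (h2 : t ≤ t') : Ad m s' t' μ :=
  ⟨h.mass, h.supp.mono fun _ hx => ⟨h1.trans hx.1, hx.2.trans h2⟩, h.mom⟩

lemma Ad.intg (h : Ad m s t μ) (p : ℝ[X]) : Integrable (fun x => p.eval x) μ := by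
  have := h.fin
  rw [← Measure.restrict_eq_self_of_ae_mem h.supp]
  exact p.continuous.continuousOn.integrableOn_Icc

lemma Ad.poly (h : Ad m s t μ) (q : ℤ[X]) : ∃ n : ℤ, ∫ x, aeval x q ∂μ = n := by
  have hi : ∀ q : ℤ[X], Integrable (fun x : ℝ => aeval x q) μ := fun q => by
    simpa only [eval_map_algebraMap] using h.intg (q.map (algebraMap ℤ ℝ))
  induction q using Polynomial.induction_on' with
  | add p q hp hq =>
    obtain ⟨a, ha⟩ := hp
    obtain ⟨b, hb⟩ := hq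
    exact ⟨a + b, by simp only [map_add, integral_add (hi p) (hi q), ha, hb, Int.cast_add]⟩
  | monomial k c =>
    obtain ⟨a, ha⟩ := h.mom k
    exact ⟨c * a, by simp [aeval_monomial, integral_const_mul, ha]⟩

lemma Ad.shift (h : Ad m s t μ) (n : ℤ) : Ad m (s - n) (t - n) (μ.map fun x => x - n) := by
  have hm : Measurable fun x : ℝ => x - n := by fun_prop
  refine ⟨by simpa [Measure.map_apply hm] using h.mass, (ae_map_iff hm.aemeasurable
    measurableSet_Icc).2 (h.supp.mono fun x hx => ⟨by linarith [hx.1], by linarith [hx.2]⟩),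
    fun k => ?_⟩
  rw [integral_map hm.aemeasurable (by fun_prop)]
  have := h.poly ((X - (n : ℤ[X])) ^ k)
  simp only [map_pow, map_sub, aeval_X, map_intCast] at this
  exact this

theorem loc_non {a : ℝ} (ha : ∀ n : ℤ, a ≠ n) (m : ℕ) : ∃ δ : ℝ, 0 < δ ∧ ∃ S : Finset ℝ,
    ∀ μ : Measure ℝ, Ad m (a - δ) (a + 4 + δ) μ → μ (↑S)ᶜ = 0 := by
  classical
  by_contra hn
  push Not at hn
  choose μ h1 h4 using fun z : Finset ℝ × ℕ => hn (1 / (z.2 + 1)) (by positivity) z.1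
  have hd : ∀ i : ℕ, (1 : ℝ) / (i + 1) ≤ 1 := fun i => by
    rw [div_le_one (by positivity)]
    simp
  let U := Ultrafilter.of (atTop : Filter (Finset ℝ × ℕ))
  have h5 : ∀ k : ℕ, ∃ n : ℤ, ∀ᶠ z in U, ∫ x, x ^ k ∂μ z = n := fun k => by
    obtain ⟨K, hK⟩ := exists_nat_ge ((|a| + 5) ^ k * m)
    obtain ⟨n, -, h⟩ := (Ultrafilter.eventually_exists_mem_iff (f := U)
      (P := fun (n : ℤ) z => ∫ x, x ^ k ∂μ z = n)
      (Set.finite_Icc (-K : ℤ) K)).1 (Eventually.of_forall fun z => by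
        obtain ⟨n, hn⟩ := (h1 z).mom k
        refine ⟨n, abs_le.1 ?_, hn⟩
        have := (h1 z).fin
        have b1 := norm_integral_le_of_norm_le_const (μ := μ z) (f := fun x : ℝ => x ^ k)
          (C := (|a| + 5) ^ k) ((h1 z).supp.mono fun x hx => by
            have b3 : |x| ≤ |a| + 5 := abs_le.2 ⟨by linarith [hx.1, neg_abs_le a, hd z.2],
              by linarith [hx.2, le_abs_self a, hd z.2]⟩
            rw [Real.norm_eq_abs, abs_pow]
            gcongr)
        rw [hn, Real.norm_eq_abs] at b1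
        have b4 := (b1.trans (mul_le_mul_of_nonneg_left (h1 z).real (by positivity))).trans hK
        exact_mod_cast b4)
    exact ⟨n, h⟩
  choose s hs using h5
  let L : ℝ[X] →ₗ[ℝ] ℝ := (basisMonomials ℝ).constr ℝ fun k => (s k : ℝ)
  have hL : ∀ k, L (X ^ k) = s k := fun k => by
    rw [← monomial_one_right_eq_X_pow, ← congrFun (coe_basisMonomials ℝ) k]
    exact Module.Basis.constr_basis _ _ _ _
  have h6 : ∀ q : ℝ[X], ∀ᶠ z in U, L q = ∫ x, q.eval x ∂μ z := fun q => by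
    induction q using Polynomial.induction_on' with
    | add p q hp hq =>
      filter_upwards [hp, hq] with z t1 t2
      simp only [map_add, t1, t2, eval_add, integral_add ((h1 z).intg p) ((h1 z).intg q)]
    | monomial k c =>
      filter_upwards [hs k] with z t1
      rw [← smul_X_eq_monomial, map_smul, hL, ← t1]
      simp [integral_const_mul]
  obtain ⟨n, h⟩ := B.Fn.core (a := a) (s := s) (L := L) ⟨hL, fun q hq => by
    refine le_of_forall_pos_le_add fun η hη => ?_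
    have hη' : 0 < η / (m + 1) := by positivity
    obtain ⟨δ, hδ, hsub⟩ := (isCompact_Icc (a := a) (b := a + 4)).exists_thickening_subset_open
      (isOpen_lt continuous_const q.continuous) fun y hy => (neg_lt_zero.2 hη').trans_le (hq y hy)
    obtain ⟨i, hi⟩ := exists_nat_one_div_lt hδ
    obtain ⟨z, p1, p2⟩ := ((h6 q).and (Ultrafilter.of_le _ (eventually_ge_atTop (∅, i)))).exists
    have hz : (1 : ℝ) / (z.2 + 1) < δ := (Nat.one_div_le_one_div p2.2).trans_lt hi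
    have := (h1 z).fin
    have b := integral_mono_ae (integrable_const (-(η / (m + 1)))) ((h1 z).intg q)
      ((h1 z).supp.mono fun x hx => (hsub (Metric.mem_thickening_iff.2
        ⟨max a (min x (a + 4)), ⟨le_max_left _ _, max_le (by linarith) (min_le_right _ _)⟩, by
          rw [Real.dist_eq, abs_lt, max_def, min_def]
          constructor <;> split_ifs <;> linarith [hx.1, hx.2]⟩)).le)
    rw [integral_const, smul_eq_mul, ← p1] at b
    have b2 : η / (m + 1) * (m + 1) = η := by field_simp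
    nlinarith [mul_le_mul_of_nonneg_left (h1 z).real hη'.le], fun q hq => by
      by_contra h
      obtain ⟨z, p1, p2⟩ := ((h6 (q * q)).and
        (Ultrafilter.of_le _ (eventually_ge_atTop (q.roots.toFinset, 0)))).exists
      have p3 := (integral_eq_zero_iff_of_nonneg (fun x => by
        simpa using mul_self_nonneg (q.eval x)) ((h1 z).intg (q * q))).1 (p1.symm.trans hq)
      exact h4 z (show ∀ᵐ x ∂μ z, x ∈ (z.1 : Set ℝ) from
        p3.mono fun x hx => p2.1 (by simpa [h] using hx))⟩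
  exact ha n h

theorem loc_int (n : ℤ) (m : ℕ) : ∃ δ : ℝ, 0 < δ ∧
    ∀ μ : Measure ℝ, Ad m (n - δ) (n + 4 + δ) μ → μ (Set.Icc (n : ℝ) (n + 4))ᶜ = 0 := by
  obtain ⟨u, hu, h⟩ := int_case (m := m + 1) (by positivity)
  have hc := Real.one_lt_cosh.2 hu.ne'
  refine ⟨min 1 ((2 * Real.cosh u - 2) / 5), lt_min one_pos (by linarith), fun μ hμ => ?_⟩
  have := hμ.fin
  have h1 := min_le_left 1 ((2 * Real.cosh u - 2) / 5)
  have h2 := min_le_right 1 ((2 * Real.cosh u - 2) / 5)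
  have h3 : 0 < min 1 ((2 * Real.cosh u - 2) / 5) := lt_min one_pos (by linarith)
  refine (h μ (hμ.real.trans (by simp)) (fun x => (x - n - 2) ^ 2 - 2) (by fun_prop)
    (hμ.supp.mono fun x hx => ⟨by nlinarith [sq_nonneg (x - n - 2)], ?_⟩) fun k => ?_).mono
    fun x hx => ⟨by nlinarith, by nlinarith⟩
  · nlinarith [hx.1, hx.2, mul_nonneg (sub_nonneg.2 hx.1) (sub_nonneg.2 hx.2)]
  · have := hμ.poly (((X - 2) * Chebyshev.C ℤ k).comp ((X - (n : ℤ[X]) - 2) ^ 2 - 2))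
    simp only [aeval_comp, map_mul, map_pow, map_sub, aeval_X, map_intCast, map_ofNat,
      Chebyshev.aeval_C] at this
    exact this

theorem unif (m : ℕ) : ∃ ε : ℝ, 0 < ε ∧ ∃ S : Finset ℝ, ∀ (s : ℝ) (μ : Measure ℝ),
    Ad m s (s + 4 + ε) μ →
      ∃ n : ℤ, μ {x | x - n ∉ S} = 0 ∨ μ (Set.Icc (n : ℝ) (n + 4))ᶜ = 0 := by
  classical
  obtain ⟨ε, hε, S, h⟩ := (isCompact_Icc (a := (0 : ℝ)) (b := 1)).induction_on
    (p := fun T => ∃ ε : ℝ, 0 < ε ∧ ∃ S : Finset ℝ, ∀ s ∈ T, ∀ μ : Measure ℝ,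
      Ad m s (s + 4 + ε) μ → μ (↑S)ᶜ = 0 ∨ ∃ n : ℤ, μ (Set.Icc (n : ℝ) (n + 4))ᶜ = 0)
    ⟨1, one_pos, ∅, fun _ h => h.elim⟩
    (fun _ _ hT ⟨ε, hε, S, h⟩ => ⟨ε, hε, S, fun s hs => h s (hT hs)⟩)
    (fun _ _ ⟨ε, hε, S, h⟩ ⟨ε', hε', S', h'⟩ => ⟨min ε ε', lt_min hε hε', S ∪ S', fun s hs μ hμ =>
      hs.elim (fun hs => (h s hs μ (hμ.mono le_rfl (by gcongr; exact min_le_left _ _))).imp_left
          (measure_mono_null (by simp +contextual [Set.subset_def])))
        fun hs => (h' s hs μ (hμ.mono le_rfl (by gcongr; exact min_le_right _ _))).imp_left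
          (measure_mono_null (by simp +contextual [Set.subset_def]))⟩)
    fun a _ => by
      obtain ⟨δ, hδ, S, h⟩ : ∃ δ : ℝ, 0 < δ ∧ ∃ S : Finset ℝ, ∀ μ : Measure ℝ,
          Ad m (a - δ) (a + 4 + δ) μ →
            μ (↑S)ᶜ = 0 ∨ ∃ n : ℤ, μ (Set.Icc (n : ℝ) (n + 4))ᶜ = 0 := by
        by_cases ha : ∃ n : ℤ, a = n
        · obtain ⟨n, rfl⟩ := ha
          obtain ⟨δ, hδ, h⟩ := loc_int n m
          exact ⟨δ, hδ, ∅, fun μ hμ => .inr ⟨n, h μ hμ⟩⟩
        · obtain ⟨δ, hδ, S, h⟩ := loc_non (not_exists.1 ha) m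
          exact ⟨δ, hδ, S, fun μ hμ => .inl (h μ hμ)⟩
      exact ⟨Set.Ioo (a - δ / 2) (a + δ / 2), mem_nhdsWithin_of_mem_nhds
        (Ioo_mem_nhds (by linarith) (by linarith)), δ / 2, by positivity, S, fun s hs μ hμ =>
          h μ (hμ.mono (by linarith [hs.1]) (by linarith [hs.2]))⟩
  refine ⟨ε, hε, S, fun s μ hμ => ?_⟩
  have hm : Measurable fun x : ℝ => x - ⌊s⌋ := by fun_prop
  rcases h (s - ⌊s⌋) ⟨by linarith [Int.floor_le s], by linarith [Int.lt_floor_add_one s]⟩ _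
    ((hμ.shift ⌊s⌋).mono le_rfl (by linarith)) with h | ⟨n, h⟩
  · exact ⟨⌊s⌋, .inl (by rwa [Measure.map_apply hm S.measurableSet.compl] at h)⟩
  · rw [Measure.map_apply hm measurableSet_Icc.compl] at h
    refine ⟨n + ⌊s⌋, .inr (measure_mono_null (fun x hx => ?_) h)⟩
    refine fun c => hx ?_
    push_cast
    exact ⟨by linarith [c.1], by linarith [c.2]⟩

end Pool.Agent.Lib.MP_1e748d_nt.U
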